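import Pool.Agent.UNA.D0

set_option autoImplicit false
open Cardinal

namespace Pool.Agent.UNA

universe u

/-- Strong limit cardinals are closed under powers.

Proof. If `a < 2` or `b = 0` trivial; `max a ℵ₀ =: a' < κ` (or treat finite values separately),
`a ^ b ≤ (2 ^ a') ^ b = 2 ^ (a' * b)` and `a' * b ≤ max (max a' b) ℵ₀ < κ`
(`Cardinal.mul_le_max`), `hκ.two_power_lt`. -/
theorem pow_lt {κ : Cardinal.{u}} (hκ : κ.IsStrongLimit) (h0 : ℵ₀ < κ) {a b : Cardinal.{u}}
    (ha : a < κ) (hb : b < κ) : a ^ b < κ := by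
  have hcκ : max (max a b) ℵ₀ < κ := max_lt (max_lt ha hb) h0
  have ha1 : a ≤ max (max a b) ℵ₀ := le_trans (le_max_left _ _) (le_max_left _ _)
  have hb1 : b ≤ max (max a b) ℵ₀ := le_trans (le_max_right _ _) (le_max_left _ _)
  generalize max (max a b) ℵ₀ = c at hcκ ha1 hb1
  have hm : max (max c b) ℵ₀ < κ := max_lt (max_lt hcκ hb) h0
  have h1 : a ^ b ≤ (2 ^ c) ^ b :=
    Cardinal.power_le_power_right (le_trans ha1 (Cardinal.cantor c).le)
  have h2 : ((2 : Cardinal.{u}) ^ c) ^ b = 2 ^ (c * b) := Cardinal.power_mul.symm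
  have h3 : (2 : Cardinal.{u}) ^ (c * b) ≤ 2 ^ (max (max c b) ℵ₀) :=
    Cardinal.power_le_power_left two_ne_zero (Cardinal.mul_le_max c b)
  exact lt_of_le_of_lt (h1.trans (h2.le.trans h3)) (hκ.isStrongPrelimit hm)

/-- The continuum is below every uncountable strong limit. -/
theorem cont_lt {κ : Cardinal.{u}} (hκ : κ.IsStrongLimit) (h0 : ℵ₀ < κ) :
    Cardinal.lift.{u} Cardinal.continuum.{0} < κ := by
  rw [Cardinal.lift_continuum, ← Cardinal.two_power_aleph0]
  exact hκ.isStrongPrelimit h0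

/-- A cofinal sequence.

Proof. `κ.ord` is a limit ordinal of cofinality `ω`, so there is `f : ℕ → Ordinal` with values `< κ.ord`
cofinal in `κ.ord` (`Ordinal.exists_fundamentalSequence` / `Ordinal.cof_eq`-type lemma: a
cofinal subset of `κ.ord.ToType` of size `ℵ₀`, enumerate it).  `ν n := max of the (f i).card, i ≤ n`
(`Finset.sup`).  Monotone; `ν n < κ` (`Cardinal.lt_ord`); for `c < κ`: `succ c < κ`
(`κ` is a limit cardinal: from `IsStrongLimit`, `c < 2 ^ c < κ`), `(Order.succ c).ord < κ.ord`, so some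
`f i ≥ (Order.succ c).ord`, hence `c < Order.succ c ≤ (f i).card ≤ ν i`. -/
theorem exists_cofinal {κ : Cardinal.{u}} (hκ : κ.IsStrongLimit) (hc : κ.ord.cof = ℵ₀) :
    ∃ ν : ℕ → Cardinal.{u}, Monotone ν ∧ (∀ n, ν n < κ) ∧ ∀ c < κ, ∃ n, c < ν n := by
  obtain ⟨s, hs, hcard⟩ := Order.exists_cof_eq (α := κ.ord.ToType)
  rw [Ordinal.cof_toType, hc] at hcard
  have hcount : s.Countable := by
    rw [← Cardinal.le_aleph0_iff_set_countable]
    exact hcard.le
  have hne : s.Nonempty := by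
    rw [Set.nonempty_iff_ne_empty]
    intro he
    rw [he, Cardinal.mk_eq_zero] at hcard
    exact Cardinal.aleph0_ne_zero hcard.symm
  obtain ⟨f, hf⟩ := hcount.exists_eq_range hne
  have hκ0 : 0 < κ := lt_of_lt_of_le Cardinal.aleph0_pos hκ.aleph0_le
  have hlt : ∀ i, (f i).toOrd.1.card < κ := fun i => Cardinal.lt_ord.1 (f i).toOrd.2
  refine ⟨fun n => (Finset.range (n + 1)).sup fun i => (f i).toOrd.1.card, ?_, ?_, ?_⟩
  · intro a b hab
    exact Finset.sup_mono (Finset.range_mono (Nat.add_le_add_right hab 1))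
  · intro n
    refine (Finset.sup_lt_iff ?_).2 fun i _ => hlt i
    exact lt_of_le_of_lt bot_le hκ0
  · intro c hcκ
    have hsucc : Order.succ c < κ := lt_of_le_of_lt (Order.succ_le_of_lt (Cardinal.cantor c))
      (hκ.isStrongPrelimit hcκ)
    have hord : (Order.succ c).ord < κ.ord := Cardinal.ord_lt_ord.2 hsucc
    obtain ⟨y, hy, hle⟩ := hs (Ordinal.ToType.mk ⟨(Order.succ c).ord, hord⟩)
    rw [hf] at hy
    obtain ⟨i, rfl⟩ := hy
    refine ⟨i, ?_⟩
    have h1 : (Order.succ c).ord ≤ (f i).toOrd.1 := by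
      have h2 := (Ordinal.ToType.mk.symm.monotone hle)
      rw [OrderIso.symm_apply_apply] at h2
      exact h2
    have h3 : Order.succ c ≤ (f i).toOrd.1.card := Cardinal.ord_le.1 h1
    have h4 : (f i).toOrd.1.card ≤ (Finset.range (i + 1)).sup fun i => (f i).toOrd.1.card :=
      Finset.le_sup (f := fun i => (f i).toOrd.1.card) (Finset.mem_range.2 (Nat.lt_succ_self i))
    exact lt_of_lt_of_le (lt_of_lt_of_le (Order.lt_succ c) h3) h4

end Pool.Agent.UNA
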