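import Pool.Agent.UNA.D0

set_option autoImplicit false
open Cardinal

namespace Pool.Agent.UNA

universe u

/-- Filtration of a set of size `≤ κ`.

Proof. `f : D → κ.ord.ToType` injective (`#D ≤ κ = #κ.ord.ToType`),
`E n := {x | ∃ h : x ∈ D, typein (<) (f ⟨x, h⟩) < (ν n).ord}` (with `Ordinal.ToType.toOrd`, see
`GuessK.lean` in `MP_162c54_lc` for its use).  `#(E n) ≤ #(Iio (ν n).ord) = ν n`.  Every `x ∈ D` is in
some `E n`: `α := typein _ (f x) < κ.ord`, `α.card < κ`, so `α.card < ν n`, `α < (ν n).ord`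
(`Cardinal.lt_ord`). -/
theorem exists_filtration {κ : Cardinal.{u}} (ν : ℕ → Cardinal.{u}) (hν : Monotone ν)
    (hν2 : ∀ c < κ, ∃ n, c < ν n) {X : Type u} (D : Set X) (hD : #D ≤ κ) :
    ∃ E : ℕ → Set X, (∀ n, E n ⊆ E (n + 1)) ∧ (∀ n, #(E n) ≤ ν n) ∧ D ⊆ ⋃ n, E n := by
  have h1 : #D ≤ #κ.ord.ToType := by
    rw [Cardinal.mk_ord_toType]
    exact hD
  obtain ⟨f⟩ := h1
  obtain ⟨g, hg⟩ : ∃ g : D → Ordinal.{u}, ∀ x, g x = ((f x).toOrd : Ordinal.{u}) :=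
    ⟨_, fun _ => rfl⟩
  have hginj : Function.Injective g := by
    intro x y hxy
    rw [hg, hg] at hxy
    apply f.injective
    exact Ordinal.ToType.mk.symm.injective (Subtype.ext hxy)
  have hgκ : ∀ x, g x < κ.ord := by
    intro x
    rw [hg]
    exact (f x).toOrd.2
  refine ⟨fun n => {x | ∃ h : x ∈ D, g ⟨x, h⟩ < (ν n).ord}, ?_, ?_, ?_⟩
  · rintro n x ⟨h, hx⟩
    exact ⟨h, hx.trans_le (Cardinal.ord_le_ord.mpr (hν (Nat.le_succ n)))⟩
  · intro n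
    have h2 : Function.Injective (fun x : {x | ∃ h : x ∈ D, g ⟨x, h⟩ < (ν n).ord} =>
        (⟨g ⟨x.1, x.2.1⟩, x.2.2⟩ : Set.Iio (ν n).ord)) := by
      intro x y hxy
      have h3 : g ⟨x.1, x.2.1⟩ = g ⟨y.1, y.2.1⟩ := congrArg Subtype.val hxy
      have h4 := hginj h3
      have h5 := congrArg (fun z : D => (z : X)) h4
      exact Subtype.ext h5
    have h3 := Cardinal.lift_mk_le_lift_mk_of_injective h2
    rw [Cardinal.mk_Iio_ordinal, Cardinal.card_ord, Cardinal.lift_lift] at h3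
    exact Cardinal.lift_le.mp h3
  · intro x hx
    have h2 : (g ⟨x, hx⟩).card < κ := Cardinal.lt_ord.mp (hgκ ⟨x, hx⟩)
    obtain ⟨n, hn⟩ := hν2 _ h2
    exact Set.mem_iUnion.mpr ⟨n, hx, Cardinal.lt_ord.mpr hn⟩

end Pool.Agent.UNA
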