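import Pool.Agent.MP_162c54_lc.Main
import Pool.Agent.MP_162c54_lc.RegularPow

/-! Universal nuclear C*-algebras above a strongly compact cardinal: definitions. -/

set_option autoImplicit false
open scoped ComplexOrder
open Cardinal Filter

namespace Pool.Agent.UNA

open Pool.Agent.MP_162c54_lc (IsNuclear IsLocallyFinDim ExistsUniversalNuclear
  NoNuclearContainsAll KK)

universe u

/-- There is a countably complete ultrafilter on the subsets of `I` which is fine (every `i` lies in
almost every subset) and lives on the subsets of size less than `χ`. -/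
def HasFine (χ : Cardinal.{u}) (I : Type u) : Prop :=
  ∃ U : Ultrafilter (Set I), CountableInterFilter (U : Filter (Set I)) ∧
    (∀ i : I, ∀ᶠ s in (U : Filter (Set I)), i ∈ s) ∧ ∀ᶠ s : Set I in (U : Filter (Set I)), #s < χ

/-- a countably complete ultrafilter -/
structure SU (J : Type u) where
  /-- the ultrafilter -/
  U : Ultrafilter J
  cc : CountableInterFilter (U : Filter J)

/-- the filter of a countably complete ultrafilter -/
abbrev SU.F {J : Type u} (U : SU J) : Filter J := (U.U : Filter J)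

instance {J : Type u} (U : SU J) : CountableInterFilter (U.U : Filter J) := U.cc

/-- Fineness and smallness. -/
structure SU.Fine {I : Type u} (U : SU (Set I)) (χ : Cardinal.{u}) : Prop where
  fine : ∀ i : I, ∀ᶠ s in U.F, i ∈ s
  small : ∀ᶠ s : Set I in U.F, #s < χ

section cp

variable {A : Type*} [NonUnitalCStarAlgebra A] {J : Type*} [Fintype J] [DecidableEq J]

/-- completely positive contraction into matrices, in the form used by `IsNuclear` -/
structure CPC1 (φ : A →ₗ[ℂ] Matrix J J ℂ) : Prop where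
  pos : ∀ (m : ℕ) (x : Fin m → A),
    (Matrix.of (fun p q : Fin m × J => φ (star (x p.1) * x q.1) p.2 q.2)).PosSemidef
  contr : ∀ a : A, ‖a‖ ≤ 1 → (1 - star (φ a) * φ a).PosSemidef

/-- completely positive contraction from matrices, in the form used by `IsNuclear` -/
structure CPC2 (ψ : Matrix J J ℂ →ₗ[ℂ] A) : Prop where
  pos : ∀ (m : ℕ) (Y : Fin m → Matrix J J ℂ) (y : Fin m → A),
    ∃ s : A, ∑ i, ∑ j, star (y i) * ψ (star (Y i) * Y j) * y j = star s * s
  contr : ∀ M : Matrix J J ℂ, (1 - star M * M).PosSemidef → ‖ψ M‖ ≤ 1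

end cp

theorem isNuclear_iff (A : Type*) [NonUnitalCStarAlgebra A] :
    IsNuclear A ↔ ∀ (F : Finset A) (ε : ℝ), 0 < ε → ∃ (n : ℕ)
      (φ : A →ₗ[ℂ] Matrix (Fin n) (Fin n) ℂ) (ψ : Matrix (Fin n) (Fin n) ℂ →ₗ[ℂ] A),
      CPC1 φ ∧ CPC2 ψ ∧ ∀ a ∈ F, ‖ψ (φ a) - a‖ < ε := by
  constructor
  · intro h F ε hε
    obtain ⟨n, φ, ψ, h1, h2, h3, h4, h5⟩ := h F ε hε
    exact ⟨n, φ, ψ, ⟨h1, h3⟩, ⟨h2, h4⟩, h5⟩
  · intro h F ε hε
    obtain ⟨n, φ, ψ, h1, h2, h5⟩ := h F ε hε
    exact ⟨n, φ, ψ, h1.1, h2.1, h1.2, h2.2, h5⟩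

/-- `B` is `χ`-existentially closed over `A` along `j`: every subset of `B` with less than `χ`
elements has a partial *-embedding into `A` which is the identity on `A`. -/
def ECmap (χ : Cardinal.{u}) {A B : Type u} [NonUnitalCStarAlgebra A] [NonUnitalCStarAlgebra B]
    (j : A →⋆ₙₐ[ℂ] B) : Prop :=
  ∀ t : Set B, #t < χ → ∃ g : B → A,
    (∀ a, j a ∈ t → g (j a) = a) ∧
    (∀ x ∈ t, ∀ y ∈ t, g x = g y → x = y) ∧
    (∀ x ∈ t, ∀ y ∈ t, x + y ∈ t → g (x + y) = g x + g y) ∧
    (∀ x ∈ t, ∀ y ∈ t, x * y ∈ t → g (x * y) = g x * g y) ∧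
    (∀ x ∈ t, star x ∈ t → g (star x) = star (g x)) ∧
    ∀ (c : ℂ), ∀ x ∈ t, c • x ∈ t → g (c • x) = c • g x

/-- A subset `S` of `N` is `χ`-existentially closed: every subset of `N` with less than `χ` elements
has a partial *-embedding into `S` which fixes the elements of `S`. -/
def ECset (χ : Cardinal.{u}) {N : Type u} [NonUnitalCStarAlgebra N] (S : Set N) : Prop :=
  ∀ t : Set N, #t < χ → ∃ g : N → N,
    (∀ x ∈ t, g x ∈ S) ∧ (∀ x ∈ t, x ∈ S → g x = x) ∧
    (∀ x ∈ t, ∀ y ∈ t, g x = g y → x = y) ∧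
    (∀ x ∈ t, ∀ y ∈ t, x + y ∈ t → g (x + y) = g x + g y) ∧
    (∀ x ∈ t, ∀ y ∈ t, x * y ∈ t → g (x * y) = g x * g y) ∧
    (∀ x ∈ t, star x ∈ t → g (star x) = star (g x)) ∧
    ∀ (c : ℂ), ∀ x ∈ t, c • x ∈ t → g (c • x) = c • g x

/-- The relations between the members of a family of elements of a C*-algebra. -/
abbrev Rel (X : Type u) : Type u :=
  (X → X → X → Prop) × (X → X → X → Prop) × (X → X → Prop) × (ℂ → X → X → Prop) ×
    (X → X → Prop)

/-- The relations between the members of a family of elements of a C*-algebra. -/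
def rel {X : Type u} {A : Type*} [NonUnitalCStarAlgebra A] (v : X → A) : Rel X :=
  (fun i j k => v i + v j = v k, fun i j k => v i * v j = v k, fun i j => star (v i) = v j,
    fun c i j => c • v i = v j, fun i j => v i = v j)

/-- the closed *-subalgebras of `N` -/
structure CSub (N : Type u) [NonUnitalCStarAlgebra N] where
  S : NonUnitalStarSubalgebra ℂ N
  cl : IsClosed (S : Set N)

namespace CSub

variable {N : Type u} [NonUnitalCStarAlgebra N]

/-- the underlying type -/
def T (S : CSub N) : Type u := S.S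

noncomputable instance (S : CSub N) : NonUnitalCStarAlgebra S.T :=
  NonUnitalStarSubalgebra.nonUnitalCStarAlgebra S.S (h_closed := S.cl)

/-- the underlying element -/
def val {S : CSub N} (x : S.T) : N := Subtype.val x

lemma val_mem {S : CSub N} (x : S.T) : val x ∈ S.S := Subtype.property x

/-- constructor -/
def mk' (S : CSub N) (x : N) (hx : x ∈ S.S) : S.T := ⟨x, hx⟩

@[simp] lemma val_mk' (S : CSub N) (x : N) (hx : x ∈ S.S) : val (S.mk' x hx) = x := rfl

lemma val_inj {S : CSub N} {x y : S.T} (h : val x = val y) : x = y := Subtype.ext h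

@[simp] lemma val_add {S : CSub N} (x y : S.T) : val (x + y) = val x + val y := rfl
@[simp] lemma val_mul {S : CSub N} (x y : S.T) : val (x * y) = val x * val y := rfl
@[simp] lemma val_star {S : CSub N} (x : S.T) : val (star x) = star (val x) := rfl
@[simp] lemma val_smul {S : CSub N} (c : ℂ) (x : S.T) : val (c • x) = c • val x := rfl
@[simp] lemma val_zero {S : CSub N} : val (0 : S.T) = 0 := rfl
@[simp] lemma norm_val {S : CSub N} (x : S.T) : ‖val x‖ = ‖x‖ := rfl

/-- the inclusion -/
noncomputable def incl (S : CSub N) : S.T →⋆ₙₐ[ℂ] N where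
  toFun := val
  map_smul' _ _ := rfl
  map_zero' := rfl
  map_add' _ _ := rfl
  map_mul' _ _ := rfl
  map_star' _ := rfl

lemma incl_apply (S : CSub N) (x : S.T) : S.incl x = val x := rfl

lemma incl_inj (S : CSub N) : Function.Injective S.incl := fun _ _ h => val_inj h

/-- the inclusion between two closed *-subalgebras -/
noncomputable def inclu {S S' : CSub N} (h : (S.S : Set N) ⊆ S'.S) : S.T →⋆ₙₐ[ℂ] S'.T where
  toFun x := S'.mk' (val x) (h (val_mem x))
  map_smul' _ _ := rfl
  map_zero' := rfl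
  map_add' _ _ := rfl
  map_mul' _ _ := rfl
  map_star' _ := rfl

@[simp] lemma val_inclu {S S' : CSub N} (h : (S.S : Set N) ⊆ S'.S) (x : S.T) :
    val (inclu h x) = val x := rfl

end CSub

end Pool.Agent.UNA
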