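import Mathlib

set_option autoImplicit false
open Filter Topology

namespace Pool.Agent.UNA

universe u

section d1

open UniformSpace UniformSpace.Completion Function

variable (P : Type u) [NonUnitalSeminormedRing P]

noncomputable local instance d1_mul : Mul (Completion P) :=
  ⟨curry <| (isDenseInducing_coe.prodMap isDenseInducing_coe).extend ((↑) ∘ uncurry (· * ·))⟩

theorem d1_coe_mul (a b : P) : ((a * b : P) : Completion P) = a * b :=
  ((isDenseInducing_coe.prodMap isDenseInducing_coe).extend_eq
      ((continuous_coe P).comp (@continuous_mul P _ _ _)) (a, b)).symm

local instance d1_cmul : ContinuousMul (Completion P) where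
  continuous_mul := by
    let m := (AddMonoidHom.mul : P →+ P →+ P).compr₂ toCompl
    have : Continuous fun p : P × P => m p.1 p.2 := (continuous_coe P).comp continuous_mul
    have di : IsDenseInducing (toCompl : P → Completion P) := isDenseInducing_coe
    exact (di.extend_Z_bilin di this :)

noncomputable local instance d1_ring : NonUnitalRing (Completion P) :=
  { (inferInstance : AddCommGroup (Completion P)), (inferInstance : Mul (Completion P)) with
    zero_mul := fun a =>
      Completion.induction_on a (isClosed_eq (by fun_prop) continuous_const)
        fun a => by rw [← coe_zero, ← d1_coe_mul, zero_mul]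
    mul_zero := fun a =>
      Completion.induction_on a (isClosed_eq (by fun_prop) continuous_const)
        fun a ↦ by rw [← coe_zero, ← d1_coe_mul, mul_zero]
    mul_assoc := fun a b c =>
      Completion.induction_on₃ a b c
        (isClosed_eq (by fun_prop) (by fun_prop))
        fun a b c => by rw [← d1_coe_mul, ← d1_coe_mul, ← d1_coe_mul, ← d1_coe_mul, mul_assoc]
    left_distrib := fun a b c =>
      Completion.induction_on₃ a b c
        (isClosed_eq (by fun_prop) (by fun_prop))
        fun a b c => by
          rw [← coe_add, ← d1_coe_mul, ← d1_coe_mul, ← d1_coe_mul, ← coe_add, mul_add]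
    right_distrib := fun a b c =>
      Completion.induction_on₃ a b c
        (isClosed_eq (by fun_prop) (by fun_prop))
        fun a b c => by
          rw [← coe_add, ← d1_coe_mul, ← d1_coe_mul, ← d1_coe_mul, ← coe_add, add_mul] }

noncomputable local instance d1_nring : NonUnitalNormedRing (Completion P) :=
  { (inferInstance : NormedAddCommGroup (Completion P)), d1_ring P with
    norm_mul_le := fun x y => by
      induction x, y using induction_on₂ with
      | hp => apply isClosed_le <;> fun_prop
      | ih x y => simpa only [← d1_coe_mul, norm_coe] using norm_mul_le x y }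

variable [StarRing P] [NormedStarGroup P]

noncomputable local instance d1_star : Star (Completion P) := ⟨Completion.map star⟩

theorem d1_uc : UniformContinuous (star : P → P) := star_isometry.uniformContinuous

theorem d1_coe_star (a : P) : ((star a : P) : Completion P) = star (a : Completion P) :=
  (Completion.map_coe (d1_uc P) a).symm

theorem d1_cont_star : Continuous (star : Completion P → Completion P) :=
  Completion.continuous_map

noncomputable local instance d1_sring : StarRing (Completion P) where
  star_involutive := fun a =>
    Completion.induction_on a
      (isClosed_eq ((d1_cont_star P).comp (d1_cont_star P)) continuous_id)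
      fun a => by rw [← d1_coe_star, ← d1_coe_star, star_star]
  star_mul := fun a b =>
    Completion.induction_on₂ a b
      (isClosed_eq ((d1_cont_star P).comp continuous_mul)
        (((d1_cont_star P).comp continuous_snd).mul ((d1_cont_star P).comp continuous_fst)))
      fun a b => by
        rw [← d1_coe_mul, ← d1_coe_star, ← d1_coe_star, ← d1_coe_star, ← d1_coe_mul, star_mul]
  star_add := fun a b =>
    Completion.induction_on₂ a b
      (isClosed_eq ((d1_cont_star P).comp continuous_add)
        (((d1_cont_star P).comp continuous_fst).add ((d1_cont_star P).comp continuous_snd)))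
      fun a b => by
        rw [← coe_add, ← d1_coe_star, ← d1_coe_star, ← d1_coe_star, ← coe_add, star_add]

variable [NormedSpace ℂ P] [IsScalarTower ℂ P P] [SMulCommClass ℂ P P] [StarModule ℂ P]

/-- the C*-algebra -/
@[reducible] noncomputable def d1_cstar (hC : ∀ x : P, ‖star x * x‖ = ‖x‖ * ‖x‖) :
    NonUnitalCStarAlgebra (Completion P) :=
  { d1_nring P, d1_sring P, (inferInstance : CompleteSpace (Completion P)),
    (inferInstance : NormedSpace ℂ (Completion P)) with
    norm_mul_self_le := fun a =>
      Completion.induction_on a
        (isClosed_le (continuous_norm.mul continuous_norm)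
          (continuous_norm.comp ((d1_cont_star P).mul continuous_id)))
        fun a => by
          rw [← d1_coe_star, ← d1_coe_mul, norm_coe, norm_coe, hC]
    smul_assoc := fun c a b =>
      Completion.induction_on₂ a b
        (isClosed_eq (by fun_prop) (by fun_prop))
        fun a b => by
          show (c • (a : Completion P)) * (b : Completion P) = c • ((a : Completion P) * b)
          rw [← coe_smul, ← d1_coe_mul, ← d1_coe_mul, ← coe_smul, smul_mul_assoc]
    smul_comm := fun c a b =>
      Completion.induction_on₂ a b
        (isClosed_eq (by fun_prop) (by fun_prop))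
        fun a b => by
          show c • ((a : Completion P) * (b : Completion P)) = (a : Completion P) * (c • b)
          rw [← coe_smul, ← d1_coe_mul, ← d1_coe_mul, ← coe_smul, mul_smul_comm]
    star_smul := fun c a =>
      Completion.induction_on a
        (isClosed_eq ((d1_cont_star P).comp (continuous_const_smul c))
          ((continuous_const_smul (star c)).comp (d1_cont_star P)))
        fun a => by
          rw [← coe_smul, ← d1_coe_star, ← d1_coe_star, ← coe_smul, star_smul] }

end d1

/-- Completion of a *-algebra with a C*-seminorm.

Proof. `L := UniformSpace.Completion P` (complete normed space over `ℂ`, instances in Mathlib).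
Multiplication: `(isDenseInducing_coe.prodMap isDenseInducing_coe).extend ((↑) ∘ uncurry (· * ·))` as
in `Mathlib/Topology/Algebra/UniformRing.lean` (there for unital rings; copy `mul`, `coe_mul`,
`ContinuousMul` (via `IsDenseInducing.extend_Z_bilin` with `AddMonoidHom.mul`), and the ring axioms by
`Completion.induction_on` and closedness; drop everything about `1`).  Star: `Completion.map star`
(`star` is an isometry: `‖x‖ ^ 2 = ‖star x * x‖ ≤ ‖star x‖ * ‖x‖`, so `‖x‖ ≤ ‖star x‖`, and conversely;
`Isometry.uniformContinuous`), `coe_star`, star axioms by `induction_on`.  `norm_mul_le`, the C*-identity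
(`‖star x * x‖ = ‖x‖ * ‖x‖`), `IsScalarTower`, `SMulCommClass`, `StarModule`: by `induction_on` and
closedness (`isClosed_le`, `isClosed_eq`, `fun_prop`, `continuous_star` from the isometry).
`k := (↑)`, `Completion.norm_coe`, `Completion.denseRange_coe`. -/
theorem exists_completion (P : Type u) [NonUnitalSeminormedRing P] [StarRing P]
    [NormedSpace ℂ P] [IsScalarTower ℂ P P] [SMulCommClass ℂ P P] [StarModule ℂ P]
    (hC : ∀ x : P, ‖star x * x‖ = ‖x‖ * ‖x‖) :
    ∃ (L : Type u) (_ : NonUnitalCStarAlgebra L) (k : P →⋆ₙₐ[ℂ] L),
      (∀ x, ‖k x‖ = ‖x‖) ∧ DenseRange k := by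
  have h1 : ∀ x : P, ‖x‖ ≤ ‖star x‖ := by
    intro x
    rcases (norm_nonneg x).eq_or_lt with h0 | h0
    · rw [← h0]; exact norm_nonneg _
    · have h2 := norm_mul_le (star x) x
      rw [hC] at h2
      exact le_of_mul_le_mul_right h2 h0
  haveI : NormedStarGroup P := ⟨fun x => by
    have := h1 (star x)
    rwa [star_star] at this⟩
  letI := d1_cstar P hC
  refine ⟨UniformSpace.Completion P, d1_cstar P hC,
    { toFun := fun x => (x : UniformSpace.Completion P)
      map_smul' := fun c x => UniformSpace.Completion.coe_smul c x
      map_zero' := UniformSpace.Completion.coe_zero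
      map_add' := fun x y => UniformSpace.Completion.coe_add x y
      map_mul' := fun x y => d1_coe_mul P x y
      map_star' := fun x => d1_coe_star P x }, fun x => UniformSpace.Completion.norm_coe x,
    UniformSpace.Completion.denseRange_coe⟩

end Pool.Agent.UNA
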