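import Pool.Agent.UNA.D0

/-! The set-theoretic ultrapower of a C*-algebra by a countably complete ultrafilter. -/

set_option autoImplicit false
open scoped ComplexOrder
open Cardinal Filter

namespace Pool.Agent.UNA

universe u

/-- every function into a second countable space is constant almost everywhere -/
lemma ev_const {J : Type u} (U : SU J) {X : Type*} [TopologicalSpace X]
    [SecondCountableTopology X] [T0Space X] [Nonempty X] (f : J → X) : ∃ a, ∀ᶠ j in U.F, f j = a := by
  obtain ⟨a, ha⟩ := Filter.exists_eventuallyEq_const_of_forall_separating (l := U.F) (f := f)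
    (fun s : Set X => IsOpen s) (fun s _ => by
      have := U.U.eventually_or (p := fun j => f j ∈ s) (q := fun j => f j ∉ s)
      exact this.1 (Filter.Eventually.of_forall fun j => em _))
  exact ⟨a, ha⟩

/-- the ultrapower -/
def UP {J : Type u} (U : SU J) (M : Type u) : Type u := Germ U.F M

namespace UP

variable {J : Type u} {U : SU J} {M : Type u}

/-- the class of a function -/
def mk (U : SU J) (f : J → M) : UP U M := (f : Germ U.F M)

lemma ind {p : UP U M → Prop} (h : ∀ f, p (mk U f)) (x : UP U M) : p x :=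
  Germ.inductionOn x h

lemma mk_surj (x : UP U M) : ∃ f, mk U f = x := ind (p := fun x => ∃ f, mk U f = x)
  (fun f => ⟨f, rfl⟩) x

lemma mk_eq {f g : J → M} : mk U f = mk U g ↔ ∀ᶠ j in U.F, f j = g j := Germ.coe_eq

variable [NonUnitalCStarAlgebra M]

noncomputable instance : NonUnitalRing (UP U M) := inferInstanceAs (NonUnitalRing (Germ U.F M))

noncomputable instance : Module ℂ (UP U M) := inferInstanceAs (Module ℂ (Germ U.F M))

noncomputable instance : Star (UP U M) := ⟨fun x => Germ.map (fun m : M => star m) x⟩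

lemma mk_add (f g : J → M) : mk U f + mk U g = mk U (fun j => f j + g j) := rfl
lemma mk_sub (f g : J → M) : mk U f - mk U g = mk U (fun j => f j - g j) := rfl
lemma mk_neg (f : J → M) : - mk U f = mk U (fun j => - f j) := rfl
lemma mk_mul (f g : J → M) : mk U f * mk U g = mk U (fun j => f j * g j) := rfl
lemma mk_smul (c : ℂ) (f : J → M) : c • mk U f = mk U (fun j => c • f j) := rfl
lemma mk_star (f : J → M) : star (mk U f) = mk U (fun j => star (f j)) := rfl
lemma mk_zero : (0 : UP U M) = mk U (fun _ => 0) := rfl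

noncomputable instance : StarRing (UP U M) where
  star_involutive := fun x => by
    refine ind (p := fun x : UP U M => star (star x) = x) (fun f => ?_) x
    rw [mk_star, mk_star]
    simp only [star_star]
  star_mul := fun x y => by
    obtain ⟨f, rfl⟩ := mk_surj x
    obtain ⟨g, rfl⟩ := mk_surj y
    rw [mk_mul, mk_star, mk_star, mk_star, mk_mul]
    simp only [star_mul]
  star_add := fun x y => by
    obtain ⟨f, rfl⟩ := mk_surj x
    obtain ⟨g, rfl⟩ := mk_surj y
    rw [mk_add, mk_star, mk_star, mk_star, mk_add]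
    simp only [star_add]

lemma exists_nrm (x : UP U M) : ∃ r : ℝ, ∀ f, mk U f = x → ∀ᶠ j in U.F, ‖f j‖ = r := by
  obtain ⟨f, rfl⟩ := mk_surj x
  obtain ⟨r, hr⟩ := ev_const U (fun j => ‖f j‖)
  refine ⟨r, fun g hg => ?_⟩
  filter_upwards [mk_eq.1 hg, hr] with j h1 h2
  rw [h1, h2]

noncomputable instance : Norm (UP U M) := ⟨fun x => (exists_nrm x).choose⟩

lemma norm_mk (f : J → M) : ∀ᶠ j in U.F, ‖f j‖ = ‖mk U f‖ :=
  (exists_nrm (mk U f)).choose_spec f rfl

lemma norm_eq_iff {f : J → M} {r : ℝ} : ‖mk U f‖ = r ↔ ∀ᶠ j in U.F, ‖f j‖ = r := by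
  constructor
  · intro h
    rw [← h]
    exact norm_mk f
  · intro h
    obtain ⟨j, h1, h2⟩ := ((norm_mk f).and h).exists
    rw [← h1, h2]

/-- the group norm -/
noncomputable def gn : AddGroupNorm (UP U M) where
  toFun x := ‖x‖
  map_zero' := by
    rw [mk_zero, norm_eq_iff]
    exact Filter.Eventually.of_forall fun j => norm_zero
  add_le' x y := by
    obtain ⟨f, rfl⟩ := mk_surj x
    obtain ⟨g, rfl⟩ := mk_surj y
    rw [mk_add]
    obtain ⟨j, h1, h2, h3⟩ := ((norm_mk (U := U) (fun j => f j + g j)).and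
      ((norm_mk f).and (norm_mk g))).exists
    rw [← h1, ← h2, ← h3]
    exact norm_add_le _ _
  neg' x := by
    obtain ⟨f, rfl⟩ := mk_surj x
    rw [mk_neg, norm_eq_iff]
    filter_upwards [norm_mk f] with j hj
    rw [norm_neg, hj]
  eq_zero_of_map_eq_zero' x hx := by
    obtain ⟨f, rfl⟩ := mk_surj x
    rw [mk_zero, mk_eq]
    filter_upwards [norm_eq_iff.1 hx] with j hj
    exact norm_eq_zero.1 hj

noncomputable instance instNACG : NormedAddCommGroup (UP U M) := gn.toNormedAddCommGroup

noncomputable instance instNURing : NonUnitalNormedRing (UP U M) where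
  __ := (inferInstance : NormedAddCommGroup (UP U M))
  __ := (inferInstance : NonUnitalRing (UP U M))
  norm_mul_le x y := by
    obtain ⟨f, rfl⟩ := mk_surj x
    obtain ⟨g, rfl⟩ := mk_surj y
    rw [mk_mul]
    obtain ⟨j, h1, h2, h3⟩ := ((norm_mk (U := U) (fun j => f j * g j)).and
      ((norm_mk f).and (norm_mk g))).exists
    have h4 := norm_mul_le (f j) (g j)
    rw [h1, h2, h3] at h4
    exact h4

lemma dist_mk (f g : J → M) : ∀ᶠ j in U.F, dist (f j) (g j) = dist (mk U f) (mk U g) := by
  have h : dist (mk U f) (mk U g) = ‖mk U f - mk U g‖ := dist_eq_norm _ _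
  rw [h, mk_sub]
  filter_upwards [norm_mk (U := U) (fun j => f j - g j)] with j hj
  rw [dist_eq_norm, hj]

instance : CompleteSpace (UP U M) := by
  refine Metric.complete_of_cauchySeq_tendsto fun x hx => ?_
  choose f hf using fun n => mk_surj (x n)
  have h1 : ∀ᶠ j in U.F, ∀ n m, dist (f n j) (f m j) = dist (x n) (x m) := by
    rw [eventually_countable_forall]
    intro n
    rw [eventually_countable_forall]
    intro m
    rw [← hf n, ← hf m]
    exact dist_mk _ _
  have h2 : ∀ j, (∀ n m, dist (f n j) (f m j) = dist (x n) (x m)) →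
      ∃ y, Tendsto (fun n => f n j) atTop (nhds y) := by
    intro j hj
    refine cauchySeq_tendsto_of_complete ?_
    rw [Metric.cauchySeq_iff] at hx ⊢
    intro ε hε
    obtain ⟨N, hN⟩ := hx ε hε
    exact ⟨N, fun m hm n hn => by rw [hj]; exact hN m hm n hn⟩
  choose! y hy using h2
  refine ⟨mk U y, ?_⟩
  rw [Metric.tendsto_atTop]
  intro ε hε
  rw [Metric.cauchySeq_iff] at hx
  obtain ⟨N, hN⟩ := hx (ε / 2) (half_pos hε)
  refine ⟨N, fun n hn => ?_⟩
  obtain ⟨j, hj1, hj2⟩ := (h1.and (dist_mk (U := U) (f n) y)).exists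
  rw [← hf n, ← hj2]
  have h3 : Tendsto (fun m => dist (f n j) (f m j)) atTop (nhds (dist (f n j) (y j))) :=
    tendsto_const_nhds.dist (hy j hj1)
  refine lt_of_le_of_lt (le_of_tendsto h3 ?_) (half_lt_self hε)
  filter_upwards [eventually_ge_atTop N] with m hm
  rw [hj1]
  exact (hN n hn m hm).le

instance : CStarRing (UP U M) where
  norm_mul_self_le x := by
    obtain ⟨f, rfl⟩ := mk_surj x
    rw [mk_star, mk_mul]
    obtain ⟨j, h1, h2⟩ := ((norm_mk (U := U) (fun j => star (f j) * f j)).and
      (norm_mk f)).exists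
    have h4 := CStarRing.norm_mul_self_le (f j)
    rw [h1, h2] at h4
    exact h4

noncomputable instance : NormedSpace ℂ (UP U M) where
  norm_smul_le c x := by
    obtain ⟨f, rfl⟩ := mk_surj x
    rw [mk_smul]
    obtain ⟨j, h1, h2⟩ := ((norm_mk (U := U) (fun j => c • f j)).and (norm_mk f)).exists
    have h4 := norm_smul_le c (f j)
    rw [h1, h2] at h4
    exact h4

instance : IsScalarTower ℂ (UP U M) (UP U M) where
  smul_assoc c x y := by
    obtain ⟨f, rfl⟩ := mk_surj x
    obtain ⟨g, rfl⟩ := mk_surj y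
    show (c • mk U f) * mk U g = c • (mk U f * mk U g)
    rw [mk_smul, mk_mul, mk_mul, mk_smul]
    simp only [smul_mul_assoc]

instance : SMulCommClass ℂ (UP U M) (UP U M) where
  smul_comm c x y := by
    obtain ⟨f, rfl⟩ := mk_surj x
    obtain ⟨g, rfl⟩ := mk_surj y
    show c • (mk U f * mk U g) = mk U f * (c • mk U g)
    rw [mk_smul, mk_mul, mk_mul, mk_smul]
    simp only [mul_smul_comm]

instance : StarModule ℂ (UP U M) where
  star_smul c x := by
    obtain ⟨f, rfl⟩ := mk_surj x
    rw [mk_smul, mk_star, mk_star, mk_smul]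
    simp only [star_smul]

noncomputable instance : NonUnitalCStarAlgebra (UP U M) where

/-- the diagonal embedding -/
noncomputable def const (U : SU J) : M →⋆ₙₐ[ℂ] UP U M where
  toFun m := mk U fun _ => m
  map_smul' _ _ := rfl
  map_zero' := rfl
  map_add' _ _ := rfl
  map_mul' _ _ := rfl
  map_star' _ := rfl

lemma const_apply (m : M) : const U m = mk U fun _ => m := rfl

lemma const_inj : Function.Injective (const U : M →⋆ₙₐ[ℂ] UP U M) := by
  intro a b h
  rw [const_apply, const_apply, mk_eq] at h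
  exact h.exists.choose_spec

end UP

/-- a bundled C*-algebra -/
structure CA : Type (u + 1) where
  T : Type u
  inst : NonUnitalCStarAlgebra T

instance (M : CA.{u}) : NonUnitalCStarAlgebra M.T := M.inst

/-- the ultrapower, bundled -/
noncomputable def CA.up (M : CA.{u}) {J : Type u} (U : SU J) : CA.{u} := ⟨UP U M.T, inferInstance⟩

/-- the iterated ultrapowers of `M` -/
noncomputable def iterUP (M : CA.{u}) {J : ℕ → Type u} (U : ∀ n, SU (J n)) : ℕ → CA.{u}
  | 0 => M
  | n + 1 => (iterUP M U n).up (U n)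

/-- the bonding maps -/
noncomputable def iterMap (M : CA.{u}) {J : ℕ → Type u} (U : ∀ n, SU (J n)) (n : ℕ) :
    (iterUP M U n).T →⋆ₙₐ[ℂ] (iterUP M U (n + 1)).T :=
  (UP.const (U n) : (iterUP M U n).T →⋆ₙₐ[ℂ] UP (U n) (iterUP M U n).T)

end Pool.Agent.UNA
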