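import Pool.Agent.UNA.D1
import Pool.Agent.UNA.U1

set_option autoImplicit false
open Filter Topology

namespace Pool.Agent.UNA

universe u

/-- `L` with the maps `k n` is the (completed) direct limit of the sequence `(M n, ι n)`. -/
structure IsLim (M : ℕ → CA.{u}) (ι : ∀ n, (M n).T →⋆ₙₐ[ℂ] (M (n + 1)).T) (L : Type u)
    [NonUnitalCStarAlgebra L] (k : ∀ n, (M n).T →⋆ₙₐ[ℂ] L) : Prop where
  inj : ∀ n, Function.Injective (k n)
  comp : ∀ n x, k (n + 1) (ι n x) = k n x
  dense : Dense (⋃ n, Set.range (k n))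

/-- the eventually coherent sequences -/
def D2P (M : ℕ → CA.{u}) (ι : ∀ n, (M n).T →⋆ₙₐ[ℂ] (M (n + 1)).T) :
    NonUnitalStarSubalgebra ℂ (∀ n, (M n).T) where
  carrier := {x | ∀ᶠ n in atTop, x (n + 1) = ι n (x n)}
  add_mem' := by
    intro a b ha hb
    change ∀ᶠ n in atTop, (a + b) (n + 1) = ι n ((a + b) n)
    filter_upwards [ha, hb] with n h1 h2
    rw [Pi.add_apply, Pi.add_apply, map_add, h1, h2]
  zero_mem' := by
    change ∀ᶠ n in atTop, (0 : ∀ n, (M n).T) (n + 1) = ι n ((0 : ∀ n, (M n).T) n)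
    refine Filter.Eventually.of_forall fun n => ?_
    rw [Pi.zero_apply, Pi.zero_apply, map_zero]
  mul_mem' := by
    intro a b ha hb
    change ∀ᶠ n in atTop, (a * b) (n + 1) = ι n ((a * b) n)
    filter_upwards [ha, hb] with n h1 h2
    rw [Pi.mul_apply, Pi.mul_apply, map_mul, h1, h2]
  smul_mem' := by
    intro c a ha
    change ∀ᶠ n in atTop, (c • a) (n + 1) = ι n ((c • a) n)
    filter_upwards [ha] with n h1
    rw [Pi.smul_apply, Pi.smul_apply, map_smul, h1]
  star_mem' := by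
    intro a ha
    change ∀ᶠ n in atTop, (star a) (n + 1) = ι n ((star a) n)
    filter_upwards [ha] with n h1
    rw [Pi.star_apply, Pi.star_apply, map_star, h1]

/-- the eventually coherent sequences, as a type with a seminorm -/
def D2S {M : ℕ → CA.{u}} (ι : ∀ n, (M n).T →⋆ₙₐ[ℂ] (M (n + 1)).T)
    (_ : ∀ n, Function.Injective (ι n)) : Type u := ↥(D2P M ι)

namespace D2S

variable {M : ℕ → CA.{u}} {ι : ∀ n, (M n).T →⋆ₙₐ[ℂ] (M (n + 1)).T}
  {hι : ∀ n, Function.Injective (ι n)}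

noncomputable instance : NonUnitalRing (D2S ι hι) := inferInstanceAs (NonUnitalRing ↥(D2P M ι))

noncomputable instance : Module ℂ (D2S ι hι) := inferInstanceAs (Module ℂ ↥(D2P M ι))

noncomputable instance : StarRing (D2S ι hι) := inferInstanceAs (StarRing ↥(D2P M ι))

instance : IsScalarTower ℂ (D2S ι hι) (D2S ι hι) :=
  inferInstanceAs (IsScalarTower ℂ ↥(D2P M ι) ↥(D2P M ι))

instance : SMulCommClass ℂ (D2S ι hι) (D2S ι hι) :=
  inferInstanceAs (SMulCommClass ℂ ↥(D2P M ι) ↥(D2P M ι))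

instance : StarModule ℂ (D2S ι hι) := inferInstanceAs (StarModule ℂ ↥(D2P M ι))

/-- the terms of a sequence -/
def vl (x : D2S ι hι) (n : ℕ) : (M n).T := x.1 n

lemma vl_coh (x : D2S ι hι) : ∀ᶠ n in atTop, vl x (n + 1) = ι n (vl x n) := x.2

lemma vl_add (x y : D2S ι hι) (n : ℕ) : vl (x + y) n = vl x n + vl y n := rfl
lemma vl_sub (x y : D2S ι hι) (n : ℕ) : vl (x - y) n = vl x n - vl y n := rfl
lemma vl_neg (x : D2S ι hι) (n : ℕ) : vl (-x) n = -vl x n := rfl
lemma vl_zero (n : ℕ) : vl (0 : D2S ι hι) n = 0 := rfl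
lemma vl_mul (x y : D2S ι hι) (n : ℕ) : vl (x * y) n = vl x n * vl y n := rfl
lemma vl_smul (c : ℂ) (x : D2S ι hι) (n : ℕ) : vl (c • x) n = c • vl x n := rfl
lemma vl_star (x : D2S ι hι) (n : ℕ) : vl (star x) n = star (vl x n) := rfl

lemma ext {x y : D2S ι hι} (h : ∀ n, vl x n = vl y n) : x = y :=
  Subtype.ext (funext h)

lemma exists_nrm (x : D2S ι hι) : ∃ r : ℝ, ∀ᶠ n in atTop, ‖vl x n‖ = r := by
  obtain ⟨N, hN⟩ := Filter.eventually_atTop.1 (vl_coh x)
  refine ⟨‖vl x N‖, Filter.eventually_atTop.2 ⟨N, fun n hn => ?_⟩⟩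
  induction n, hn using Nat.le_induction with
  | base => rfl
  | succ n hn ih =>
    rw [hN n hn, NonUnitalStarAlgHom.norm_map (ι n) (hι n), ih]

noncomputable instance : Norm (D2S ι hι) := ⟨fun x => (exists_nrm x).choose⟩

lemma norm_vl (x : D2S ι hι) : ∀ᶠ n in atTop, ‖vl x n‖ = ‖x‖ :=
  (exists_nrm x).choose_spec

lemma norm_eq {x : D2S ι hι} {r : ℝ} (h : ∀ᶠ n in atTop, ‖vl x n‖ = r) : ‖x‖ = r := by
  obtain ⟨j, h1, h2⟩ := ((norm_vl x).and h).exists
  rw [← h1, ← h2]

/-- the seminorm -/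
noncomputable def gs : AddGroupSeminorm (D2S ι hι) where
  toFun x := ‖x‖
  map_zero' := norm_eq (Filter.Eventually.of_forall fun n => by rw [vl_zero, norm_zero])
  add_le' x y := by
    obtain ⟨j, h1, h2, h3⟩ := ((norm_vl (x + y)).and ((norm_vl x).and (norm_vl y))).exists
    rw [← h1, ← h2, ← h3, vl_add]
    exact norm_add_le _ _
  neg' x := by
    refine norm_eq ?_
    filter_upwards [norm_vl x] with j hj
    rw [vl_neg, norm_neg, hj]

noncomputable instance instSNACG : SeminormedAddCommGroup (D2S ι hι) :=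
  gs.toSeminormedAddCommGroup

noncomputable instance instNURing : NonUnitalSeminormedRing (D2S ι hι) where
  __ := (inferInstance : SeminormedAddCommGroup (D2S ι hι))
  __ := (inferInstance : NonUnitalRing (D2S ι hι))
  norm_mul_le x y := by
    obtain ⟨j, h1, h2, h3⟩ := ((norm_vl (x * y)).and ((norm_vl x).and (norm_vl y))).exists
    have h4 := norm_mul_le (vl x j) (vl y j)
    rw [← vl_mul, h1, h2, h3] at h4
    exact h4

noncomputable instance : NormedSpace ℂ (D2S ι hι) where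
  norm_smul_le c x := by
    obtain ⟨j, h1, h2⟩ := ((norm_vl (c • x)).and (norm_vl x)).exists
    have h4 := norm_smul_le c (vl x j)
    rw [← vl_smul, h1, h2] at h4
    exact h4

lemma cstar (x : D2S ι hι) : ‖star x * x‖ = ‖x‖ * ‖x‖ := by
  refine norm_eq ?_
  filter_upwards [norm_vl x] with j hj
  rw [vl_mul, vl_star, CStarRing.norm_star_mul_self, hj]

lemma norm_sub_eq_zero {x y : D2S ι hι} (h : ∀ᶠ n in atTop, vl x n = vl y n) : ‖x - y‖ = 0 := by
  refine norm_eq ?_
  filter_upwards [h] with j hj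
  rw [vl_sub, hj, sub_self, norm_zero]

end D2S

section

variable {M : ℕ → CA.{u}} (ι : ∀ n, (M n).T →⋆ₙₐ[ℂ] (M (n + 1)).T)

/-- the maps `M m → M n`, zero for `n < m` -/
noncomputable def D2e (m : ℕ) : ∀ n, (M m).T →⋆ₙₐ[ℂ] (M n).T
  | 0 => if h : m = 0 then h ▸ NonUnitalStarAlgHom.id ℂ (M m).T else 0
  | n + 1 => if h : m = n + 1 then h ▸ NonUnitalStarAlgHom.id ℂ (M m).T else
      (ι n).comp (D2e m n)

lemma D2e_self (m : ℕ) (x : (M m).T) : D2e ι m m x = x := by
  cases m with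
  | zero => simp [D2e]
  | succ m => simp [D2e]

lemma D2e_succ {m n : ℕ} (h : m ≤ n) (x : (M m).T) :
    D2e ι m (n + 1) x = ι n (D2e ι m n x) := by
  have h1 : ¬ m = n + 1 := by omega
  rw [D2e, dif_neg h1]
  rfl

lemma D2e_norm (hι : ∀ n, Function.Injective (ι n)) {m n : ℕ} (h : m ≤ n) (x : (M m).T) :
    ‖D2e ι m n x‖ = ‖x‖ := by
  induction n, h using Nat.le_induction with
  | base => rw [D2e_self]
  | succ n hn ih => rw [D2e_succ ι hn, NonUnitalStarAlgHom.norm_map (ι n) (hι n), ih]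

lemma D2e_comp {m n : ℕ} (h : m + 1 ≤ n) (x : (M m).T) :
    D2e ι (m + 1) n (ι m x) = D2e ι m n x := by
  induction n, h using Nat.le_induction with
  | base => rw [D2e_self, D2e_succ ι le_rfl, D2e_self]
  | succ n hn ih => rw [D2e_succ ι hn, D2e_succ ι (by omega), ih]

/-- the embedding of `M m` in the coherent sequences -/
noncomputable def D2E (hι : ∀ n, Function.Injective (ι n)) (m : ℕ) :
    (M m).T →⋆ₙₐ[ℂ] D2S ι hι where
  toFun x := ⟨fun n => D2e ι m n x, Filter.eventually_atTop.2 ⟨m, fun _ hn => D2e_succ ι hn x⟩⟩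
  map_smul' c x := D2S.ext fun n => map_smul (D2e ι m n) c x
  map_zero' := D2S.ext fun n => map_zero (D2e ι m n)
  map_add' x y := D2S.ext fun n => map_add (D2e ι m n) x y
  map_mul' x y := D2S.ext fun n => map_mul (D2e ι m n) x y
  map_star' x := D2S.ext fun n => map_star (D2e ι m n) x

lemma D2E_vl (hι : ∀ n, Function.Injective (ι n)) (m : ℕ) (x : (M m).T) (n : ℕ) :
    D2S.vl (D2E ι hι m x) n = D2e ι m n x := rfl

lemma D2E_norm (hι : ∀ n, Function.Injective (ι n)) (m : ℕ) (x : (M m).T) :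
    ‖D2E ι hι m x‖ = ‖x‖ := by
  refine D2S.norm_eq ?_
  filter_upwards [Filter.eventually_ge_atTop m] with n hn
  rw [D2E_vl, D2e_norm ι hι hn]

end

/-- Existence of direct limits of sequences of injective *-homomorphisms.

Proof. `Π := ∀ n, (M n).T` is a non-unital star ring and a `ℂ`-module.  `P₀ : NonUnitalStarSubalgebra ℂ Π`
:= the sequences `x` with `∃ N, ∀ n ≥ N, x (n + 1) = ι n (x n)`.  For `x ∈ P₀` the sequence `‖x n‖` is
eventually constant (`ι n` is isometric: `NonUnitalStarAlgHom.norm_map (ι n) (hι n)`), so define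
`‖x‖ := limUnder atTop (fun n => ‖x n‖)` (or the chosen `r` with `∀ᶠ n in atTop, ‖x n‖ = r`, as `exists_nrm` in
`U1.lean`).  It is a seminorm, submultiplicative, C*: evaluate at one large `n`
(`Eventually.exists`).  So `P₀` (a type synonym `def`) is a `NonUnitalSeminormedRing`
(`AddGroupSeminorm.toSeminormedAddCommGroup`, compare `UP.gn` in `U1.lean`), and
`exists_completion` applies: `L`, `k₀ : P₀ → L`.  `k m x := k₀ (e m x)` with
`e m x := ` the sequence which is `0` for `n < m`, `x` at `m`, and `ι`-coherent afterwards.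
Define `e m x n` by recursion on `n`: `e m x 0 = if h : m = 0 then h ▸ x else 0` and
`e m x (n + 1) = if h : m = n + 1 then h ▸ x else ι n (e m x n)` (for `n + 1 < m` it is `ι n 0 = 0`).
Additivity etc. by induction on `n`.  `e (m + 1) (ι m x)` and `e m x` agree for `n ≥ m + 1`
(induction), so the difference has seminorm `0` and `k (m + 1) (ι m x) = k m x`.  Isometric:
`‖e m x n‖ = ‖x‖` for `n ≥ m`.  Dense: for `x ∈ P₀`, coherent from `N` on, `x` and `e N (x N)` agree for
`n ≥ N`, so `range k₀ ⊆ ⋃ range (k n)`. -/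
theorem exists_limit (M : ℕ → CA.{u}) (ι : ∀ n, (M n).T →⋆ₙₐ[ℂ] (M (n + 1)).T)
    (hι : ∀ n, Function.Injective (ι n)) :
    ∃ (L : Type u) (_ : NonUnitalCStarAlgebra L) (k : ∀ n, (M n).T →⋆ₙₐ[ℂ] L),
      IsLim M ι L k := by
  obtain ⟨L, iL, k₀, hk, hd⟩ := exists_completion (D2S ι hι) D2S.cstar
  have hz : ∀ x y : D2S ι hι, (∀ᶠ n in atTop, D2S.vl x n = D2S.vl y n) → k₀ x = k₀ y := by
    intro x y h
    rw [← sub_eq_zero, ← map_sub, ← norm_eq_zero, hk]
    exact D2S.norm_sub_eq_zero h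
  refine ⟨L, iL, fun m => k₀.comp (D2E ι hι m), ?_, ?_, ?_⟩
  · intro m
    rw [injective_iff_map_eq_zero]
    intro x hx
    rw [NonUnitalStarAlgHom.comp_apply, ← norm_eq_zero, hk] at hx
    have h1 : ‖x‖ = 0 := by
      rw [← D2E_norm ι hι m x]
      exact hx
    exact norm_eq_zero.1 h1
  · intro m x
    rw [NonUnitalStarAlgHom.comp_apply, NonUnitalStarAlgHom.comp_apply]
    apply hz
    filter_upwards [Filter.eventually_ge_atTop (m + 1)] with n hn
    rw [D2E_vl, D2E_vl, D2e_comp ι hn]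
  · refine hd.mono ?_
    rintro _ ⟨p, rfl⟩
    obtain ⟨N, hN⟩ := Filter.eventually_atTop.1 (D2S.vl_coh p)
    refine Set.mem_iUnion.2 ⟨N, D2S.vl p N, ?_⟩
    rw [NonUnitalStarAlgHom.comp_apply]
    apply hz
    refine Filter.eventually_atTop.2 ⟨N, fun n hn => ?_⟩
    rw [D2E_vl]
    induction n, hn using Nat.le_induction with
    | base => rw [D2e_self]
    | succ n hn ih => rw [D2e_succ ι hn, hN n hn, ih]

end Pool.Agent.UNA
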