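import Pool.Agent.UNA.D2

set_option autoImplicit false
open Filter Topology

namespace Pool.Agent.UNA

universe u

variable {M : ℕ → CA.{u}} {ι : ∀ n, (M n).T →⋆ₙₐ[ℂ] (M (n + 1)).T} {L : Type u}
  [NonUnitalCStarAlgebra L] {k : ∀ n, (M n).T →⋆ₙₐ[ℂ] L}

/-- the images increase -/
theorem IsLim.mono (hL : IsLim M ι L k) {m n : ℕ} (h : m ≤ n) :
    Set.range (k m) ⊆ Set.range (k n) := by
  induction n, h using Nat.le_induction with
  | base => exact le_rfl
  | succ n hmn ih =>
    rintro _ ⟨x, rfl⟩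
    obtain ⟨y, hy⟩ := ih ⟨x, rfl⟩
    exact ⟨ι n y, (hL.comp n y).trans hy⟩

/-- Finitely many elements are close to one stage.  Proof: `hL.dense`, `hL.mono`, and a bound of
finitely many indices (`Finset.sup` or induction on `F`). -/
theorem IsLim.exists_stage (hL : IsLim M ι L k) (F : Finset L) {ε : ℝ} (hε : 0 < ε) :
    ∃ n, ∀ a ∈ F, ∃ x : (M n).T, ‖k n x - a‖ < ε := by
  classical
  induction F using Finset.induction_on with
  | empty => exact ⟨0, fun a ha => absurd ha (Finset.notMem_empty a)⟩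
  | insert b F hb ih =>
    obtain ⟨n, hn⟩ := ih
    obtain ⟨y, hy, hyb⟩ := Metric.dense_iff.1 hL.dense b ε hε
    obtain ⟨m, hm⟩ := Set.mem_iUnion.1 hyb
    refine ⟨max m n, fun a ha => ?_⟩
    rcases Finset.mem_insert.1 ha with rfl | ha
    · obtain ⟨x, hx⟩ := hL.mono (le_max_left m n) hm
      refine ⟨x, ?_⟩
      rw [hx, ← dist_eq_norm]
      exact Metric.mem_ball.1 hy
    · obtain ⟨x, hx⟩ := hn a ha
      obtain ⟨z, hz⟩ := hL.mono (le_max_right m n) ⟨x, rfl⟩
      exact ⟨z, by rw [hz]; exact hx⟩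

/-- The shifted sequence has the same limit (the types are definitionally right:
`M (m + (n + 1)) = M ((m + n) + 1)`). -/
theorem IsLim.shift (hL : IsLim M ι L k) (m : ℕ) :
    IsLim (fun n => M (m + n)) (fun n => ι (m + n)) L (fun n => k (m + n)) where
  inj n := hL.inj (m + n)
  comp n x := hL.comp (m + n) x
  dense := by
    refine hL.dense.mono ?_
    intro a ha
    obtain ⟨n, hn⟩ := Set.mem_iUnion.1 ha
    exact Set.mem_iUnion.2 ⟨n, hL.mono (Nat.le_add_left n m) hn⟩

end Pool.Agent.UNA
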