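import Pool.Agent.UNA.D3

set_option autoImplicit false
open Filter Topology

namespace Pool.Agent.UNA

universe u

variable {M : ℕ → CA.{u}} {ι : ∀ n, (M n).T →⋆ₙₐ[ℂ] (M (n + 1)).T} {L : Type u}
  [NonUnitalCStarAlgebra L] {k : ∀ n, (M n).T →⋆ₙₐ[ℂ] L}

/-- transfer to a later stage -/
private lemma d4_up (hL : IsLim M ι L k) {E : Type*} [NormedAddCommGroup E] [NormedSpace ℂ E]
    (φ : ∀ m, (M m).T →ₗ[ℂ] E) (hc : ∀ m x, φ (m + 1) (ι m x) = φ m x) {m n : ℕ} (h : m ≤ n)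
    (x : (M m).T) : ∃ y : (M n).T, k n y = k m x ∧ φ n y = φ m x := by
  induction n, h using Nat.le_induction with
  | base => exact ⟨x, rfl, rfl⟩
  | succ n hmn ih =>
    obtain ⟨y, hy1, hy2⟩ := ih
    exact ⟨ι n y, (hL.comp n y).trans hy1, (hc n y).trans hy2⟩

/-- the graph -/
private def d4_G (hL : IsLim M ι L k) {E : Type*} [NormedAddCommGroup E] [NormedSpace ℂ E]
    (φ : ∀ m, (M m).T →ₗ[ℂ] E) (hc : ∀ m x, φ (m + 1) (ι m x) = φ m x) :
    Submodule ℂ (L × E) where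
  carrier := {p | ∃ (n : ℕ) (x : (M n).T), p = (k n x, φ n x)}
  zero_mem' := ⟨0, 0, by rw [map_zero, map_zero]; rfl⟩
  add_mem' := by
    rintro _ _ ⟨m, x, rfl⟩ ⟨n, y, rfl⟩
    obtain ⟨x', hx1, hx2⟩ := d4_up hL φ hc (le_max_left m n) x
    obtain ⟨y', hy1, hy2⟩ := d4_up hL φ hc (le_max_right m n) y
    refine ⟨max m n, x' + y', ?_⟩
    rw [map_add, map_add, hx1, hx2, hy1, hy2]
    rfl
  smul_mem' := by
    rintro c _ ⟨m, x, rfl⟩
    refine ⟨m, c • x, ?_⟩
    rw [map_smul, map_smul]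
    rfl

/-- Compatible contractive linear maps extend to the limit.

Proof. Let `G : Set (L × E) := {p | ∃ n x, p = (k n x, φ n x)}`.  Any two points of `G` can be put at a
common stage (`φ` is compatible, `hL.mono`-type induction: `φ n (ι^[..] x) = φ m x`), so
`‖p.2 - q.2‖ ≤ ‖p.1 - q.1‖` for `p, q ∈ G`, hence for `p, q ∈ closure G` (closed condition on
`(L × E) × (L × E)`).  For every `a : L` there is `v : E` with `(a, v) ∈ closure G`: take
`y n ∈ ⋃ range k` converging to `a` with points `(y n, v n) ∈ G`; `v n` is Cauchy, converges.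
Unique by the inequality.  `Φ a :=` this `v`.  `closure G` is closed under addition and scalars
(`G` is an additive subgroup stable under scalars; `map_mem_closure₂`), so `Φ` is linear;
`‖Φ a‖ ≤ ‖a‖` from the inequality with `(0, 0) ∈ G`.
(Alternative: `G` is a submodule, `Submodule.topologicalClosure`.) -/
theorem limit_lin (hL : IsLim M ι L k) {E : Type*} [NormedAddCommGroup E] [NormedSpace ℂ E]
    [CompleteSpace E] (φ : ∀ m, (M m).T →ₗ[ℂ] E) (hφ : ∀ m x, ‖φ m x‖ ≤ ‖x‖)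
    (hc : ∀ m x, φ (m + 1) (ι m x) = φ m x) :
    ∃ Φ : L →ₗ[ℂ] E, (∀ x, ‖Φ x‖ ≤ ‖x‖) ∧ ∀ m x, Φ (k m x) = φ m x := by
  have hG : ∀ p ∈ d4_G hL φ hc, ‖p.2‖ ≤ ‖p.1‖ := by
    rintro _ ⟨n, x, rfl⟩
    have h1 : ‖k n x‖ = ‖x‖ := NonUnitalStarAlgHom.norm_map (k n) (hL.inj n) x
    show ‖φ n x‖ ≤ ‖k n x‖
    rw [h1]
    exact hφ n x
  have hcl : ∀ p ∈ (d4_G hL φ hc).topologicalClosure, ‖p.2‖ ≤ ‖p.1‖ := by
    intro p hp
    have h1 : IsClosed {p : L × E | ‖p.2‖ ≤ ‖p.1‖} :=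
      isClosed_le (continuous_snd.norm) (continuous_fst.norm)
    have h2 : closure (d4_G hL φ hc : Set (L × E)) ⊆ {p : L × E | ‖p.2‖ ≤ ‖p.1‖} :=
      closure_minimal hG h1
    exact h2 (by rw [← Submodule.topologicalClosure_coe]; exact hp)
  have hex : ∀ a : L, ∃ v : E, (a, v) ∈ (d4_G hL φ hc).topologicalClosure := by
    intro a
    obtain ⟨y, hy, hya⟩ := mem_closure_iff_seq_limit.1 (hL.dense a)
    have h1 : ∀ n, ∃ v : E, (y n, v) ∈ d4_G hL φ hc := by
      intro n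
      obtain ⟨m, x, hx⟩ := Set.mem_iUnion.1 (hy n)
      exact ⟨φ m x, m, x, by rw [hx]⟩
    choose v hv using h1
    have h2 : CauchySeq v := by
      have h3 : CauchySeq y := hya.cauchySeq
      rw [Metric.cauchySeq_iff] at h3 ⊢
      intro ε hε
      obtain ⟨N, hN⟩ := h3 ε hε
      refine ⟨N, fun m hm n hn => lt_of_le_of_lt ?_ (hN m hm n hn)⟩
      rw [dist_eq_norm, dist_eq_norm]
      exact hG _ (Submodule.sub_mem _ (hv m) (hv n))
    obtain ⟨w, hw⟩ := cauchySeq_tendsto_of_complete h2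
    refine ⟨w, ?_⟩
    have h4 : (a, w) ∈ closure (d4_G hL φ hc : Set (L × E)) :=
      mem_closure_of_tendsto (hya.prodMk_nhds hw) (Filter.Eventually.of_forall fun n => hv n)
    rw [← Submodule.topologicalClosure_coe] at h4
    exact h4
  have huniq : ∀ (a : L) (v w : E), (a, v) ∈ (d4_G hL φ hc).topologicalClosure →
      (a, w) ∈ (d4_G hL φ hc).topologicalClosure → v = w := by
    intro a v w hv hw
    have h1 := hcl _ (Submodule.sub_mem _ hv hw)
    have h2 : ‖v - w‖ ≤ ‖a - a‖ := h1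
    rw [sub_self, norm_zero] at h2
    exact sub_eq_zero.1 (norm_le_zero_iff.1 h2)
  choose F hF using hex
  refine ⟨{ toFun := F, map_add' := ?_, map_smul' := ?_ }, ?_, ?_⟩
  · intro a b
    exact huniq (a + b) _ _ (hF (a + b)) (Submodule.add_mem _ (hF a) (hF b))
  · intro c a
    exact huniq (c • a) _ _ (hF (c • a)) (Submodule.smul_mem _ c (hF a))
  · intro a
    exact hcl _ (hF a)
  · intro m x
    exact huniq (k m x) _ _ (hF (k m x))
      ((d4_G hL φ hc).le_topologicalClosure ⟨m, x, rfl⟩)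

end Pool.Agent.UNA
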