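import Pool.Agent.UNA.D4

set_option autoImplicit false
open Filter Topology

namespace Pool.Agent.UNA

universe u

/-- Compatible injective *-homomorphisms from the stages of `B'` into `L` give an injective
*-homomorphism `B' → L`.

Proof. `limit_lin` with `E := L`, `φ n := h n` (isometric: `NonUnitalStarAlgHom.norm_map`) gives a
linear contraction `Φ : B' → L` with `Φ (b n x) = h n x`.  `‖Φ a‖ = ‖a‖` on the dense set
`⋃ range (b n)`, hence everywhere (closed condition), so `Φ` is injective.  Multiplicative and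
star preserving: `Φ (x * y) = Φ x * Φ y` on the dense set (both at a common stage,
`IsLim.mono`), and closedness (`Dense.induction`-style with `isClosed_eq`; `Φ` is continuous since
`‖Φ x‖ ≤ ‖x‖`: `AddMonoidHomClass.continuous_of_bound`). -/
theorem limit_map {B' : Type u} [NonUnitalCStarAlgebra B'] (B : ℕ → CA.{u})
    (j : ∀ n, (B n).T →⋆ₙₐ[ℂ] (B (n + 1)).T) (b : ∀ n, (B n).T →⋆ₙₐ[ℂ] B')
    (hB : IsLim B j B' b) {L : Type u} [NonUnitalCStarAlgebra L]
    (h : ∀ n, (B n).T →⋆ₙₐ[ℂ] L) (hh : ∀ n, Function.Injective (h n))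
    (hc : ∀ n x, h (n + 1) (j n x) = h n x) :
    ∃ f : B' →⋆ₙₐ[ℂ] L, Function.Injective f := by
  obtain ⟨Φ, hΦ1, hΦ2⟩ := limit_lin (k := b) hB (E := L)
    (fun n => { toFun := fun x => h n x
                map_add' := fun x y => map_add (h n) x y
                map_smul' := fun c x => map_smul (h n) c x })
    (fun n x => le_of_eq (NonUnitalStarAlgHom.norm_map (h n) (hh n) x))
    (fun n x => hc n x)
  have hΦ3 : ∀ n (x : (B n).T), Φ (b n x) = h n x := hΦ2
  have hcont : Continuous Φ :=
    AddMonoidHomClass.continuous_of_bound Φ 1 (fun x => by rw [one_mul]; exact hΦ1 x)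
  have hnorm : ∀ a, ‖Φ a‖ = ‖a‖ := by
    intro a
    have hcl : IsClosed {a : B' | ‖Φ a‖ = ‖a‖} := isClosed_eq hcont.norm continuous_norm
    have hsub : (⋃ n, Set.range (b n)) ⊆ {a : B' | ‖Φ a‖ = ‖a‖} := by
      intro y hy
      obtain ⟨n, x, rfl⟩ := Set.mem_iUnion.1 hy
      show ‖Φ (b n x)‖ = ‖b n x‖
      rw [hΦ3, NonUnitalStarAlgHom.norm_map (h n) (hh n) x,
        NonUnitalStarAlgHom.norm_map (b n) (hB.inj n) x]
    exact closure_minimal hsub hcl (hB.dense a)
  have hstar : ∀ a, Φ (star a) = star (Φ a) := by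
    intro a
    have hcl : IsClosed {a : B' | Φ (star a) = star (Φ a)} :=
      isClosed_eq (hcont.comp continuous_star) (continuous_star.comp hcont)
    have hsub : (⋃ n, Set.range (b n)) ⊆ {a : B' | Φ (star a) = star (Φ a)} := by
      intro y hy
      obtain ⟨n, x, rfl⟩ := Set.mem_iUnion.1 hy
      show Φ (star (b n x)) = star (Φ (b n x))
      rw [hΦ3, ← map_star, hΦ3, map_star]
    exact closure_minimal hsub hcl (hB.dense a)
  have hmul : ∀ a c, Φ (a * c) = Φ a * Φ c := by
    intro a c
    have hcl : IsClosed {p : B' × B' | Φ (p.1 * p.2) = Φ p.1 * Φ p.2} :=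
      isClosed_eq (hcont.comp (continuous_fst.mul continuous_snd))
        ((hcont.comp continuous_fst).mul (hcont.comp continuous_snd))
    have hsub : (⋃ n, Set.range (b n)) ×ˢ (⋃ n, Set.range (b n)) ⊆
        {p : B' × B' | Φ (p.1 * p.2) = Φ p.1 * Φ p.2} := by
      rintro ⟨y, z⟩ ⟨hy, hz⟩
      obtain ⟨m, hy⟩ := Set.mem_iUnion.1 hy
      obtain ⟨n, hz⟩ := Set.mem_iUnion.1 hz
      obtain ⟨y', hy'⟩ := hB.mono (le_max_left m n) hy
      obtain ⟨z', hz'⟩ := hB.mono (le_max_right m n) hz
      change b (max m n) y' = y at hy'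
      change b (max m n) z' = z at hz'
      subst hy'
      subst hz'
      show Φ (b (max m n) y' * b (max m n) z') = Φ (b (max m n) y') * Φ (b (max m n) z')
      rw [← map_mul, hΦ3, hΦ3, hΦ3, map_mul]
    have hd : Dense ((⋃ n, Set.range (b n)) ×ˢ (⋃ n, Set.range (b n))) := hB.dense.prod hB.dense
    exact closure_minimal hsub hcl (hd (a, c))
  refine ⟨{ toFun := Φ
            map_smul' := fun c x => map_smul Φ c x
            map_zero' := map_zero Φ
            map_add' := fun x y => map_add Φ x y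
            map_mul' := hmul
            map_star' := hstar }, ?_⟩
  intro x y hxy
  have hxy' : Φ x = Φ y := hxy
  have h0 : ‖x - y‖ = 0 := by
    rw [← hnorm, map_sub, hxy', sub_self, norm_zero]
  exact sub_eq_zero.1 (norm_eq_zero.1 h0)

end Pool.Agent.UNA
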