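import Pool.Agent.UNA.U1

set_option autoImplicit false
open scoped ComplexOrder Matrix.Norms.L2Operator
open Cardinal Filter

namespace Pool.Agent.UNA

universe u

section

variable {A : Type*} [NonUnitalCStarAlgebra A] {J : Type*} [Fintype J] [DecidableEq J]

omit [DecidableEq J] in
lemma h1_scale {E F : Type*} [SeminormedAddCommGroup E] [NormedSpace ℂ E]
    [SeminormedAddCommGroup F] [NormedSpace ℂ F] (f : E →ₗ[ℂ] F)
    (h : ∀ x, ‖x‖ ≤ 1 → ‖f x‖ ≤ 1) (x : E) : ‖f x‖ ≤ ‖x‖ := by
  refine le_of_forall_gt_imp_ge_of_dense fun c hc => ?_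
  have hc0 : 0 < c := lt_of_le_of_lt (norm_nonneg x) hc
  have h1 : ‖((c : ℂ))⁻¹ • x‖ ≤ 1 := by
    rw [norm_smul, norm_inv, Complex.norm_real, Real.norm_eq_abs, abs_of_pos hc0]
    rw [inv_mul_le_iff₀ hc0, mul_one]
    exact hc.le
  have h2 := h _ h1
  rw [map_smul, norm_smul, norm_inv, Complex.norm_real, Real.norm_eq_abs, abs_of_pos hc0,
    inv_mul_le_iff₀ hc0, mul_one] at h2
  exact h2

/-- `CPC1` maps are contractive for the operator norm: `posSemidef_one_sub_iff` (namespace
`Pool.Agent.MP_162c54_lc`, file `HS.lean`) gives `‖φ a‖ ≤ 1` for `‖a‖ ≤ 1`; scale by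
`‖a‖⁻¹` (the case `a = 0` is trivial). -/
theorem CPC1.norm_le {φ : A →ₗ[ℂ] Matrix J J ℂ} (h : CPC1 φ) (a : A) : ‖φ a‖ ≤ ‖a‖ := by
  refine h1_scale φ (fun x hx => ?_) a
  have h1 := h.contr x hx
  rw [Matrix.star_eq_conjTranspose] at h1
  exact (Pool.Agent.MP_162c54_lc.posSemidef_one_sub_iff _).1 h1

/-- `CPC2` maps are contractive for the operator norm. -/
theorem CPC2.norm_le {ψ : Matrix J J ℂ →ₗ[ℂ] A} (h : CPC2 ψ) (M : Matrix J J ℂ) :
    ‖ψ M‖ ≤ ‖M‖ := by
  refine h1_scale ψ (fun x hx => ?_) M
  refine h.contr x ?_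
  rw [Matrix.star_eq_conjTranspose]
  exact (Pool.Agent.MP_162c54_lc.posSemidef_one_sub_iff _).2 hx

/-- In a C*-algebra the elements of the form `star s * s` are a closed set.

Proof. `let _ := CStarAlgebra.spectralOrder L; let _ := CStarAlgebra.spectralOrderedRing L`; the set is
`{a | 0 ≤ a}` by `CStarAlgebra.nonneg_iff_eq_star_mul_self`, which is closed (search for
`isClosed_nonneg`, `CStarAlgebra.isClosed_nonneg` or an `OrderClosedTopology` instance). -/
theorem isClosed_squares (L : Type*) [NonUnitalCStarAlgebra L] :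
    IsClosed {a : L | ∃ s, a = star s * s} := by
  let _ := CStarAlgebra.spectralOrder L
  let _ := CStarAlgebra.spectralOrderedRing L
  have h : {a : L | ∃ s, a = star s * s} = {a : L | 0 ≤ a} := by
    ext a
    exact (CStarAlgebra.nonneg_iff_eq_star_mul_self (a := a)).symm
  rw [h]
  exact CStarAlgebra.isClosed_nonneg

/-- `PosSemidef` is a closed condition: if `M` is a limit of positive semidefinite matrices (in the
entrywise sense) it is positive semidefinite.  Here in the form: `T : X → Matrix J J ℂ` continuous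
entrywise, `T x` positive semidefinite for `x` in a dense set, then for all `x`.

Proof. `{x | (T x).PosSemidef}` is closed: by `Matrix.PosSemidef` unfolded, it is the intersection of
`{x | (T x)ᴴ = T x}` (closed: equality of continuous entries) and of
`{x | 0 ≤ star v ⬝ᵥ (T x *ᵥ v)}` over all `v` (closed: `ℂ` is an order closed topology,
`isClosed_le` / `isClosed_Ici`), and contains a dense set. -/
theorem posSemidef_of_dense {X : Type*} [TopologicalSpace X] {D : Set X} (hD : Dense D)
    (T : X → Matrix J J ℂ) (hT : ∀ a b, Continuous fun x => T x a b)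
    (h : ∀ x ∈ D, (T x).PosSemidef) (x : X) : (T x).PosSemidef := by
  have hcl : IsClosed {x | (T x).PosSemidef} := by
    have h1 : {x | (T x).PosSemidef} = (⋂ a, ⋂ b, {x | star (T x b a) = T x a b}) ∩
        ⋂ v : J → ℂ, {x | 0 ≤ dotProduct (star v) ((T x).mulVec v)} := by
      ext x
      simp only [Set.mem_ofPred_eq, Set.mem_inter_iff, Set.mem_iInter]
      rw [Matrix.posSemidef_iff_dotProduct_mulVec]
      refine and_congr_left fun _ => ⟨fun hx a b => ?_, fun hx => ?_⟩
      · exact hx.apply a b
      · ext a b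
        exact hx a b
    rw [h1]
    refine IsClosed.inter ?_ ?_
    · exact isClosed_iInter fun a => isClosed_iInter fun b =>
        isClosed_eq (continuous_star.comp (hT b a)) (hT a b)
    · refine isClosed_iInter fun v => isClosed_le continuous_const ?_
      have hm : ∀ a, Continuous fun x => ((T x).mulVec v) a := fun a => by
        simp only [Matrix.mulVec, dotProduct]
        exact continuous_finsetSum _ fun b _ => (hT a b).mul continuous_const
      simp only [dotProduct]
      exact continuous_finsetSum _ fun a _ => continuous_const.mul (hm a)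
  have hx : x ∈ closure D := hD x
  exact (closure_minimal (fun y hy => h y hy) hcl) hx

end

end Pool.Agent.UNA
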