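import Pool.Agent.UNA.D4
import Pool.Agent.UNA.H1

set_option autoImplicit false
open scoped ComplexOrder Matrix.Norms.L2Operator
open Filter Topology

namespace Pool.Agent.UNA

universe u

variable {M : ℕ → CA.{u}} {ι : ∀ n, (M n).T →⋆ₙₐ[ℂ] (M (n + 1)).T} {L : Type u}
  [NonUnitalCStarAlgebra L] {k : ∀ n, (M n).T →⋆ₙₐ[ℂ] L}

/-- tuples from one stage are dense -/
theorem d6_dense (hL : IsLim M ι L k) (r : ℕ) :
    Dense {x : Fin r → L | ∃ m, ∀ i, x i ∈ Set.range (k m)} := by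
  classical
  rw [Metric.dense_iff]
  intro x ε hε
  obtain ⟨m, hm⟩ := hL.exists_stage (Finset.univ.image x) hε
  have h : ∀ i, ∃ z : (M m).T, ‖k m z - x i‖ < ε := fun i =>
    hm (x i) (Finset.mem_image_of_mem x (Finset.mem_univ i))
  choose z hz using h
  refine ⟨fun i => k m (z i), ?_, m, fun i => ⟨z i, rfl⟩⟩
  rw [Metric.mem_ball, dist_pi_lt_iff hε]
  intro i
  rw [dist_eq_norm]
  exact hz i

/-- Compatible completely positive contractions extend to the limit.

Proof. `limit_lin` with `E := Matrix (Fin n) (Fin n) ℂ` (operator norm, `CPC1.norm_le`) gives `Φ`.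
`CPC1.contr`: `‖Φ a‖ ≤ ‖a‖ ≤ 1` and `posSemidef_one_sub_iff`.  `CPC1.pos`: for `x : Fin r → L` apply
`posSemidef_of_dense` with `X := Fin r → L`, `D := {x | ∃ m, ∀ i, x i ∈ range (k m)}` (dense:
approximate each coordinate, `hL.exists_stage`/`hL.mono`) and `T x := Matrix.of ...`; on `D` the
matrix is that of `φ m`. -/
theorem limit_phi (hL : IsLim M ι L k) {n : ℕ}
    (φ : ∀ m, (M m).T →ₗ[ℂ] Matrix (Fin n) (Fin n) ℂ) (hφ : ∀ m, CPC1 (φ m))
    (hc : ∀ m x, φ (m + 1) (ι m x) = φ m x) :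
    ∃ Φ : L →ₗ[ℂ] Matrix (Fin n) (Fin n) ℂ, CPC1 Φ ∧ ∀ m x, Φ (k m x) = φ m x := by
  have : CompleteSpace (Matrix (Fin n) (Fin n) ℂ) := FiniteDimensional.complete ℂ _
  obtain ⟨Φ, h1, h2⟩ := limit_lin hL φ (fun m x => (hφ m).norm_le x) hc
  have hcont : Continuous Φ :=
    (Φ.mkContinuous 1 (fun x => by rw [one_mul]; exact h1 x)).continuous
  refine ⟨Φ, ⟨?_, ?_⟩, h2⟩
  · intro r x
    refine posSemidef_of_dense (d6_dense hL r)
      (fun x : Fin r → L => Matrix.of (fun p q : Fin r × Fin n =>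
        Φ (star (x p.1) * x q.1) p.2 q.2)) ?_ ?_ x
    · intro a b
      have h3 : Continuous fun x : Fin r → L => Φ (star (x a.1) * x b.1) :=
        hcont.comp (((continuous_apply a.1).star).mul (continuous_apply b.1))
      exact h3.matrix_elem a.2 b.2
    · rintro y ⟨m, hm⟩
      choose z hz using hm
      have h4 : (Matrix.of (fun p q : Fin r × Fin n => Φ (star (y p.1) * y q.1) p.2 q.2)) =
          Matrix.of (fun p q : Fin r × Fin n => φ m (star (z p.1) * z q.1) p.2 q.2) := by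
        ext p q
        simp only [Matrix.of_apply]
        rw [← hz p.1, ← hz q.1, ← map_star, ← map_mul, h2]
      change (Matrix.of (fun p q : Fin r × Fin n =>
        Φ (star (y p.1) * y q.1) p.2 q.2)).PosSemidef
      rw [h4]
      exact (hφ m).pos r z
  · intro a ha
    exact (Pool.Agent.MP_162c54_lc.posSemidef_one_sub_iff (Φ a)).2 ((h1 a).trans ha)

end Pool.Agent.UNA
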