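import Pool.Agent.UNA.D3
import Pool.Agent.UNA.H1

set_option autoImplicit false
open scoped ComplexOrder Matrix.Norms.L2Operator
open Filter Topology

namespace Pool.Agent.UNA

universe u

variable {M : ℕ → CA.{u}} {ι : ∀ n, (M n).T →⋆ₙₐ[ℂ] (M (n + 1)).T} {L : Type u}
  [NonUnitalCStarAlgebra L] {k : ∀ n, (M n).T →⋆ₙₐ[ℂ] L}

/-- tuples from one stage are dense -/
theorem d7_dense (hL : IsLim M ι L k) (r : ℕ) :
    Dense {x : Fin r → L | ∃ m, ∀ i, x i ∈ Set.range (k m)} := by
  classical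
  rw [Metric.dense_iff]
  intro x ε hε
  obtain ⟨m, hm⟩ := hL.exists_stage (Finset.univ.image x) hε
  have h : ∀ i, ∃ z : (M m).T, ‖k m z - x i‖ < ε := fun i =>
    hm (x i) (Finset.mem_image_of_mem x (Finset.mem_univ i))
  choose z hz using h
  refine ⟨fun i => k m (z i), ?_, m, fun i => ⟨z i, rfl⟩⟩
  rw [Metric.mem_ball, dist_pi_lt_iff hε]
  intro i
  rw [dist_eq_norm]
  exact hz i

/-- Compatible completely positive contractions from matrices into the stages.

Proof. `Ψ T := k 0 (ψ 0 T)`; `Ψ T = k m (ψ m T)` by induction on `m` (`hL.comp`, `hc`).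
`CPC2.contr`: `k 0` is isometric.  `CPC2.pos`: given `Y`, `y : Fin r → L`; the expression
`S y := ∑ i, ∑ j, star (y i) * Ψ (star (Y i) * Y j) * y j` is continuous in `y`; if all `y i` lie in
`range (k m)` (one `m`) it is `k m` of the expression for `ψ m`, so it is
`k m (star s * s) = star (k m s) * k m s`.  Such `y` are dense in `Fin r → L`, and
`isClosed_squares L`. -/
theorem limit_psi (hL : IsLim M ι L k) {n : ℕ}
    (ψ : ∀ m, Matrix (Fin n) (Fin n) ℂ →ₗ[ℂ] (M m).T) (hψ : ∀ m, CPC2 (ψ m))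
    (hc : ∀ m T, ψ (m + 1) T = ι m (ψ m T)) :
    ∃ Ψ : Matrix (Fin n) (Fin n) ℂ →ₗ[ℂ] L, CPC2 Ψ ∧ ∀ m T, Ψ T = k m (ψ m T) := by
  set Ψ : Matrix (Fin n) (Fin n) ℂ →ₗ[ℂ] L :=
    { toFun := fun T => k 0 (ψ 0 T)
      map_add' := fun S T => by rw [map_add, map_add]
      map_smul' := fun c T => by rw [map_smul, map_smul, RingHom.id_apply] } with hΨ
  have h0 : ∀ T, Ψ T = k 0 (ψ 0 T) := fun T => rfl
  have h2 : ∀ m T, Ψ T = k m (ψ m T) := by
    intro m
    induction m with
    | zero => exact h0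
    | succ m ih =>
      intro T
      rw [ih T, hc m T, hL.comp]
  refine ⟨Ψ, ⟨?_, ?_⟩, h2⟩
  · intro r Y y
    have hS : Continuous fun y : Fin r → L =>
        ∑ i, ∑ j, star (y i) * Ψ (star (Y i) * Y j) * y j := by
      refine continuous_finsetSum _ fun i _ => continuous_finsetSum _ fun j _ => ?_
      exact (((continuous_apply i).star).mul continuous_const).mul (continuous_apply j)
    have hcl := (isClosed_squares L).preimage hS
    have hsub : {x : Fin r → L | ∃ m, ∀ i, x i ∈ Set.range (k m)} ⊆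
        (fun y : Fin r → L => ∑ i, ∑ j, star (y i) * Ψ (star (Y i) * Y j) * y j) ⁻¹'
          {a : L | ∃ s, a = star s * s} := by
      rintro x ⟨m, hm⟩
      choose z hz using hm
      obtain ⟨s, hs⟩ := (hψ m).pos r Y z
      refine ⟨k m s, ?_⟩
      change ∑ i, ∑ j, star (x i) * Ψ (star (Y i) * Y j) * x j = star (k m s) * k m s
      rw [← map_star, ← map_mul, ← hs, map_sum]
      refine Finset.sum_congr rfl fun i _ => ?_
      rw [map_sum]
      refine Finset.sum_congr rfl fun j _ => ?_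
      rw [map_mul (k m), map_mul (k m), map_star (k m), hz i, hz j, h2 m]
    have h3 := hcl.closure_subset_iff.2 hsub
    have h4 : y ∈ closure {x : Fin r → L | ∃ m, ∀ i, x i ∈ Set.range (k m)} :=
      d7_dense hL r y
    exact h3 h4
  · intro T hT
    rw [h0]
    exact (NonUnitalStarAlgHom.norm_apply_le (k 0) _).trans ((hψ 0).contr T hT)

end Pool.Agent.UNA
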