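import Pool.Agent.UNA.D6
import Pool.Agent.UNA.D7

set_option autoImplicit false
open scoped ComplexOrder Matrix.Norms.L2Operator
open Filter Topology

namespace Pool.Agent.UNA

open Pool.Agent.MP_162c54_lc (IsNuclear)

universe u

variable {M : ℕ → CA.{u}} {ι : ∀ n, (M n).T →⋆ₙₐ[ℂ] (M (n + 1)).T} {L : Type u}
  [NonUnitalCStarAlgebra L] {k : ∀ n, (M n).T →⋆ₙₐ[ℂ] L}

/-- The limit of nuclear algebras is nuclear, if completely positive contractions extend along the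
bonding maps. -/
theorem limit_nuclear (hL : IsLim M ι L k) (hM : ∀ m, IsNuclear (M m).T)
    (hext : ∀ (m n : ℕ) (φ : (M m).T →ₗ[ℂ] Matrix (Fin n) (Fin n) ℂ), CPC1 φ →
      ∃ φ' : (M (m + 1)).T →ₗ[ℂ] Matrix (Fin n) (Fin n) ℂ, CPC1 φ' ∧ ∀ x, φ' (ι m x) = φ x)
    (hlift : ∀ (m n : ℕ) (ψ : Matrix (Fin n) (Fin n) ℂ →ₗ[ℂ] (M m).T), CPC2 ψ →
      ∃ ψ' : Matrix (Fin n) (Fin n) ℂ →ₗ[ℂ] (M (m + 1)).T, CPC2 ψ' ∧
        ∀ T, ψ' T = ι m (ψ T)) : IsNuclear L := by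
  classical
  rw [isNuclear_iff]
  intro F ε hε
  obtain ⟨m, hm⟩ := hL.exists_stage F (show (0 : ℝ) < ε / 3 by positivity)
  choose! x hx using hm
  obtain ⟨n, φ, ψ, hφ, hψ, happ⟩ := (isNuclear_iff _).1 (hM m) (F.image x) (ε / 3) (by positivity)
  let step : ∀ i, {φ : (M (m + i)).T →ₗ[ℂ] Matrix (Fin n) (Fin n) ℂ // CPC1 φ} →
      {φ : (M (m + (i + 1))).T →ₗ[ℂ] Matrix (Fin n) (Fin n) ℂ // CPC1 φ} := fun i p =>
    ⟨(hext (m + i) n p.1 p.2).choose, (hext (m + i) n p.1 p.2).choose_spec.1⟩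
  let s : ∀ i, {φ : (M (m + i)).T →ₗ[ℂ] Matrix (Fin n) (Fin n) ℂ // CPC1 φ} := fun i =>
    Nat.rec (motive := fun i => {φ : (M (m + i)).T →ₗ[ℂ] Matrix (Fin n) (Fin n) ℂ // CPC1 φ})
      ⟨φ, hφ⟩ step i
  let step' : ∀ i, {ψ : Matrix (Fin n) (Fin n) ℂ →ₗ[ℂ] (M (m + i)).T // CPC2 ψ} →
      {ψ : Matrix (Fin n) (Fin n) ℂ →ₗ[ℂ] (M (m + (i + 1))).T // CPC2 ψ} := fun i p =>
    ⟨(hlift (m + i) n p.1 p.2).choose, (hlift (m + i) n p.1 p.2).choose_spec.1⟩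
  let s' : ∀ i, {ψ : Matrix (Fin n) (Fin n) ℂ →ₗ[ℂ] (M (m + i)).T // CPC2 ψ} := fun i =>
    Nat.rec (motive := fun i => {ψ : Matrix (Fin n) (Fin n) ℂ →ₗ[ℂ] (M (m + i)).T // CPC2 ψ})
      ⟨ψ, hψ⟩ step' i
  obtain ⟨Φ, hΦ, hΦ2⟩ := limit_phi (hL.shift m) (fun i => (s i).1) (fun i => (s i).2)
    (fun i y => (hext (m + i) n (s i).1 (s i).2).choose_spec.2 y)
  obtain ⟨Ψ, hΨ, hΨ2⟩ := limit_psi (hL.shift m) (fun i => (s' i).1) (fun i => (s' i).2)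
    (fun i y => (hlift (m + i) n (s' i).1 (s' i).2).choose_spec.2 y)
  refine ⟨n, Φ, Ψ, hΦ, hΨ, fun a ha => ?_⟩
  have h1 : ∀ y, Φ (k m y) = φ y := fun y => hΦ2 0 y
  have h2 : ∀ T, Ψ T = k m (ψ T) := fun T => hΨ2 0 T
  have h3 : Ψ (Φ a) - a = Ψ (Φ (a - k m (x a))) + k m (ψ (φ (x a)) - x a) + (k m (x a) - a) := by
    rw [map_sub Φ, map_sub Ψ, h1, h2 (φ (x a)), map_sub (k m)]
    abel
  have h4 : ‖Ψ (Φ (a - k m (x a)))‖ < ε / 3 := by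
    refine ((hΨ.norm_le _).trans (hΦ.norm_le _)).trans_lt ?_
    rw [norm_sub_rev]
    exact hx a ha
  have h5 : ‖k m (ψ (φ (x a)) - x a)‖ < ε / 3 := by
    rw [NonUnitalStarAlgHom.norm_map (k m) (hL.inj m)]
    exact happ (x a) (Finset.mem_image_of_mem x ha)
  rw [h3]
  refine (norm_add₃_le).trans_lt ?_
  linarith [hx a ha]

end Pool.Agent.UNA
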