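import Pool.Agent.UNA.U1

set_option autoImplicit false
open scoped ComplexOrder
open Cardinal Filter

namespace Pool.Agent.UNA

universe u

/-- the map of ultrapowers -/
noncomputable def u6m {J : Type u} (U : SU J) {A B : Type u} (f : A → B) : UP U A → UP U B :=
  fun x => (Germ.map f (x : Germ U.F A) : Germ U.F B)

theorem u6m_mk {J : Type u} (U : SU J) {A B : Type u} (f : A → B) (a : J → A) :
    u6m U f (UP.mk U a) = UP.mk U fun j => f (a j) := rfl

/-- the map of ultrapowers as a homomorphism -/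
noncomputable def u6F {J : Type u} (U : SU J) {A B : Type u} [NonUnitalCStarAlgebra A]
    [NonUnitalCStarAlgebra B] (f : A →⋆ₙₐ[ℂ] B) : UP U A →⋆ₙₐ[ℂ] UP U B where
  toFun := u6m U f
  map_smul' c x := by
    obtain ⟨a, rfl⟩ := UP.mk_surj x
    show u6m U f (c • UP.mk U a) = c • u6m U f (UP.mk U a)
    rw [UP.mk_smul, u6m_mk, u6m_mk, UP.mk_smul]
    simp only [map_smul]
  map_zero' := by
    rw [UP.mk_zero, u6m_mk, UP.mk_zero]
    simp only [map_zero]
  map_add' x y := by
    obtain ⟨a, rfl⟩ := UP.mk_surj x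
    obtain ⟨b, rfl⟩ := UP.mk_surj y
    show u6m U f (UP.mk U a + UP.mk U b) = u6m U f (UP.mk U a) + u6m U f (UP.mk U b)
    rw [UP.mk_add, u6m_mk, u6m_mk, u6m_mk, UP.mk_add]
    simp only [map_add]
  map_mul' x y := by
    obtain ⟨a, rfl⟩ := UP.mk_surj x
    obtain ⟨b, rfl⟩ := UP.mk_surj y
    show u6m U f (UP.mk U a * UP.mk U b) = u6m U f (UP.mk U a) * u6m U f (UP.mk U b)
    rw [UP.mk_mul, u6m_mk, u6m_mk, u6m_mk, UP.mk_mul]
    simp only [map_mul]
  map_star' x := by
    obtain ⟨a, rfl⟩ := UP.mk_surj x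
    show u6m U f (star (UP.mk U a)) = star (u6m U f (UP.mk U a))
    rw [UP.mk_star, u6m_mk, u6m_mk, UP.mk_star]
    simp only [map_star]

/-- Functoriality of the ultrapower.  `F [a] = [f ∘ a]`, i.e. `F := Germ.map f` (all the fields by
`UP.mk_surj` and the lemmas `UP.mk_add`, ...).  Injective: `f (a j) = f (b j)` a.e. gives `a j = b j`
a.e. -/
theorem up_map {J : Type u} (U : SU J) {A B : Type u} [NonUnitalCStarAlgebra A]
    [NonUnitalCStarAlgebra B] (f : A →⋆ₙₐ[ℂ] B) (hf : Function.Injective f) :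
    ∃ F : UP U A →⋆ₙₐ[ℂ] UP U B, Function.Injective F ∧
      ∀ a, F (UP.const U a) = UP.const U (f a) := by
  refine ⟨u6F U f, fun x y h => ?_, fun a => rfl⟩
  obtain ⟨a, rfl⟩ := UP.mk_surj x
  obtain ⟨b, rfl⟩ := UP.mk_surj y
  have h1 : UP.mk U (fun j => f (a j)) = UP.mk U fun j => f (b j) := h
  rw [UP.mk_eq] at h1 ⊢
  filter_upwards [h1] with j hj
  exact hf hj

/-- The cardinality of the ultrapower: `UP.mk U : (J → M) → UP U M` is surjective
(`Cardinal.mk_le_of_surjective`, `Cardinal.mk_arrow`, `Cardinal.lift_id`). -/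
theorem mk_up_le {J : Type u} (U : SU J) (M : Type u) : #(UP U M) ≤ #M ^ #J := by
  have h := Cardinal.mk_le_of_surjective (f := (UP.mk U : (J → M) → UP U M)) UP.mk_surj
  rwa [Cardinal.mk_arrow, Cardinal.lift_id, Cardinal.lift_id] at h

end Pool.Agent.UNA
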