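import Pool.Agent.UNA.U1

set_option autoImplicit false
open scoped ComplexOrder
open Cardinal Filter

namespace Pool.Agent.UNA

universe u

/-- An existentially closed extension embeds into the ultrapower over the small algebra.

Proof. For `s : Set I` let `t s := e ⁻¹' s : Set B`.  If `#s < χ` then `#(t s) ≤ #s < χ` (`e` is
injective: `Cardinal.mk_preimage_of_injective` or an explicit injection), so `hj (t s)` gives
`g s : B → A`; otherwise `g s := 0`.  Put `h x := UP.mk U (fun s => g s x)`.  Additivity: for a.e.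
`s` we have `#s < χ` and `e x, e y, e (x + y) ∈ s` (`hU.fine`, `hU.small`), hence
`g s (x + y) = g s x + g s y`, and `UP.mk_eq`.  The same for `*`, `star`, `c •`; `h 0 = 0` follows
from additivity.  Injective: if `h x = h y`, then at some `s` (`Eventually.exists`) `g s x = g s y`,
`e x, e y ∈ s`, so `x = y`.  `h (j a) = const a`: a.e. `e (j a) ∈ s`, so `g s (j a) = a`. -/
theorem embed_up (χ : Cardinal.{u}) {A B : Type u} [NonUnitalCStarAlgebra A]
    [NonUnitalCStarAlgebra B] (j : A →⋆ₙₐ[ℂ] B) (hj : ECmap χ j) {I : Type u} (e : B → I)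
    (he : Function.Injective e) (U : SU (Set I)) (hU : U.Fine χ) :
    ∃ h : B →⋆ₙₐ[ℂ] UP U A, Function.Injective h ∧ ∀ a, h (j a) = UP.const U a := by
  classical
  have hcard : ∀ s : Set I, #s < χ → #(e ⁻¹' s : Set B) < χ := by
    intro s hs
    refine lt_of_le_of_lt ?_ hs
    exact Cardinal.mk_preimage_of_injective e s he
  have hg : ∀ s : Set I, ∃ g : B → A, #s < χ →
      ((∀ a, j a ∈ (e ⁻¹' s : Set B) → g (j a) = a) ∧
      (∀ x ∈ (e ⁻¹' s : Set B), ∀ y ∈ (e ⁻¹' s : Set B), g x = g y → x = y) ∧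
      (∀ x ∈ (e ⁻¹' s : Set B), ∀ y ∈ (e ⁻¹' s : Set B), x + y ∈ (e ⁻¹' s : Set B) →
        g (x + y) = g x + g y) ∧
      (∀ x ∈ (e ⁻¹' s : Set B), ∀ y ∈ (e ⁻¹' s : Set B), x * y ∈ (e ⁻¹' s : Set B) →
        g (x * y) = g x * g y) ∧
      (∀ x ∈ (e ⁻¹' s : Set B), star x ∈ (e ⁻¹' s : Set B) → g (star x) = star (g x)) ∧
      ∀ (c : ℂ), ∀ x ∈ (e ⁻¹' s : Set B), c • x ∈ (e ⁻¹' s : Set B) → g (c • x) = c • g x) := by
    intro s
    by_cases hs : #s < χ
    · obtain ⟨g, hg⟩ := hj (e ⁻¹' s) (hcard s hs)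
      exact ⟨g, fun _ => hg⟩
    · exact ⟨0, fun h => absurd h hs⟩
  choose g hg using hg
  have hadd : ∀ x y : B, UP.mk U (fun s => g s (x + y)) =
      UP.mk U (fun s => g s x) + UP.mk U (fun s => g s y) := by
    intro x y
    rw [UP.mk_add, UP.mk_eq]
    filter_upwards [hU.small, hU.fine (e x), hU.fine (e y), hU.fine (e (x + y))] with s h1 h2 h3 h4
    exact (hg s h1).2.2.1 x h2 y h3 h4
  have hzero : UP.mk U (fun s => g s (0 : B)) = 0 := by
    have h1 := hadd 0 0
    rw [add_zero] at h1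
    exact left_eq_add.mp h1
  refine ⟨{ toFun := fun x => UP.mk U (fun s => g s x)
            map_smul' := ?_
            map_zero' := hzero
            map_add' := hadd
            map_mul' := ?_
            map_star' := ?_ }, ?_, ?_⟩
  · intro c x
    show UP.mk U (fun s => g s (c • x)) = c • UP.mk U (fun s => g s x)
    rw [UP.mk_smul, UP.mk_eq]
    filter_upwards [hU.small, hU.fine (e x), hU.fine (e (c • x))] with s h1 h2 h4
    exact (hg s h1).2.2.2.2.2 c x h2 h4
  · intro x y
    show UP.mk U (fun s => g s (x * y)) = UP.mk U (fun s => g s x) * UP.mk U (fun s => g s y)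
    rw [UP.mk_mul, UP.mk_eq]
    filter_upwards [hU.small, hU.fine (e x), hU.fine (e y), hU.fine (e (x * y))] with s h1 h2 h3 h4
    exact (hg s h1).2.2.2.1 x h2 y h3 h4
  · intro x
    show UP.mk U (fun s => g s (star x)) = star (UP.mk U (fun s => g s x))
    rw [UP.mk_star, UP.mk_eq]
    filter_upwards [hU.small, hU.fine (e x), hU.fine (e (star x))] with s h1 h2 h4
    exact (hg s h1).2.2.2.2.1 x h2 h4
  · intro x y hxy
    have h0 : UP.mk U (fun s => g s x) = UP.mk U (fun s => g s y) := hxy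
    rw [UP.mk_eq] at h0
    obtain ⟨s, h1, h2, h3, h4⟩ := (h0.and (hU.small.and ((hU.fine (e x)).and
      (hU.fine (e y))))).exists
    exact (hg s h2).2.1 x h3 y h4 h1
  · intro a
    show UP.mk U (fun s => g s (j a)) = UP.mk U (fun _ => a)
    rw [UP.mk_eq]
    filter_upwards [hU.small, hU.fine (e (j a))] with s h1 h2
    exact (hg s h1).1 a h2

end Pool.Agent.UNA
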