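import Pool.Agent.UNA.U4
import Pool.Agent.UNA.U6
import Pool.Agent.UNA.U8
import Pool.Agent.UNA.C1

set_option autoImplicit false
open scoped ComplexOrder
open Cardinal Filter

namespace Pool.Agent.UNA

open Pool.Agent.MP_162c54_lc (IsNuclear)

universe u

/-- Iterated ultrapowers of nuclear algebras are nuclear (induction, `up_nuclear`). -/
theorem iter_nuclear (M : CA.{u}) (hM : IsNuclear M.T) {J : ℕ → Type u} (U : ∀ n, SU (J n))
    (n : ℕ) : IsNuclear (iterUP M U n).T := by
  induction n with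
  | zero => exact hM
  | succ n ih => exact up_nuclear (U n) (iterUP M U n).T ih

/-- Iterated ultrapowers stay small (induction, `mk_up_le`, `pow_lt`). -/
theorem iter_card {κ : Cardinal.{u}} (hκ : κ.IsStrongLimit) (h0 : ℵ₀ < κ) (M : CA.{u})
    (hM : #M.T < κ) {J : ℕ → Type u} (hJ : ∀ n, #(J n) < κ) (U : ∀ n, SU (J n)) (n : ℕ) :
    #(iterUP M U n).T < κ := by
  induction n with
  | zero => exact hM
  | succ n ih =>
    have h1 : #(UP (U n) (iterUP M U n).T) ≤ #(iterUP M U n).T ^ #(J n) :=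
      mk_up_le (U n) (iterUP M U n).T
    exact lt_of_le_of_lt h1 (pow_lt hκ h0 ih (hJ n))

/-- Embedding a chain into the iterated ultrapowers.

Proof. Recursion: given `h n : (B n).T → (iterUP M U n).T` injective, `embed_up` (with `j n`, `e n`,
`U n`) gives `g : (B (n + 1)).T → UP (U n) (B n).T` over `B n`, and `up_map (U n) (h n)` gives
`F : UP (U n) (B n).T → UP (U n) (iterUP M U n).T = (iterUP M U (n + 1)).T`; `h (n + 1) := F.comp g`,
`h (n + 1) (j n x) = F (const x) = const (h n x) = iterMap M U n (h n x)`.  (Build the sequence in the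
subtype `{h // Injective h}` by `Nat.rec` with `Classical.choose`, and read off the compatibility from
`choose_spec`; all these types are definitionally equal.) -/
theorem chain_embed (χ : Cardinal.{u}) (B : ℕ → CA.{u})
    (j : ∀ n, (B n).T →⋆ₙₐ[ℂ] (B (n + 1)).T) (hj : ∀ n, ECmap χ (j n)) {I : ℕ → Type u}
    (e : ∀ n, (B (n + 1)).T → I n) (he : ∀ n, Function.Injective (e n))
    (U : ∀ n, SU (Set (I n))) (hU : ∀ n, (U n).Fine χ) (M : CA.{u})
    (h0 : (B 0).T →⋆ₙₐ[ℂ] M.T) (hh0 : Function.Injective h0) :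
    ∃ h : ∀ n, (B n).T →⋆ₙₐ[ℂ] (iterUP M U n).T, (∀ n, Function.Injective (h n)) ∧
      ∀ n x, h (n + 1) (j n x) = iterMap M U n (h n x) := by
  have step : ∀ (n : ℕ) (h : {h : (B n).T →⋆ₙₐ[ℂ] (iterUP M U n).T // Function.Injective h}),
      ∃ h' : {h : (B (n + 1)).T →⋆ₙₐ[ℂ] (iterUP M U (n + 1)).T // Function.Injective h},
        ∀ x, h'.1 (j n x) = iterMap M U n (h.1 x) := by
    intro n h
    obtain ⟨g, hg, hgj⟩ := embed_up χ (j n) (hj n) (e n) (he n) (U n) (hU n)
    obtain ⟨F, hF, hFc⟩ := up_map (U n) h.1 h.2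
    have hinj : Function.Injective (F.comp g) := hF.comp hg
    refine ⟨⟨F.comp g, hinj⟩, ?_⟩
    intro x
    have h1 : F (g (j n x)) = UP.const (U n) (h.1 x) := by
      rw [hgj, hFc]
    exact h1
  choose f hf using step
  let seq : ∀ n, {h : (B n).T →⋆ₙₐ[ℂ] (iterUP M U n).T // Function.Injective h} := fun n =>
    Nat.rec (motive := fun n => {h : (B n).T →⋆ₙₐ[ℂ] (iterUP M U n).T // Function.Injective h})
      ⟨h0, hh0⟩ (fun n h => f n h) n
  exact ⟨fun n => (seq n).1, fun n => (seq n).2, fun n x => hf n (seq n) x⟩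

end Pool.Agent.UNA
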