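import Pool.Agent.UNA.L2

set_option autoImplicit false
open Cardinal

namespace Pool.Agent.UNA

universe u

/-- The functions whose closure points are existentially closed.

Proof. `X0 := Quotient.out χ` (`χ.out`, `#X0 = χ ≥ ℵ₀`), `ι := Rel (X0 ⊕ X0) × X0`,
`f (r, i) v := if h : ∃ w : X0 → N, rel (Sum.elim w v) = r then h.choose i else v i`.
`#ι ≤ 2 ^ max χ 𝔠` by `mk_rel_le` (`#(X0 ⊕ X0) = χ`) and `χ ≤ 2 ^ χ`.
Let `S` be nonempty and closed under `f`, `t : Set N` with `#t < χ`.  If `t = ∅` all conditions are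
vacuous (`g := id`).  Otherwise choose a surjection `e : X0 → t` and `v : X0 → N` with values in `S`
such that every element of `t ∩ S` is a value of `v` (a surjection onto `t ∩ S`, which has size
`≤ χ`, if it is nonempty; a constant otherwise).  Let `r := rel (Sum.elim (fun i => (e i : N)) v)` and
`w := h.choose` for the (true) statement `∃ w, rel (Sum.elim w v) = r`; `w i = f (r, i) v ∈ S`.
For `x ∈ t` let `g x := w i` with `i` chosen such that `e i = x` (else `g x := 0`).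
Every required property is read off `rel (Sum.elim w v) = rel (Sum.elim e v)` (congrArg of the
projections, then `congrFun` at indices, `iff` from `Eq` of Props): e.g. `e i + e j = e k` iff
`w i + w j = w k` (component 1 at `inl i, inl j, inl k`), `e i = e j` iff `w i = w j` (component 5),
`e i = v k` iff `w i = v k` (component 5 at `inl i, inr k`; gives `g x = x` for `x ∈ t ∩ S`). -/
theorem exists_ec_funs (χ : Cardinal.{u}) (hχ : ℵ₀ ≤ χ) (N : Type u) [NonUnitalCStarAlgebra N] :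
    ∃ (ι : Type u) (f : ι → (χ.out → N) → N),
      #ι ≤ 2 ^ max χ (Cardinal.lift.{u} Cardinal.continuum.{0}) ∧
      ∀ S : Set N, S.Nonempty → (∀ i v, (∀ x, v x ∈ S) → f i v ∈ S) → ECset χ S := by
  classical
  refine ⟨Rel (χ.out ⊕ χ.out) × χ.out,
    fun p v => if h : ∃ w : χ.out → N, rel (Sum.elim w v) = p.1 then h.choose p.2 else v p.2,
    ?_, ?_⟩
  · have h0 : #(χ.out) = χ := Cardinal.mk_out χ
    have h1 : #(χ.out ⊕ χ.out) = χ := by
      rw [← Cardinal.add_def, h0]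
      exact Cardinal.add_eq_self hχ
    have h2 := mk_rel_le (χ.out ⊕ χ.out)
    rw [h1] at h2
    have h3 : χ ≤ 2 ^ max χ (Cardinal.lift.{u} Cardinal.continuum.{0}) :=
      (le_max_left _ _).trans (Cardinal.cantor _).le
    have h4 : ℵ₀ ≤ (2 : Cardinal.{u}) ^ max χ (Cardinal.lift.{u} Cardinal.continuum.{0}) :=
      hχ.trans h3
    have h5 : #(Rel (χ.out ⊕ χ.out) × χ.out) = #(Rel (χ.out ⊕ χ.out)) * χ := by
      rw [← Cardinal.mul_def, h0]
    rw [h5]
    exact (mul_le_mul' h2 h3).trans (Cardinal.mul_eq_self h4).le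
  · intro S hS hf t ht
    by_cases hte : t = ∅
    · subst hte
      refine ⟨id, ?_, ?_, ?_, ?_, ?_, ?_, ?_⟩
      · intro x hx
        exact absurd hx (Set.notMem_empty x)
      · intro x hx
        exact absurd hx (Set.notMem_empty x)
      · intro x hx
        exact absurd hx (Set.notMem_empty x)
      · intro x hx
        exact absurd hx (Set.notMem_empty x)
      · intro x hx
        exact absurd hx (Set.notMem_empty x)
      · intro x hx
        exact absurd hx (Set.notMem_empty x)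
      · intro c x hx
        exact absurd hx (Set.notMem_empty x)
    obtain ⟨t0, ht0⟩ := Set.nonempty_iff_ne_empty.2 hte
    obtain ⟨s0, hs0⟩ := hS
    have hle : #t ≤ #(χ.out) := by
      rw [Cardinal.mk_out]
      exact ht.le
    obtain ⟨emb⟩ := (Cardinal.le_def _ _).1 hle
    obtain ⟨e, he⟩ : ∃ e : χ.out → N, ∀ x : t, e (emb x) = (x : N) := by
      refine ⟨fun i => if h : ∃ x : t, emb x = i then (h.choose : N) else t0, fun x => ?_⟩
      have h : ∃ x' : t, emb x' = emb x := ⟨x, rfl⟩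
      change (if h : ∃ x' : t, emb x' = emb x then (h.choose : N) else t0) = (x : N)
      rw [dif_pos h]
      exact congrArg Subtype.val (emb.injective h.choose_spec)
    obtain ⟨v, hv, hvS⟩ : ∃ v : χ.out → N, (∀ x : t, (x : N) ∈ S → v (emb x) = (x : N)) ∧
        ∀ i, v i ∈ S := by
      refine ⟨fun i => if e i ∈ S then e i else s0, fun x hx => ?_, fun i => ?_⟩
      · change (if e (emb x) ∈ S then e (emb x) else s0) = (x : N)
        rw [he x, if_pos hx]
      · change (if e i ∈ S then e i else s0) ∈ S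
        split_ifs with h
        · exact h
        · exact hs0
    have hex : ∃ w : χ.out → N, rel (Sum.elim w v) = rel (Sum.elim e v) := ⟨e, rfl⟩
    obtain ⟨w, hw, hwS⟩ : ∃ w : χ.out → N, rel (Sum.elim w v) = rel (Sum.elim e v) ∧
        ∀ i, w i ∈ S := by
      refine ⟨hex.choose, hex.choose_spec, fun i => ?_⟩
      have h : (if h : ∃ w : χ.out → N, rel (Sum.elim w v) = rel (Sum.elim e v) then h.choose i
        else v i) ∈ S := hf (rel (Sum.elim e v), i) v hvS
      rw [dif_pos hex] at h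
      exact h
    have key : ∀ (x : N) (hx : x ∈ t),
        (fun y : N => if h : y ∈ t then w (emb ⟨y, h⟩) else 0) x = w (emb ⟨x, hx⟩) :=
      fun x hx => dif_pos hx
    refine ⟨fun y : N => if h : y ∈ t then w (emb ⟨y, h⟩) else 0, ?_, ?_, ?_, ?_, ?_, ?_, ?_⟩
    · intro x hx
      rw [key x hx]
      exact hwS _
    · intro x hx hxS
      rw [key x hx]
      have h1 : (w (emb ⟨x, hx⟩) = v (emb ⟨x, hx⟩)) = (e (emb ⟨x, hx⟩) = v (emb ⟨x, hx⟩)) :=
        congrArg (fun r : Rel (χ.out ⊕ χ.out) =>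
          r.2.2.2.2 (Sum.inl (emb ⟨x, hx⟩)) (Sum.inr (emb ⟨x, hx⟩))) hw
      rw [he ⟨x, hx⟩, hv ⟨x, hx⟩ hxS] at h1
      exact h1.mpr rfl
    · intro x hx y hy hxy
      rw [key x hx, key y hy] at hxy
      have h1 : (w (emb ⟨x, hx⟩) = w (emb ⟨y, hy⟩)) = (e (emb ⟨x, hx⟩) = e (emb ⟨y, hy⟩)) :=
        congrArg (fun r : Rel (χ.out ⊕ χ.out) =>
          r.2.2.2.2 (Sum.inl (emb ⟨x, hx⟩)) (Sum.inl (emb ⟨y, hy⟩))) hw
      rw [he ⟨x, hx⟩, he ⟨y, hy⟩] at h1
      exact h1.mp hxy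
    · intro x hx y hy hxy
      rw [key x hx, key y hy, key _ hxy]
      have h1 : (w (emb ⟨x, hx⟩) + w (emb ⟨y, hy⟩) = w (emb ⟨x + y, hxy⟩)) =
          (e (emb ⟨x, hx⟩) + e (emb ⟨y, hy⟩) = e (emb ⟨x + y, hxy⟩)) :=
        congrArg (fun r : Rel (χ.out ⊕ χ.out) =>
          r.1 (Sum.inl (emb ⟨x, hx⟩)) (Sum.inl (emb ⟨y, hy⟩)) (Sum.inl (emb ⟨x + y, hxy⟩))) hw
      rw [he ⟨x, hx⟩, he ⟨y, hy⟩, he ⟨x + y, hxy⟩] at h1
      exact (h1.mpr rfl).symm
    · intro x hx y hy hxy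
      rw [key x hx, key y hy, key _ hxy]
      have h1 : (w (emb ⟨x, hx⟩) * w (emb ⟨y, hy⟩) = w (emb ⟨x * y, hxy⟩)) =
          (e (emb ⟨x, hx⟩) * e (emb ⟨y, hy⟩) = e (emb ⟨x * y, hxy⟩)) :=
        congrArg (fun r : Rel (χ.out ⊕ χ.out) =>
          r.2.1 (Sum.inl (emb ⟨x, hx⟩)) (Sum.inl (emb ⟨y, hy⟩)) (Sum.inl (emb ⟨x * y, hxy⟩))) hw
      rw [he ⟨x, hx⟩, he ⟨y, hy⟩, he ⟨x * y, hxy⟩] at h1
      exact (h1.mpr rfl).symm
    · intro x hx hxs
      rw [key x hx, key _ hxs]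
      have h1 : (star (w (emb ⟨x, hx⟩)) = w (emb ⟨star x, hxs⟩)) =
          (star (e (emb ⟨x, hx⟩)) = e (emb ⟨star x, hxs⟩)) :=
        congrArg (fun r : Rel (χ.out ⊕ χ.out) =>
          r.2.2.1 (Sum.inl (emb ⟨x, hx⟩)) (Sum.inl (emb ⟨star x, hxs⟩))) hw
      rw [he ⟨x, hx⟩, he ⟨star x, hxs⟩] at h1
      exact (h1.mpr rfl).symm
    · intro c x hx hxs
      rw [key x hx, key _ hxs]
      have h1 : (c • (w (emb ⟨x, hx⟩)) = w (emb ⟨c • x, hxs⟩)) =
          (c • (e (emb ⟨x, hx⟩)) = e (emb ⟨c • x, hxs⟩)) :=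
        congrArg (fun r : Rel (χ.out ⊕ χ.out) =>
          r.2.2.2.1 c (Sum.inl (emb ⟨x, hx⟩)) (Sum.inl (emb ⟨c • x, hxs⟩))) hw
      rw [he ⟨x, hx⟩, he ⟨c • x, hxs⟩] at h1
      exact (h1.mpr rfl).symm

end Pool.Agent.UNA
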