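import Pool.Agent.UNA.D0

set_option autoImplicit false
open Cardinal

namespace Pool.Agent.UNA

universe u

/-- The functions whose closure points are closed *-subalgebras.

Proof. `χ.out` is infinite: let `em : ℕ ↪ χ.out` (`Infinite.natEmbedding`).
`ι := ULift (ℂ ⊕ Fin 5)`: `inl c` ↦ `fun v => c • v (em 0)`, then
`v (em 0) + v (em 1)`, `v (em 0) * v (em 1)`, `star (v (em 0))`, `0`, and the limit function
`fun v => if h : ∃ a, Tendsto (fun n => v (em n)) atTop (nhds a) then h.choose else 0`.
`#ι ≤ lift 𝔠` (`Cardinal.mk_complex`).  If `S` is nonempty and closed under these: for `x, y ∈ S` use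
`v i := if i = em 0 then x else y`; for closedness (`isClosed_of_closure_subset`,
`mem_closure_iff_seq_limit`): a sequence `x n ∈ S` converging to `a` is `v ∘ em` for
`v := Function.extend em x (fun _ => x 0)`, and the limit is unique. -/
theorem exists_alg_funs (χ : Cardinal.{u}) (hχ : ℵ₀ ≤ χ) (N : Type u) [NonUnitalCStarAlgebra N] :
    ∃ (ι : Type u) (f : ι → (χ.out → N) → N),
      #ι ≤ Cardinal.lift.{u} Cardinal.continuum.{0} ∧
      ∀ S : Set N, S.Nonempty → (∀ i v, (∀ x, v x ∈ S) → f i v ∈ S) →
        ∃ T : CSub N, (T.S : Set N) = S := by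
  classical
  have : Infinite χ.out := by
    rw [Cardinal.infinite_iff, Cardinal.mk_out]
    exact hχ
  let em : ℕ ↪ χ.out := Infinite.natEmbedding χ.out
  let g : (ℂ ⊕ Fin 5) → (χ.out → N) → N := fun i v =>
    match i with
    | Sum.inl c => c • v (em 0)
    | Sum.inr 0 => v (em 0) + v (em 1)
    | Sum.inr 1 => v (em 0) * v (em 1)
    | Sum.inr 2 => star (v (em 0))
    | Sum.inr 3 => 0
    | Sum.inr 4 => if h : ∃ a, Filter.Tendsto (fun n => v (em n)) Filter.atTop (nhds a)
        then h.choose else 0
  refine ⟨ULift.{u} (ℂ ⊕ Fin 5), fun i v => g i.down v, ?_, ?_⟩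
  · rw [Cardinal.mk_uLift, Cardinal.lift_le, Cardinal.mk_sum, Cardinal.lift_id, Cardinal.lift_id,
      Cardinal.mk_complex]
    refine Cardinal.add_le_of_le Cardinal.aleph0_le_continuum le_rfl ?_
    exact (Cardinal.lt_aleph0_of_finite _).le.trans Cardinal.aleph0_le_continuum
  · intro S hne hS
    have hS' : ∀ (i : ℂ ⊕ Fin 5) (v : χ.out → N), (∀ x, v x ∈ S) → g i v ∈ S :=
      fun i v hv => hS ⟨i⟩ v hv
    have h01 : em 1 ≠ em 0 := fun h => one_ne_zero (em.injective h)
    have h2 : ∀ x ∈ S, ∀ y ∈ S, ∃ v : χ.out → N, (∀ i, v i ∈ S) ∧ v (em 0) = x ∧ v (em 1) = y := by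
      intro x hx y hy
      refine ⟨fun i => if i = em 0 then x else y, fun i => ?_, ?_, ?_⟩
      · by_cases h : i = em 0
        · simp only [h, if_true]; exact hx
        · simp only [h, if_false]; exact hy
      · simp
      · simp [h01]
    have hadd : ∀ x ∈ S, ∀ y ∈ S, x + y ∈ S := by
      intro x hx y hy
      obtain ⟨v, hv, hv0, hv1⟩ := h2 x hx y hy
      have h := hS' (Sum.inr 0) v hv
      have h3 : g (Sum.inr 0) v = x + y := by
        show v (em 0) + v (em 1) = x + y
        rw [hv0, hv1]
      rwa [h3] at h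
    have hmul : ∀ x ∈ S, ∀ y ∈ S, x * y ∈ S := by
      intro x hx y hy
      obtain ⟨v, hv, hv0, hv1⟩ := h2 x hx y hy
      have h := hS' (Sum.inr 1) v hv
      have h3 : g (Sum.inr 1) v = x * y := by
        show v (em 0) * v (em 1) = x * y
        rw [hv0, hv1]
      rwa [h3] at h
    have hstar : ∀ x ∈ S, star x ∈ S := by
      intro x hx
      exact hS' (Sum.inr 2) (fun _ => x) fun _ => hx
    have hsmul : ∀ (c : ℂ), ∀ x ∈ S, c • x ∈ S := by
      intro c x hx
      exact hS' (Sum.inl c) (fun _ => x) fun _ => hx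
    have hzero : (0 : N) ∈ S := by
      obtain ⟨x, hx⟩ := hne
      exact hS' (Sum.inr 3) (fun _ => x) fun _ => hx
    have hcl : IsClosed S := by
      apply isClosed_of_closure_subset
      intro a ha
      obtain ⟨x, hxS, hxa⟩ := mem_closure_iff_seq_limit.1 ha
      let v : χ.out → N := Function.extend em x (fun _ => x 0)
      have hvx : ∀ n, v (em n) = x n := fun n => em.injective.extend_apply x _ n
      have hvS : ∀ i, v i ∈ S := by
        intro i
        by_cases h : ∃ n, em n = i
        · obtain ⟨n, rfl⟩ := h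
          rw [hvx]; exact hxS n
        · have : v i = x 0 := Function.extend_apply' x (fun _ => x 0) i h
          rw [this]; exact hxS 0
      have h := hS' (Sum.inr 4) v hvS
      have hlim : Filter.Tendsto (fun n => v (em n)) Filter.atTop (nhds a) := by
        simpa only [hvx] using hxa
      have hex : ∃ a, Filter.Tendsto (fun n => v (em n)) Filter.atTop (nhds a) := ⟨a, hlim⟩
      have h3 : g (Sum.inr 4) v = a := by
        show (if h : ∃ a, Filter.Tendsto (fun n => v (em n)) Filter.atTop (nhds a)
          then h.choose else 0) = a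
        rw [dif_pos hex]
        exact tendsto_nhds_unique hex.choose_spec hlim
      rwa [h3] at h
    exact ⟨⟨{ carrier := S
              add_mem' := fun {x y} hx hy => hadd x hx y hy
              mul_mem' := fun {x y} hx hy => hmul x hx y hy
              zero_mem' := hzero
              smul_mem' := fun c x hx => hsmul c x hx
              star_mem' := fun {x} hx => hstar x hx }, hcl⟩, rfl⟩

end Pool.Agent.UNA
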