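import Pool.Agent.UNA.D0

set_option autoImplicit false
open Cardinal

namespace Pool.Agent.UNA

open Pool.Agent.MP_162c54_lc (IsNuclear)

universe u

open CSub

/-- The functions whose closure points are nuclear.

Proof. `em : ℕ ↪ χ.out`.  By nuclearity (`isNuclear_iff`) choose for all `k m : ℕ`, `a : Fin k → N` data
`n, φ, ψ` with `CPC1 φ`, `CPC2 ψ` and `‖ψ (φ (a i)) - a i‖ < 1 / (m + 1)` for all `i`.
Index type `ι := ULift ((ℕ × ℕ × ℕ × ℕ) ⊕ (ℕ × ℕ × ℕ × (ℕ → ℕ → ℕ → ℂ)))`, `#ι ≤ lift 𝔠`.
For `v : χ.out → N` let `a i := v (em i)` for `i < k`.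
* `inl (k, m, p, q)`: if `p < n` and `q < n` then `ψ (Matrix.single p q 1)`, else `0`-ish
  (`v (em 0)` is also fine);
* `inr (k, m, r, Z)`: with `Y i : Matrix (Fin n) (Fin n) ℂ := Matrix.of fun p q => Z i p q` and
  `y i := v (em (k + i))` (`i : Fin r`) the element `s` chosen from `CPC2.pos ψ r Y y`.
Let `T : CSub N` be closed under these functions, `F : Finset T.T`, `ε > 0`.  Take `k := F.card`,
`a` an enumeration of `F` (`F.equivFin`), `m` with `1 / (m + 1) < ε`, and `n, φ, ψ` for `(k, m, val ∘ a)`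
(use a `v` with `v (em i) = val (a i)` for `i < k`, and `0 ∈ T.S` elsewhere; all values in `T.S`).
`φ' := φ ∘ T.incl` is `CPC1` (apply `CPC1` of `φ` to `val ∘ x`; `‖val a‖ = ‖a‖`).
`ψ M ∈ T.S` for all `M` since `M = ∑ M p q • single p q 1` (`Matrix.matrix_eq_sum_single`), so
`ψ' M := T.mk' (ψ M) _` is linear; `CPC2.contr` clear; `CPC2.pos`: for `Y, y` the element `s` chosen
for `v` with `v (em i) = val (a i)` (`i < k`), `v (em (k + i)) = val (y i)` (`i < r`) lies in `T.S`
(note that the data `n, φ, ψ` only depend on the values `a`, so they are the same). -/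
theorem exists_nuc_funs (χ : Cardinal.{u}) (hχ : ℵ₀ ≤ χ) (N : Type u) [NonUnitalCStarAlgebra N]
    (hN : IsNuclear N) :
    ∃ (ι : Type u) (f : ι → (χ.out → N) → N),
      #ι ≤ Cardinal.lift.{u} Cardinal.continuum.{0} ∧
      ∀ T : CSub N, (∀ i v, (∀ x, v x ∈ T.S) → f i v ∈ T.S) → IsNuclear T.T := by
  classical
  -- an embedding of `ℕ`
  have hem : Nonempty (ℕ ↪ χ.out) := by
    have h1 : Cardinal.lift.{u} #ℕ ≤ Cardinal.lift.{0} #χ.out := by
      rw [Cardinal.mk_out, Cardinal.mk_nat, Cardinal.lift_aleph0, Cardinal.lift_id'.{0, u}]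
      exact hχ
    exact Cardinal.lift_mk_le'.1 h1
  obtain ⟨em⟩ := hem
  have hk : ∀ (k m : ℕ) (a : Fin k → N), ∃ (n : ℕ)
      (φ : N →ₗ[ℂ] Matrix (Fin n) (Fin n) ℂ) (ψ : Matrix (Fin n) (Fin n) ℂ →ₗ[ℂ] N),
      CPC1 φ ∧ CPC2 ψ ∧ ∀ i, ‖ψ (φ (a i)) - a i‖ < 1 / ((m : ℝ) + 1) := by
    intro k m a
    obtain ⟨n, φ, ψ, h1, h2, h3⟩ := (isNuclear_iff N).1 hN (Finset.univ.image a)
      (1 / ((m : ℝ) + 1)) Nat.one_div_pos_of_nat
    exact ⟨n, φ, ψ, h1, h2, fun i => h3 (a i) (Finset.mem_image_of_mem a (Finset.mem_univ i))⟩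
  choose n φ ψ h1 h2 h3 using hk
  have hs : ∀ (k m : ℕ) (a : Fin k → N) (r : ℕ)
      (Y : Fin r → Matrix (Fin (n k m a)) (Fin (n k m a)) ℂ) (y : Fin r → N),
      ∃ s : N, ∑ i, ∑ j, star (y i) * ψ k m a (star (Y i) * Y j) * y j = star s * s :=
    fun k m a r Y y => (h2 k m a).pos r Y y
  choose s hs using hs
  let F1 : ∀ k : ℕ, ℕ → (Fin k → N) → ℕ → ℕ → N := fun k m a p q =>
    if h : p < n k m a ∧ q < n k m a then
      ψ k m a (Matrix.single (⟨p, h.1⟩ : Fin (n k m a)) (⟨q, h.2⟩ : Fin (n k m a)) (1 : ℂ)) else 0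
  let F2 : ∀ k : ℕ, ℕ → (Fin k → N) → ∀ r : ℕ, (ℕ → ℕ → ℕ → ℂ) → (Fin r → N) → N :=
    fun k m a r Z y =>
      s k m a r (fun i => Matrix.of fun p q : Fin (n k m a) => Z (i : ℕ) (p : ℕ) (q : ℕ)) y
  refine ⟨ULift.{u} ((ℕ × ℕ × ℕ × ℕ) ⊕ (ℕ × ℕ × ℕ × (ℕ → ℕ → ℕ → ℂ))),
    fun i v => match i.down with
      | Sum.inl (k, m, p, q) => F1 k m (fun i : Fin k => v (em (i : ℕ))) p q
      | Sum.inr (k, m, r, Z) => F2 k m (fun i : Fin k => v (em (i : ℕ))) r Z
          (fun i : Fin r => v (em (k + (i : ℕ)))), ?_, ?_⟩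
  · rw [Cardinal.mk_uLift]
    apply Cardinal.lift_le.2
    have e1 : #(ℕ → ℕ → ℕ → ℂ) = Cardinal.continuum := by
      simp [Cardinal.mk_complex]
    rw [Cardinal.mk_sum, Cardinal.lift_id, Cardinal.lift_id]
    have e2 : #(ℕ × ℕ × ℕ × ℕ) ≤ Cardinal.continuum := by
      simp [Cardinal.aleph0_le_continuum]
    have e3 : #(ℕ × ℕ × ℕ × (ℕ → ℕ → ℕ → ℂ)) ≤ Cardinal.continuum := by
      simp only [Cardinal.mk_prod, Cardinal.lift_id, e1, Cardinal.mk_nat]
      simp
    exact (add_le_add e2 e3).trans (by simp)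
  · intro T hT
    rw [isNuclear_iff]
    intro F ε hε
    obtain ⟨m, hm⟩ := exists_nat_one_div_lt hε
    let e := F.equivFin
    let a : Fin F.card → N := fun i => val ((e.symm i : F) : T.T)
    have ha : ∀ i, a i ∈ T.S := fun i => val_mem _
    -- extension of a sequence to `χ.out`
    have hext : ∀ w : ℕ → N, (∀ j, w j ∈ T.S) → ∀ x, Function.extend em w 0 x ∈ T.S := by
      intro w hw x
      by_cases hx : ∃ j, em j = x
      · obtain ⟨j, rfl⟩ := hx
        rw [em.injective.extend_apply]
        exact hw j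
      · rw [Function.extend_apply' _ _ _ hx]
        exact T.S.zero_mem
    have hsingle : ∀ p q : Fin (n F.card m a),
        ψ F.card m a (Matrix.single p q (1 : ℂ)) ∈ T.S := by
      intro p q
      let w : ℕ → N := fun j => if h : j < F.card then a ⟨j, h⟩ else 0
      have hw : ∀ j, w j ∈ T.S := by
        intro j
        show (if h : j < F.card then a ⟨j, h⟩ else 0) ∈ T.S
        split_ifs with h
        · exact ha _
        · exact T.S.zero_mem
      have h4 := hT (ULift.up (Sum.inl (F.card, m, (p : ℕ), (q : ℕ)))) (Function.extend em w 0)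
        (hext w hw)
      have h5 : (fun i : Fin F.card => Function.extend em w 0 (em (i : ℕ))) = a := by
        funext i
        rw [em.injective.extend_apply]
        exact dif_pos i.2
      have h6 : F1 F.card m (fun i : Fin F.card => Function.extend em w 0 (em (i : ℕ)))
        (p : ℕ) (q : ℕ) ∈ T.S := h4
      rw [h5] at h6
      have h7 : F1 F.card m a (p : ℕ) (q : ℕ) = ψ F.card m a (Matrix.single p q (1 : ℂ)) :=
        dif_pos ⟨p.2, q.2⟩
      rw [h7] at h6
      exact h6
    have hψ : ∀ M, ψ F.card m a M ∈ T.S := by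
      intro M
      rw [Matrix.matrix_eq_sum_single M, map_sum]
      refine sum_mem fun p _ => ?_
      rw [map_sum]
      refine sum_mem fun q _ => ?_
      have h4 : Matrix.single p q (M p q) = M p q • Matrix.single p q (1 : ℂ) := by
        rw [Matrix.smul_single, smul_eq_mul, mul_one]
      rw [h4, map_smul]
      exact T.S.smul_mem (M p q) (hsingle p q)
    let φ' : T.T →ₗ[ℂ] Matrix (Fin (n F.card m a)) (Fin (n F.card m a)) ℂ :=
      { toFun := fun x => φ F.card m a (val x)
        map_add' := fun x y => by rw [val_add, map_add]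
        map_smul' := fun c x => by rw [val_smul, map_smul, RingHom.id_apply] }
    let ψ' : Matrix (Fin (n F.card m a)) (Fin (n F.card m a)) ℂ →ₗ[ℂ] T.T :=
      { toFun := fun M => T.mk' (ψ F.card m a M) (hψ M)
        map_add' := fun x y => val_inj (by simp)
        map_smul' := fun c x => val_inj (by simp) }
    refine ⟨n F.card m a, φ', ψ', ⟨?_, ?_⟩, ⟨?_, ?_⟩, ?_⟩
    · intro r x
      exact (h1 F.card m a).pos r (fun i => val (x i))
    · intro x hx
      exact (h1 F.card m a).contr (val x) hx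
    · intro r Y y
      let w : ℕ → N := fun j => if h : j < F.card then a ⟨j, h⟩ else
        if h' : j - F.card < r then val (y ⟨j - F.card, h'⟩) else 0
      have hw : ∀ j, w j ∈ T.S := by
        intro j
        show (if h : j < F.card then a ⟨j, h⟩ else
          if h' : j - F.card < r then val (y ⟨j - F.card, h'⟩) else 0) ∈ T.S
        split_ifs with h h'
        · exact ha _
        · exact val_mem _
        · exact T.S.zero_mem
      let Z : ℕ → ℕ → ℕ → ℂ := fun i p q =>
        if h : i < r ∧ p < n F.card m a ∧ q < n F.card m a then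
          Y ⟨i, h.1⟩ ⟨p, h.2.1⟩ ⟨q, h.2.2⟩ else 0
      have h4 := hT (ULift.up (Sum.inr (F.card, m, r, Z))) (Function.extend em w 0) (hext w hw)
      have h5 : (fun i : Fin F.card => Function.extend em w 0 (em (i : ℕ))) = a := by
        funext i
        rw [em.injective.extend_apply]
        exact dif_pos i.2
      have h5' : (fun i : Fin r => Function.extend em w 0 (em (F.card + (i : ℕ)))) =
          fun i => val (y i) := by
        funext i
        rw [em.injective.extend_apply]
        have h8 : ¬ (F.card + (i : ℕ) < F.card) := by omega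
        have h9 : F.card + (i : ℕ) - F.card < r := by
          rw [Nat.add_sub_cancel_left]
          exact i.2
        show (if h : F.card + (i : ℕ) < F.card then a ⟨F.card + (i : ℕ), h⟩ else
          if h' : F.card + (i : ℕ) - F.card < r then val (y ⟨F.card + (i : ℕ) - F.card, h'⟩)
            else 0) = val (y i)
        rw [dif_neg h8, dif_pos h9]
        congr 2
        exact Fin.ext (Nat.add_sub_cancel_left _ _)
      have h6 : F2 F.card m (fun i : Fin F.card => Function.extend em w 0 (em (i : ℕ))) r Z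
        (fun i : Fin r => Function.extend em w 0 (em (F.card + (i : ℕ)))) ∈ T.S := h4
      rw [h5, h5'] at h6
      have h7 : (fun i : Fin r => Matrix.of fun p q : Fin (n F.card m a) =>
          Z (i : ℕ) (p : ℕ) (q : ℕ)) = Y := by
        funext i
        ext p q
        show Z (i : ℕ) (p : ℕ) (q : ℕ) = Y i p q
        exact dif_pos ⟨i.2, p.2, q.2⟩
      have h8 : s F.card m a r Y (fun i => val (y i)) ∈ T.S := by
        have h9 : F2 F.card m a r Z (fun i => val (y i)) =
            s F.card m a r Y (fun i => val (y i)) := by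
          show s F.card m a r (fun i : Fin r => Matrix.of fun p q : Fin (n F.card m a) =>
            Z (i : ℕ) (p : ℕ) (q : ℕ)) (fun i => val (y i)) = _
          rw [h7]
        rw [← h9]
        exact h6
      refine ⟨T.mk' _ h8, val_inj ?_⟩
      have h10 := hs F.card m a r Y (fun i => val (y i))
      rw [← T.incl_apply, map_sum]
      simp only [map_sum]
      exact h10
    · intro M hM
      exact (h2 F.card m a).contr M hM
    · intro x hx
      have h11 := h3 F.card m a (e ⟨x, hx⟩)
      have h12 : a (e ⟨x, hx⟩) = val x := by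
        show val ((e.symm (e ⟨x, hx⟩) : F) : T.T) = val x
        rw [Equiv.symm_apply_apply]
      rw [h12] at h11
      exact lt_trans h11 hm

end Pool.Agent.UNA
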