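import Pool.Agent.UNA.L1
import Pool.Agent.UNA.L3
import Pool.Agent.UNA.L4
import Pool.Agent.UNA.L5

set_option autoImplicit false
open Cardinal

namespace Pool.Agent.UNA

open Pool.Agent.MP_162c54_lc (IsNuclear)

universe u

/-- Loewenheim-Skolem: small closed subalgebras which are nuclear and existentially closed.

Proof. Take the families `(ι₁, f₁)`, `(ι₂, f₂)`, `(ι₃, f₃)` of `exists_ec_funs`, `exists_alg_funs`,
`exists_nuc_funs`, `ι := ι₁ ⊕ ι₂ ⊕ ι₃`, `f := Sum.elim f₁ (Sum.elim f₂ f₃)`, `Cl` from `exists_closure`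
(with `X0 := χ.out`), and `F X := ` the `CSub` with underlying set `Cl (insert 0 X)` (`choose` from
`exists_alg_funs`; rewrite along `(T.S : Set N) = Cl _`).  Cardinality: `#(insert 0 X) ≤ μ`,
`#ι ≤ μ` (`lift 𝔠 ≤ 2 ^ max χ (lift 𝔠) ≤ μ`), `#χ.out = χ` (`Cardinal.mk_out`). -/
theorem exists_LS (χ : Cardinal.{u}) (hχ : ℵ₀ ≤ χ) (N : Type u) [NonUnitalCStarAlgebra N]
    (hN : IsNuclear N) :
    ∃ F : Set N → CSub N, (∀ X Y, X ⊆ Y → ((F X).S : Set N) ⊆ (F Y).S) ∧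
      (∀ X, X ⊆ (F X).S) ∧ (∀ X, IsNuclear (F X).T) ∧
      (∀ X, ECset χ ((F X).S : Set N)) ∧
      ∀ (X : Set N) (μ : Cardinal.{u}), #X ≤ μ →
        2 ^ max χ (Cardinal.lift.{u} Cardinal.continuum.{0}) ≤ μ → μ ^ χ ≤ μ → #(F X).T ≤ μ := by
  obtain ⟨ι₁, f₁, h1c, h1⟩ := exists_ec_funs χ hχ N
  obtain ⟨ι₂, f₂, h2c, h2⟩ := exists_alg_funs χ hχ N
  obtain ⟨ι₃, f₃, h3c, h3⟩ := exists_nuc_funs χ hχ N hN
  obtain ⟨Cl, hmono, hsub, hcl, hcard⟩ := exists_closure (A := N) (X0 := χ.out)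
    (ι := ι₁ ⊕ ι₂ ⊕ ι₃) (Sum.elim f₁ (Sum.elim f₂ f₃))
  have hne : ∀ X : Set N, (Cl (insert 0 X)).Nonempty :=
    fun X => ⟨0, hsub _ (Set.mem_insert _ _)⟩
  have hT : ∀ X : Set N, ∃ T : CSub N, (T.S : Set N) = Cl (insert 0 X) := fun X =>
    h2 _ (hne X) (fun i v hv => hcl _ (Sum.inr (Sum.inl i)) v hv)
  choose F hF using hT
  have hm : ∀ (X : Set N) (x : N), x ∈ (F X).S ↔ x ∈ Cl (insert 0 X) := fun X x => by
    rw [← hF X]
    exact Iff.rfl
  refine ⟨F, ?_, ?_, ?_, ?_, ?_⟩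
  · intro X Y hXY
    rw [hF, hF]
    exact hmono _ _ (Set.insert_subset_insert hXY)
  · intro X
    rw [hF]
    exact (Set.subset_insert _ _).trans (hsub _)
  · intro X
    apply h3
    intro i v hv
    rw [hm]
    exact hcl _ (Sum.inr (Sum.inr i)) v (fun x => (hm X _).1 (hv x))
  · intro X
    rw [hF]
    exact h1 _ (hne X) (fun i v hv => hcl _ (Sum.inl i) v hv)
  · intro X μ hX h2μ hμχ
    have hχle : χ ≤ μ :=
      ((le_max_left _ _).trans (Cardinal.cantor _).le).trans h2μ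
    have hle : Cardinal.lift.{u} Cardinal.continuum.{0} ≤ μ :=
      ((le_max_right _ _).trans (Cardinal.cantor _).le).trans h2μ
    have hμ0 : ℵ₀ ≤ μ := hχ.trans hχle
    have hins : #(insert (0 : N) X : Set N) ≤ μ := by
      refine Cardinal.mk_insert_le.trans ?_
      calc #X + 1 ≤ μ + μ := add_le_add hX ((Cardinal.one_le_aleph0).trans hμ0)
        _ = μ := Cardinal.add_eq_self hμ0
    have hι : #(ι₁ ⊕ ι₂ ⊕ ι₃) ≤ μ := by
      rw [Cardinal.mk_sum, Cardinal.mk_sum]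
      simp only [Cardinal.lift_id]
      calc #ι₁ + (#ι₂ + #ι₃) ≤ μ + (μ + μ) :=
            add_le_add (h1c.trans h2μ) (add_le_add (h2c.trans hle) (h3c.trans hle))
        _ = μ := by rw [Cardinal.add_eq_self hμ0, Cardinal.add_eq_self hμ0]
    have hpow : μ ^ #χ.out ≤ μ := by rw [Cardinal.mk_out]; exact hμχ
    have h4 := hcard (insert 0 X) μ hμ0 hins hι hpow
    have h5 : #(F X).T = #(Cl (insert 0 X)) := by
      have h6 : #(F X).T = #((F X).S : Set N) := rfl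
      rw [h6, hF X]
    rw [h5]
    exact h4

end Pool.Agent.UNA
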