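import Pool.Agent.UNA.D0

set_option autoImplicit false
open Cardinal

namespace Pool.Agent.UNA

universe u

/-- From subsets to inclusions.

Proof. Given `t : Set S'.T` with `#t < χ`, apply `h` to `t' := CSub.val '' t` (`Cardinal.mk_image_le`):
`g : N → N`.  Put `g' x := if hx : g (val x) ∈ S.S then S.mk' (g (val x)) hx else 0`; for `x ∈ t` the
condition holds.  All the properties follow with `CSub.val_inj`, `CSub.val_add`, ... -/
theorem ecmap_inclu (χ : Cardinal.{u}) {N : Type u} [NonUnitalCStarAlgebra N] {S S' : CSub N}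
    (h : (S.S : Set N) ⊆ S'.S) (hS : ECset χ (S.S : Set N)) : ECmap χ (CSub.inclu h) := by
  classical
  intro t ht
  obtain ⟨g, h1, h2, h3, h4, h5, h6, h7⟩ := hS (CSub.val '' t)
    (lt_of_le_of_lt Cardinal.mk_image_le ht)
  have key : ∀ x ∈ t, CSub.val (if hx : g (CSub.val x) ∈ S.S then S.mk' (g (CSub.val x)) hx else 0)
      = g (CSub.val x) := by
    intro x hx
    have hx' : g (CSub.val x) ∈ S.S := h1 _ ⟨x, hx, rfl⟩
    rw [dif_pos hx', CSub.val_mk']
  refine ⟨fun x => if hx : g (CSub.val x) ∈ S.S then S.mk' (g (CSub.val x)) hx else 0,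
    ?_, ?_, ?_, ?_, ?_, ?_⟩
  · intro a ha
    refine CSub.val_inj ?_
    refine (key _ ha).trans ?_
    rw [CSub.val_inclu]
    exact h2 _ ⟨_, ha, CSub.val_inclu h a⟩ (CSub.val_mem a)
  · intro x hx y hy hxy
    refine CSub.val_inj (h3 _ ⟨x, hx, rfl⟩ _ ⟨y, hy, rfl⟩ ?_)
    rw [← key x hx, ← key y hy]
    exact congrArg CSub.val hxy
  · intro x hx y hy hxy
    refine CSub.val_inj ?_
    refine (key _ hxy).trans ?_
    refine Eq.trans ?_ (CSub.val_add _ _).symm
    rw [key x hx, key y hy, CSub.val_add]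
    exact h4 _ ⟨x, hx, rfl⟩ _ ⟨y, hy, rfl⟩ ⟨_, hxy, CSub.val_add x y⟩
  · intro x hx y hy hxy
    refine CSub.val_inj ?_
    refine (key _ hxy).trans ?_
    refine Eq.trans ?_ (CSub.val_mul _ _).symm
    rw [key x hx, key y hy, CSub.val_mul]
    exact h5 _ ⟨x, hx, rfl⟩ _ ⟨y, hy, rfl⟩ ⟨_, hxy, CSub.val_mul x y⟩
  · intro x hx hxy
    refine CSub.val_inj ?_
    refine (key _ hxy).trans ?_
    refine Eq.trans ?_ (CSub.val_star _).symm
    rw [key x hx, CSub.val_star]
    exact h6 _ ⟨x, hx, rfl⟩ ⟨_, hxy, CSub.val_star x⟩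
  · intro c x hx hxy
    refine CSub.val_inj ?_
    refine (key _ hxy).trans ?_
    refine Eq.trans ?_ (CSub.val_smul _ _).symm
    rw [key x hx, CSub.val_smul]
    exact h7 c _ ⟨x, hx, rfl⟩ ⟨_, hxy, CSub.val_smul c x⟩

end Pool.Agent.UNA
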