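import Pool.Agent.UNA.F1
import Pool.Agent.UNA.L6
import Pool.Agent.UNA.L7
import Pool.Agent.UNA.D5
import Pool.Agent.UNA.C1
import Pool.Agent.UNA.C2

set_option autoImplicit false
open scoped ComplexOrder
open Cardinal Filter

namespace Pool.Agent.UNA

open Pool.Agent.MP_162c54_lc (IsNuclear)

universe u

/-- Every nuclear algebra of density at most `κ` embeds into the limit of the iterated ultrapowers. -/
theorem embed_limit {κ χ : Cardinal.{u}} (hχ : ℵ₀ ≤ χ) (ν : ℕ → Cardinal.{u}) (hν : Monotone ν)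
    (hν2 : ∀ c < κ, ∃ n, c < ν n)
    (hν3 : ∀ n, 2 ^ max χ (Cardinal.lift.{u} Cardinal.continuum.{0}) ≤ ν n)
    (μ : ℕ → Cardinal.{u}) (hμ : ∀ n, μ n = 2 ^ ν n)
    (U : ∀ n, SU (Set (μ (n + 1)).out)) (hU : ∀ n, (U n).Fine χ) (M : CA.{u})
    (hM : ∀ (N : Type u) [NonUnitalCStarAlgebra N], IsNuclear N → #N ≤ μ 0 →
        ∃ f : N →⋆ₙₐ[ℂ] M.T, Function.Injective f)
    (L : Type u) [NonUnitalCStarAlgebra L] (k : ∀ n, (iterUP M U n).T →⋆ₙₐ[ℂ] L)
    (hL : IsLim (iterUP M U) (iterMap M U) L k)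
    (N : Type u) [NonUnitalCStarAlgebra N] (hN : IsNuclear N)
    (hd : ∃ D : Set N, Dense D ∧ #D ≤ κ) : ∃ f : N →⋆ₙₐ[ℂ] L, Function.Injective f := by
  obtain ⟨D, hD, hDc⟩ := hd
  obtain ⟨E, hE1, hE2, hE3⟩ := exists_filtration ν hν hν2 D hDc
  obtain ⟨F, hF1, hF2, hF3, hF4, hF5⟩ := exists_LS χ hχ N hN
  have hcard : ∀ n, #(F (E n)).T ≤ μ n := by
    intro n
    have h0 : ℵ₀ ≤ ν n := by
      refine le_trans ?_ (hν3 n)
      refine le_trans ?_ (Cardinal.cantor _).le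
      exact hχ.trans (le_max_left _ _)
    have h1 : ν n ≤ μ n := by
      rw [hμ]
      exact (Cardinal.cantor _).le
    refine hF5 (E n) (μ n) ((hE2 n).trans h1) ((hν3 n).trans h1) ?_
    rw [hμ, ← Cardinal.power_mul, Cardinal.mul_eq_left h0 ?_ ?_]
    · refine le_trans ?_ (hν3 n)
      refine le_trans ?_ (Cardinal.cantor _).le
      exact le_max_left _ _
    · exact (lt_of_lt_of_le Cardinal.aleph0_pos hχ).ne'
  set B : ℕ → CA.{u} := fun n => ⟨(F (E n)).T, inferInstance⟩ with hB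
  let j : ∀ n, (B n).T →⋆ₙₐ[ℂ] (B (n + 1)).T := fun n => CSub.inclu (hF1 _ _ (hE1 n))
  have hj : ∀ n, ECmap χ (j n) := fun n => ecmap_inclu χ _ (hF4 (E n))
  have he : ∀ n, ∃ e : (B (n + 1)).T → (μ (n + 1)).out, Function.Injective e := by
    intro n
    have h1 : #(F (E (n + 1))).T ≤ #(μ (n + 1)).out := by
      rw [Cardinal.mk_out]
      exact hcard (n + 1)
    obtain ⟨e⟩ := (Cardinal.le_def _ _).1 h1
    exact ⟨e, e.injective⟩
  choose e he using he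
  obtain ⟨h0, hh0⟩ := hM (F (E 0)).T (hF3 (E 0)) (hcard 0)
  obtain ⟨h, hh1, hh2⟩ := chain_embed χ B j hj e he U hU M h0 hh0
  have hlim : IsLim B j N (fun n => (F (E n)).incl) := by
    refine ⟨fun n => (F (E n)).incl_inj, fun n x => rfl, ?_⟩
    refine hD.mono fun x hx => ?_
    obtain ⟨n, hn⟩ := Set.mem_iUnion.1 (hE3 hx)
    exact Set.mem_iUnion.2 ⟨n, (F (E n)).mk' x (hF2 _ hn), rfl⟩
  exact limit_map B j _ hlim (fun n => (k n).comp (h n))
    (fun n => (hL.inj n).comp (hh1 n)) (fun n x => by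
      show k (n + 1) (h (n + 1) (j n x)) = k n (h n x)
      rw [hh2, hL.comp])

end Pool.Agent.UNA
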