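import Pool.Agent.UNA.D0

set_option autoImplicit false
open Cardinal

namespace Pool.Agent.UNA

universe u

private lemma L2_arrow {A B : Type u} {τ : Cardinal.{u}} (hτ : ℵ₀ ≤ τ) (hA : #A ≤ τ)
    (hB : #B ≤ 2 ^ τ) : #(A → B) ≤ 2 ^ τ := by
  have h : #(A → B) = #B ^ #A := by
    rw [Cardinal.mk_arrow, Cardinal.lift_id, Cardinal.lift_id]
  rw [h]
  calc #B ^ #A ≤ (2 ^ τ) ^ #A := Cardinal.power_le_power_right hB
    _ = 2 ^ (τ * #A) := by rw [Cardinal.power_mul]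
    _ ≤ 2 ^ (τ * τ) := Cardinal.power_le_power_left two_ne_zero (mul_le_mul' le_rfl hA)
    _ = 2 ^ τ := by rw [Cardinal.mul_eq_self hτ]

private lemma L2_prop {A : Type u} {τ : Cardinal.{u}} (hA : #A ≤ τ) : #(A → Prop) ≤ 2 ^ τ := by
  have h : #(A → Prop) = 2 ^ #A := Cardinal.mk_set
  rw [h]
  exact Cardinal.power_le_power_left two_ne_zero hA

private lemma L2_complex {B : Type u} {τ : Cardinal.{u}} (hτ : ℵ₀ ≤ τ)
    (hc : Cardinal.lift.{u} Cardinal.continuum.{0} ≤ τ)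
    (hB : #B ≤ 2 ^ τ) : #(ℂ → B) ≤ 2 ^ τ := by
  have h : #(ℂ → B) = #B ^ Cardinal.lift.{u} Cardinal.continuum.{0} := by
    rw [Cardinal.mk_arrow, Cardinal.mk_complex, Cardinal.lift_id']
  rw [h]
  calc #B ^ Cardinal.lift.{u} Cardinal.continuum.{0}
      ≤ (2 ^ τ) ^ Cardinal.lift.{u} Cardinal.continuum.{0} := Cardinal.power_le_power_right hB
    _ = 2 ^ (τ * Cardinal.lift.{u} Cardinal.continuum.{0}) := by rw [Cardinal.power_mul]
    _ ≤ 2 ^ (τ * τ) := Cardinal.power_le_power_left two_ne_zero (mul_le_mul' le_rfl hc)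
    _ = 2 ^ τ := by rw [Cardinal.mul_eq_self hτ]

private lemma L2_prod {A B : Type u} {τ : Cardinal.{u}} (hτ : ℵ₀ ≤ τ) (hA : #A ≤ 2 ^ τ)
    (hB : #B ≤ 2 ^ τ) : #(A × B) ≤ 2 ^ τ := by
  have h : #(A × B) = #A * #B := by
    rw [Cardinal.mk_prod, Cardinal.lift_id, Cardinal.lift_id]
  rw [h]
  have h2 : ℵ₀ ≤ (2 : Cardinal.{u}) ^ τ := hτ.trans (Cardinal.cantor τ).le
  calc #A * #B ≤ 2 ^ τ * 2 ^ τ := mul_le_mul' hA hB
    _ = 2 ^ τ := Cardinal.mul_eq_self h2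

/-- The number of relation types.

Proof. With `τ := max #X (lift 𝔠) ≥ ℵ₀` each of the five factors is of the form `(a set of size
≤ τ) → Prop` after currying: e.g. `ℂ → X → X → Prop` has cardinality
`((2 ^ #X) ^ #X) ^ lift #ℂ = 2 ^ (#X * #X * lift 𝔠) ≤ 2 ^ τ` (`Cardinal.mk_arrow`, `Cardinal.power_mul`,
`Cardinal.mk_Prop`, `Cardinal.mul_eq_self`, `Cardinal.power_le_power_left`); the product of five
cardinals `≤ 2 ^ τ` is `≤ 2 ^ τ`. -/
theorem mk_rel_le (X : Type u) :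
    #(Rel X) ≤ 2 ^ max #X (Cardinal.lift.{u} Cardinal.continuum.{0}) := by
  have hX : #X ≤ max #X (Cardinal.lift.{u} Cardinal.continuum.{0}) := le_max_left _ _
  have hc : Cardinal.lift.{u} Cardinal.continuum.{0} ≤
      max #X (Cardinal.lift.{u} Cardinal.continuum.{0}) := le_max_right _ _
  have hτ : ℵ₀ ≤ max #X (Cardinal.lift.{u} Cardinal.continuum.{0}) := by
    refine le_trans ?_ hc
    rw [Cardinal.lift_continuum]
    exact Cardinal.aleph0_le_continuum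
  have h1 : #(X → Prop) ≤ 2 ^ max #X (Cardinal.lift.{u} Cardinal.continuum.{0}) := L2_prop hX
  have h2 := L2_arrow hτ hX h1
  have h3 := L2_arrow hτ hX h2
  have h4 := L2_complex hτ hc h2
  exact L2_prod hτ h3 (L2_prod hτ h3 (L2_prod hτ h2 (L2_prod hτ h4 h2)))

end Pool.Agent.UNA
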