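import Pool.Agent.UNA.S2

set_option autoImplicit false
open scoped ComplexOrder
open Cardinal Filter

namespace Pool.Agent.UNA

universe u

variable {K : Type u} {A : K → CA.{u}}

/-- Density of the `c₀`-sum: if every `A k` has a dense set of size `≤ μ` and `#K ≤ μ` then so has the
`c₀`-sum.

Proof. Let `D k` be dense in `A k`.  `D := ` the set of all finite sums
`∑ k ∈ S, in0 A k (x k)` with `x k ∈ D k`; it is the range of a function on
`Finset (Σ k, D k)` or `(List (Σ k, D k))`: `l ↦ (l.map fun p => in0 A p.1 p.2).sum`, so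
`#D ≤ max ℵ₀ #(Σ k, D k) ≤ μ` (`Cardinal.mk_list_le_max`, `Cardinal.mk_sigma`, `Cardinal.sum_le_sum`).
Dense: by `exists_trunc` (for the singleton `{x}`) and approximation of the finitely many coordinates
(within `ε / 2`: `norm_sum_in0_le`; a finite sum over `S : Finset K` is the list sum over `S.toList`). -/
theorem c0_dens (μ : Cardinal.{u}) (hμ : ℵ₀ ≤ μ) (hK : #K ≤ μ)
    (hA : ∀ k, ∃ D : Set (A k).T, Dense D ∧ #D ≤ μ) :
    ∃ D : Set (c0 A).T, Dense D ∧ #D ≤ μ := by
  classical
  choose D hD hDc using hA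
  let f : List (Σ k, D k) → (c0 A).T :=
    fun l => (l.map fun p => in0 A p.1 (p.2 : (A p.1).T)).sum
  refine ⟨Set.range f, ?_, ?_⟩
  · intro x
    rw [Metric.mem_closure_iff]
    intro ε hε
    obtain ⟨S, hS⟩ := exists_trunc ({x} : Finset (c0 A).T) (half_pos hε)
    have hS' := hS x (Finset.mem_singleton_self x)
    have h1 : ∀ k, ∃ y ∈ D k, dist (ev0 A k x) y < ε / 2 :=
      fun k => Metric.mem_closure_iff.1 (hD k (ev0 A k x)) _ (half_pos hε)
    choose y hyD hy using h1
    refine ⟨∑ k ∈ S, in0 A k (y k), ⟨S.toList.map fun k => ⟨k, y k, hyD k⟩, ?_⟩, ?_⟩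
    · show ((S.toList.map fun k => (⟨k, y k, hyD k⟩ : Σ k, D k)).map
        fun p => in0 A p.1 (p.2 : (A p.1).T)).sum = _
      rw [List.map_map]
      exact Finset.sum_map_toList S fun k => in0 A k (y k)
    · rw [dist_comm, dist_eq_norm]
      have h2 : (∑ k ∈ S, in0 A k (y k)) - x
          = (∑ k ∈ S, in0 A k (y k - ev0 A k x)) + ((∑ k ∈ S, in0 A k (ev0 A k x)) - x) := by
        simp only [map_sub, Finset.sum_sub_distrib]
        abel
      have h3 : ‖∑ k ∈ S, in0 A k (y k - ev0 A k x)‖ ≤ ε / 2 :=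
        norm_sum_in0_le S _ (half_pos hε).le fun k _ => by
          rw [← dist_eq_norm, dist_comm]
          exact (hy k).le
      rw [h2]
      calc _ ≤ _ := norm_add_le _ _
        _ < ε / 2 + ε / 2 := add_lt_add_of_le_of_lt h3 hS'
        _ = ε := add_halves ε
  · refine Cardinal.mk_range_le.trans ((Cardinal.mk_list_le_max _).trans (max_le hμ ?_))
    rw [Cardinal.mk_sigma]
    refine (Cardinal.sum_le_sum _ (fun _ => μ) hDc).trans ?_
    rw [Cardinal.sum_const']
    exact (mul_le_mul' hK le_rfl).trans (Cardinal.mul_eq_self hμ).le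

end Pool.Agent.UNA
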