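import Pool.Agent.UNA.S4
import Pool.Agent.UNA.S5
import Pool.Agent.UNA.L2

set_option autoImplicit false
open scoped ComplexOrder
open Cardinal Filter

namespace Pool.Agent.UNA

open Pool.Agent.MP_162c54_lc (IsNuclear)
open Pool.Agent.MP_162c54_lc (mk_le_of_dense)

universe u

/-- The starting algebra.

Proof. `I := μ.out` (`#I = μ`), `K := {r : Rel I // ∃ (A : CA.{u}) (g : I → A.T), IsNuclear A.T ∧ #A.T ≤ μ ∧
rel g = r}`; choose `A r`, `g r`.  `#K ≤ #(Rel I) ≤ 2 ^ max μ (lift 𝔠) =: τ` (`mk_rel_le`,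
`Cardinal.mk_subtype_le`).  `M := c0 A` is nuclear (`c0_nuclear`), has a dense set of size
`≤ τ` (`c0_dens`, `D k := univ`, `μ ≤ τ`), so `#M ≤ τ ^ ℵ₀ = τ` (`mk_le_of_dense` in
`Pool/Agent/MP_162c54_lc/Main.lean`; `Cardinal.power_mul`, `max μ 𝔠 * ℵ₀ = max μ 𝔠`).
Let `N` be nuclear, `#N ≤ μ`; `N` is nonempty (`0`), so there is a surjection `g' : I → N`.  `r := rel g'`
is in `K` (witness `⟨N, _⟩`, `g'`).  With `g := g r : I → (A r).T`, `rel g = rel g'`, define
`h x := g i` for a chosen `i` with `g' i = x`.  It is an injective *-homomorphism: e.g.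
`x = g' i`, `y = g' j`, `x + y = g' k` (chosen indices) gives `g' i + g' j = g' k`, hence
`g i + g j = g k` (first component of `rel`).  Then `in0 A r ∘ h`. -/
theorem exists_start (μ : Cardinal.{u}) (hμ : ℵ₀ ≤ μ) :
    ∃ M : CA.{u}, IsNuclear M.T ∧
      #M.T ≤ 2 ^ max μ (Cardinal.lift.{u} Cardinal.continuum.{0}) ∧
      ∀ (N : Type u) [NonUnitalCStarAlgebra N], IsNuclear N → #N ≤ μ →
        ∃ f : N →⋆ₙₐ[ℂ] M.T, Function.Injective f := by
  classical
  let I : Type u := μ.out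
  have hI : #I = μ := Cardinal.mk_out μ
  let τ : Cardinal.{u} := 2 ^ max μ (Cardinal.lift.{u} Cardinal.continuum.{0})
  let K : Type u := {r : Rel I // ∃ (A : CA.{u}) (g : I → A.T),
    IsNuclear A.T ∧ #A.T ≤ μ ∧ rel g = r}
  choose A g hnuc hcard hrel using fun k : K => k.2
  have hμτ : μ ≤ τ := (le_max_left _ _).trans (Cardinal.cantor _).le
  have hK : #K ≤ τ := by
    have h1 := mk_rel_le I
    rw [hI] at h1
    exact (Cardinal.mk_subtype_le _).trans h1
  have hd : ∃ D : Set (c0 A).T, Dense D ∧ #D ≤ τ :=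
    c0_dens τ (hμ.trans hμτ) hK fun k => ⟨Set.univ, dense_univ, by
      rw [Cardinal.mk_univ]
      exact (hcard k).trans hμτ⟩
  have hM : #(c0 A).T ≤ τ := by
    obtain ⟨D, hD, hDc⟩ := hd
    refine (mk_le_of_dense D hD hDc).trans ?_
    show (2 ^ max μ (Cardinal.lift.{u} Cardinal.continuum.{0})) ^ (ℵ₀ : Cardinal.{u})
      ≤ 2 ^ max μ (Cardinal.lift.{u} Cardinal.continuum.{0})
    rw [← Cardinal.power_mul, Cardinal.mul_eq_left (hμ.trans (le_max_left _ _))
      (hμ.trans (le_max_left _ _)) Cardinal.aleph0_ne_zero]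
  refine ⟨c0 A, c0_nuclear hnuc, hM, ?_⟩
  intro N _ hN hNc
  have hne : Nonempty N := ⟨0⟩
  obtain ⟨g', hg'⟩ : ∃ g' : I → N, Function.Surjective g' := by
    have h1 : #N ≤ #I := by
      rw [hI]
      exact hNc
    rw [Cardinal.le_def] at h1
    obtain ⟨e⟩ := h1
    exact ⟨Function.invFun e, Function.invFun_surjective e.injective⟩
  let k : K := ⟨rel g', ⟨⟨N, inferInstance⟩, g', hN, hNc, rfl⟩⟩
  have hk : rel (g k) = rel g' := hrel k
  choose s hs using hg'
  have hadd : ∀ i j l, g' i + g' j = g' l → g k i + g k j = g k l := fun i j l h =>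
    (iff_of_eq (congrArg (fun r : Rel I => r.1 i j l) hk)).2 h
  have hmul : ∀ i j l, g' i * g' j = g' l → g k i * g k j = g k l := fun i j l h =>
    (iff_of_eq (congrArg (fun r : Rel I => r.2.1 i j l) hk)).2 h
  have hstar : ∀ i j, star (g' i) = g' j → star (g k i) = g k j := fun i j h =>
    (iff_of_eq (congrArg (fun r : Rel I => r.2.2.1 i j) hk)).2 h
  have hsmul : ∀ (c : ℂ) (i j), c • g' i = g' j → c • g k i = g k j := fun c i j h =>
    (iff_of_eq (congrArg (fun r : Rel I => r.2.2.2.1 c i j) hk)).2 h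
  have heq : ∀ i j, g k i = g k j → g' i = g' j := fun i j h =>
    (iff_of_eq (congrArg (fun r : Rel I => r.2.2.2.2 i j) hk)).1 h
  let h : N →⋆ₙₐ[ℂ] (A k).T :=
    { toFun := fun x => g k (s x)
      map_smul' := fun c x => (hsmul c (s x) (s (c • x)) (by rw [hs, hs])).symm
      map_zero' := by
        have h1 := hadd (s 0) (s 0) (s 0) (by rw [hs, add_zero])
        exact left_eq_add.1 h1.symm
      map_add' := fun x y => (hadd (s x) (s y) (s (x + y)) (by rw [hs, hs, hs])).symm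
      map_mul' := fun x y => (hmul (s x) (s y) (s (x * y)) (by rw [hs, hs, hs])).symm
      map_star' := fun x => (hstar (s x) (s (star x)) (by rw [hs, hs])).symm }
  have hinj : Function.Injective h := fun x y hxy => by
    have h1 := heq (s x) (s y) hxy
    rw [hs, hs] at h1
    exact h1
  exact ⟨(in0 A k).comp h, (in0_inj k).comp hinj⟩

end Pool.Agent.UNA
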