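import Pool.Agent.UNA.S4
import Pool.Agent.UNA.S5

set_option autoImplicit false
open scoped ComplexOrder
open Cardinal Filter

namespace Pool.Agent.UNA

open Pool.Agent.MP_162c54_lc (IsNuclear)
open Pool.Agent.MP_162c54_lc (CC pc CC_nuclear CC_dens pc_val)

universe u

/-- A nuclear algebra of density exactly `κ`.

Proof. One dimensional algebra in `Type u`: `CC ev` (`Pool/Agent/MP_162c54_lc/Comm.lean`) for
`ev : ULift.{u} ℕ → ℕ := fun _ => 0`; nuclear by `CC_nuclear ev` (`NucC.lean`, imported by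
`Regular.lean`), dense set of size `≤ #(ULift ℕ) = ℵ₀` by `CC_dens ev`, and `q := pc ev ⟨0⟩` satisfies
`q * q = q` (`pc_idem`), `q ≠ 0` (value `1` at `⟨0⟩`, `pc_val`).  `B := c0 (fun _ : κ.out => ⟨CC ev, _⟩)`,
`p i := in0 _ i q`.  For `i ≠ j`: coordinate `i` of `p i - p j` is `q` (`ev0_in0_same`,
`ev0_in0_ne`), and `‖q‖ ≥ 1` because `‖q‖ ≤ ‖q‖ * ‖q‖` and `q ≠ 0`; `norm_ev0_le`. -/
theorem exists_exact (κ : Cardinal.{u}) (hκ : ℵ₀ ≤ κ) :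
    ∃ B : CA.{u}, IsNuclear B.T ∧ (∃ D : Set B.T, Dense D ∧ #D ≤ κ) ∧
      ∃ p : κ.out → B.T, ∀ i j, i ≠ j → 1 ≤ ‖p i - p j‖ := by
  classical
  let ev : ULift.{u} ℕ → ℕ := fun _ => 0
  let C : CA.{u} := ⟨CC ev, inferInstance⟩
  let A : κ.out → CA.{u} := fun _ => C
  have hC : IsNuclear C.T := CC_nuclear ev
  have hCd : ∃ D : Set C.T, Dense D ∧ #D ≤ κ := by
    obtain ⟨D, hD, hDc⟩ := CC_dens ev
    refine ⟨D, hD, hDc.trans ?_⟩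
    rw [Cardinal.mk_uLift, Cardinal.mk_nat, Cardinal.lift_aleph0]
    exact hκ
  refine ⟨c0 A, c0_nuclear fun _ => hC,
    c0_dens κ hκ (Cardinal.mk_out κ).le fun _ => hCd, fun i => in0 A i (pc ev ⟨0⟩), ?_⟩
  intro i j hij
  have h0 : (1 : ℝ) ≤ ‖pc ev ⟨0⟩‖ := by
    have h1 : (pc ev ⟨0⟩).val ⟨0⟩ = 1 := by
      rw [pc_val, if_pos le_rfl]
    calc (1 : ℝ) = ‖((pc ev ⟨0⟩).val ⟨0⟩ : ℂ)‖ := by rw [h1, norm_one]
      _ ≤ ‖(pc ev ⟨0⟩).val‖ := lp.norm_apply_le_norm ENNReal.top_ne_zero _ _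
  have h2 : ev0 A i (in0 A i (pc ev ⟨0⟩) - in0 A j (pc ev ⟨0⟩)) = pc ev ⟨0⟩ := by
    rw [map_sub, ev0_in0_same, ev0_in0_ne hij, sub_zero]
  have h3 := norm_ev0_le i (in0 A i (pc ev ⟨0⟩) - in0 A j (pc ev ⟨0⟩))
  rw [h2] at h3
  exact h0.trans h3

end Pool.Agent.UNA
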