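import Pool.Agent.UNA.U1

set_option autoImplicit false
open scoped ComplexOrder
open Cardinal Filter

namespace Pool.Agent.UNA

universe u

/-- `mk` as an additive homomorphism. -/
noncomputable def u3_mkHom {J : Type u} (U : SU J) (M : Type u) [NonUnitalCStarAlgebra M] :
    (J → M) →+ UP U M where
  toFun f := UP.mk U f
  map_zero' := rfl
  map_add' _ _ := rfl

lemma u3_mk_sum {J : Type u} {U : SU J} {M : Type u} [NonUnitalCStarAlgebra M] {ι : Type*}
    (s : Finset ι) (f : ι → J → M) :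
    ∑ i ∈ s, UP.mk U (f i) = UP.mk U (fun j => ∑ i ∈ s, f i j) := by
  have h := map_sum (u3_mkHom U M) f s
  have h1 : (∑ i ∈ s, f i) = (fun j => ∑ i ∈ s, f i j) := by
    funext j
    rw [Finset.sum_apply]
  rw [h1] at h
  exact h.symm

/-- A family of completely positive contractions `ψ j : M_n → M` induces one into the ultrapower:
`Ψ T = [j ↦ ψ j T]`.

Proof. Linear by `rfl`-type lemmas `UP.mk_add`, `UP.mk_smul` (map_add pointwise).  `CPC2.pos`: given
`Y` and `y : Fin m → UP U M` choose representatives `f i` of `y i`; for a.e. `j` there is `s j : M` with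
`∑ i, ∑ k, star (f i j) * ψ j (star (Y i) * Y k) * f k j = star (s j) * s j` (`choose!` / classical
`if` to define `s`); then `mk U s` works, using a lemma `mk` commutes with finite sums (prove it by
`Finset.induction` or via `map_sum` for the additive hom `f ↦ mk U f`).
`CPC2.contr`: `‖mk U (fun j => ψ j T)‖` is the a.e. value of `‖ψ j T‖ ≤ 1` (`UP.norm_mk`). -/
theorem up_psi {J : Type u} {U : SU J} {M : Type u} [NonUnitalCStarAlgebra M] {n : ℕ}
    (ψ : J → (Matrix (Fin n) (Fin n) ℂ →ₗ[ℂ] M)) (h : ∀ᶠ j in U.F, CPC2 (ψ j)) :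
    ∃ Ψ : Matrix (Fin n) (Fin n) ℂ →ₗ[ℂ] UP U M, CPC2 Ψ ∧
      ∀ T, Ψ T = UP.mk U (fun j => ψ j T) := by
  classical
  let Ψ : Matrix (Fin n) (Fin n) ℂ →ₗ[ℂ] UP U M :=
    { toFun := fun T => UP.mk U (fun j => ψ j T)
      map_add' := fun S T => by
        rw [UP.mk_add]
        simp only [map_add]
      map_smul' := fun c T => by
        rw [RingHom.id_apply, UP.mk_smul]
        simp only [map_smul] }
  have hΨ : ∀ T, Ψ T = UP.mk U (fun j => ψ j T) := fun _ => rfl
  refine ⟨Ψ, ⟨?_, ?_⟩, hΨ⟩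
  · intro m Y y
    choose f hf using fun i => UP.mk_surj (y i)
    have hex : ∀ j, ∃ s : M, CPC2 (ψ j) →
        ∑ i, ∑ k, star (f i j) * ψ j (star (Y i) * Y k) * f k j = star s * s := by
      intro j
      by_cases hj : CPC2 (ψ j)
      · obtain ⟨s, hs⟩ := hj.pos m Y (fun i => f i j)
        exact ⟨s, fun _ => hs⟩
      · exact ⟨0, fun h => absurd h hj⟩
    choose s hs using hex
    refine ⟨UP.mk U s, ?_⟩
    have h1 : ∀ i k : Fin m, star (y i) * Ψ (star (Y i) * Y k) * y k =
        UP.mk U (fun j => star (f i j) * ψ j (star (Y i) * Y k) * f k j) := by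
      intro i k
      rw [← hf i, ← hf k, hΨ, UP.mk_star, UP.mk_mul, UP.mk_mul]
    simp only [h1]
    simp only [u3_mk_sum]
    rw [UP.mk_star, UP.mk_mul, UP.mk_eq]
    filter_upwards [h] with j hj
    exact hs j hj
  · intro T hT
    rw [hΨ]
    obtain ⟨j, h1, h2⟩ := ((UP.norm_mk (U := U) (fun j => ψ j T)).and h).exists
    exact le_of_eq_of_le h1.symm (h2.contr T hT)

end Pool.Agent.UNA
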