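import Pool.Agent.UNA.U2
import Pool.Agent.UNA.U3

set_option autoImplicit false
open scoped ComplexOrder
open Cardinal Filter

namespace Pool.Agent.UNA

universe u

/-- Canonical extension of a completely positive contraction to the ultrapower: `up_phi` with the
constant family (`(h f).exists` at the constant function). -/
theorem up_ext {J : Type u} (U : SU J) (M : Type u) [NonUnitalCStarAlgebra M] {n : ℕ}
    (φ : M →ₗ[ℂ] Matrix (Fin n) (Fin n) ℂ) (h : CPC1 φ) :
    ∃ Φ : UP U M →ₗ[ℂ] Matrix (Fin n) (Fin n) ℂ, CPC1 Φ ∧ ∀ a, Φ (UP.const U a) = φ a := by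
  obtain ⟨Φ, h1, h2⟩ := up_phi (U := U) (fun _ => φ) (Filter.Eventually.of_forall fun _ => h)
  refine ⟨Φ, h1, fun a => ?_⟩
  exact (h2 fun _ => a).exists.choose_spec

/-- Completely positive contractions stay so in the ultrapower: `up_psi` with the constant
family. -/
theorem up_lift {J : Type u} (U : SU J) (M : Type u) [NonUnitalCStarAlgebra M] {n : ℕ}
    (ψ : Matrix (Fin n) (Fin n) ℂ →ₗ[ℂ] M) (h : CPC2 ψ) :
    ∃ Ψ : Matrix (Fin n) (Fin n) ℂ →ₗ[ℂ] UP U M, CPC2 Ψ ∧ ∀ T, Ψ T = UP.const U (ψ T) := by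
  obtain ⟨Ψ, h1, h2⟩ := up_psi (U := U) (fun _ => ψ) (Filter.Eventually.of_forall fun _ => h)
  exact ⟨Ψ, h1, fun T => h2 T⟩

end Pool.Agent.UNA
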