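import Pool.Agent.UNA.V2

set_option autoImplicit false
open Cardinal Filter Set

namespace Pool.Agent.UNA

open Pool.Agent.MP_162c54_lc (KK)

universe u

/-- Solovay: `κ ^ ℵ₀ = κ` for `κ ≥ χ` of uncountable cofinality.

Proof. `≥` is `Cardinal.self_le_power`.  `≤`: `pow_le_of_cof (μ := κ)` (file
`MP_162c54_lc/RegularPow.lean`) reduces to `ν ^ ℵ₀ ≤ κ` for `ν < κ`.  If `ν < χ`: with
`ν' := max ν ℵ₀ < χ`, `ν ^ ℵ₀ ≤ (2 ^ ν') ^ ℵ₀ = 2 ^ ν' ≤ κ` (`h2`).  If `χ ≤ ν`: `μ := Order.succ ν ≤ κ` is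
regular (`Cardinal.isRegular_succ`, `ℵ₀ ≤ ν`), `χ ≤ μ`; the `SU` made from `hf (KK μ)` and `exists_cover`
give `A`; the map `(Σ α : KK μ, (ℕ → A α)) → (ℕ → KK μ)` is surjective, so
`μ ^ ℵ₀ = #(ℕ → KK μ) ≤ ∑ α, #(A α) ^ ℵ₀ ≤ μ * κ = κ` (each `#(A α) < χ`, so `#(A α) ^ ℵ₀ ≤ κ` by the
first case; compare the end of the proof of `pow_le_of_cof`). -/
theorem solovay_pow {κ χ : Cardinal.{u}} (hχ0 : ℵ₀ < χ) (hχ : χ ≤ κ) (h2 : ∀ ν < χ, 2 ^ ν ≤ κ)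
    (hf : ∀ I : Type u, #I ≤ κ → HasFine χ I) (hc : ℵ₀ < κ.ord.cof) :
    κ ^ (ℵ₀ : Cardinal.{u}) = κ := by
  have hκ0 : ℵ₀ ≤ κ := hχ0.le.trans hχ
  have hsmall : ∀ ν < χ, ν ^ (ℵ₀ : Cardinal.{u}) ≤ κ := by
    intro ν hν
    have h1 : max ν ℵ₀ < χ := max_lt hν hχ0
    calc ν ^ (ℵ₀ : Cardinal.{u}) ≤ (2 ^ (max ν ℵ₀)) ^ (ℵ₀ : Cardinal.{u}) :=
          Cardinal.power_le_power_right ((le_max_left _ _).trans (Cardinal.cantor _).le)
      _ = 2 ^ (max ν ℵ₀ * ℵ₀) := Cardinal.power_mul.symm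
      _ = 2 ^ (max ν ℵ₀) := by
          rw [Cardinal.mul_eq_left (le_max_right _ _) (le_max_right _ _) Cardinal.aleph0_ne_zero]
      _ ≤ κ := h2 _ h1
  refine le_antisymm (Pool.Agent.MP_162c54_lc.pow_le_of_cof le_rfl hκ0 hc ?_)
    (Cardinal.self_le_power _ Cardinal.one_le_aleph0)
  intro ν hν
  rcases lt_or_ge ν χ with h | h
  · exact hsmall ν h
  · have hμκ : Order.succ ν ≤ κ := Order.succ_le_of_lt hν
    have hν0 : ℵ₀ ≤ ν := hχ0.le.trans h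
    have hμ : (Order.succ ν).IsRegular := Cardinal.isRegular_succ hν0
    have hχμ : χ ≤ Order.succ ν := h.trans (Order.le_succ _)
    obtain ⟨U, hU1, hU2, hU3⟩ := hf (KK (Order.succ ν)) (by
      rw [Cardinal.mk_ord_toType]
      exact Order.succ_le_of_lt hν)
    obtain ⟨A, hA1, hA2⟩ := exists_cover hμ hχμ ⟨U, hU1⟩ ⟨hU2, hU3⟩
    have hsurj : Function.Surjective (fun p : (Σ α : KK (Order.succ ν), (ℕ → A α)) =>
        (fun m => (p.2 m).1 : ℕ → KK (Order.succ ν))) := by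
      intro g
      obtain ⟨α, hα⟩ := hA2 g
      exact ⟨⟨α, fun m => ⟨g m, hα m⟩⟩, rfl⟩
    have h1 := Cardinal.mk_le_of_surjective hsurj
    rw [Cardinal.mk_arrow, Cardinal.mk_nat, Cardinal.lift_aleph0, Cardinal.lift_uzero,
      Cardinal.mk_ord_toType, Cardinal.mk_sigma] at h1
    have h3 : ∀ b : KK (Order.succ ν), #(ℕ → A b) ≤ κ := by
      intro b
      rw [Cardinal.mk_arrow, Cardinal.mk_nat, Cardinal.lift_aleph0, Cardinal.lift_uzero]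
      exact hsmall _ (hA1 b)
    have h4 : Order.succ ν ^ (ℵ₀ : Cardinal.{u}) ≤ κ := by
      refine h1.trans ((Cardinal.sum_le_sum _ _ h3).trans ?_)
      rw [Cardinal.sum_const, Cardinal.lift_id, Cardinal.lift_id, Cardinal.mk_ord_toType]
      exact (mul_le_mul_left hμκ κ).trans (Cardinal.mul_eq_self hκ0).le
    exact (Cardinal.power_le_power_right (Order.le_succ ν)).trans h4

end Pool.Agent.UNA
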