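import Pool.Agent.UNA.F2
import Pool.Agent.UNA.D8
import Pool.Agent.UNA.U5
import Pool.Agent.UNA.S6
import Pool.Agent.UNA.S7
import Pool.Agent.UNA.V3

set_option autoImplicit false
open scoped ComplexOrder
open Cardinal Filter

namespace Pool.Agent.UNA

open Pool.Agent.MP_162c54_lc (IsNuclear ExistsUniversalNuclear NoNuclearContainsAll)

universe u

/-- An algebra containing an algebra of density exactly `κ` has density at least `κ`.

Proof. `f : B →⋆ₙₐ[ℂ] L` injective is isometric, so `q i := f (p i)` satisfies `1 ≤ ‖q i - q j‖` for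
`i ≠ j`; for a dense `D` choose `d i ∈ D` with `‖d i - q i‖ < 1 / 2`: injective. -/
theorem dens_lower {κ : Cardinal.{u}} {B L : Type u} [NonUnitalCStarAlgebra B]
    [NonUnitalCStarAlgebra L] (f : B →⋆ₙₐ[ℂ] L) (hf : Function.Injective f) (p : κ.out → B)
    (hp : ∀ i j, i ≠ j → 1 ≤ ‖p i - p j‖) (D : Set L) (hD : Dense D) : κ ≤ #D := by
  have hq : ∀ i : κ.out, ∃ d ∈ D, ‖d - f (p i)‖ < 1 / 2 := by
    intro i
    obtain ⟨d, hd, hdi⟩ := Metric.dense_iff.1 hD (f (p i)) (1 / 2) (by norm_num)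
    exact ⟨d, hdi, by rw [← dist_eq_norm]; exact hd⟩
  choose d hd1 hd2 using hq
  have hinj : Function.Injective (fun i => (⟨d i, hd1 i⟩ : D)) := by
    intro i j hij
    by_contra hne
    have h1 := hp i j hne
    have h2 : ‖f (p i) - f (p j)‖ = ‖p i - p j‖ := by
      rw [← map_sub, NonUnitalStarAlgHom.norm_map f hf]
    have h3 : d i = d j := congrArg Subtype.val hij
    have h4 : ‖f (p i) - f (p j)‖ < 1 := by
      have h5 : f (p i) - f (p j) = -(d i - f (p i)) + (d j - f (p j)) := by rw [h3]; abel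
      rw [h5]
      refine (norm_add_le _ _).trans_lt ?_
      rw [norm_neg]
      linarith [hd2 i, hd2 j]
    rw [h2] at h4
    linarith
  have h := Cardinal.mk_le_of_injective hinj
  rwa [Cardinal.mk_out] at h

/-- **Existence.** -/
theorem exists_universal {κ χ : Cardinal.{u}} (hκ : κ.IsStrongLimit) (h0 : ℵ₀ < κ)
    (hc : κ.ord.cof = ℵ₀) (hχκ : χ < κ) (hf : ∀ I : Type u, #I < κ → HasFine χ I) :
    ExistsUniversalNuclear κ := by
  set χ' := max χ ℵ₀ with hχ'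
  have hχ'0 : ℵ₀ ≤ χ' := le_max_right _ _
  have hχ'κ : χ' < κ := max_lt hχκ h0
  set θ : Cardinal.{u} := 2 ^ max χ' (Cardinal.lift.{u} Cardinal.continuum.{0}) with hθ
  have hθκ : θ < κ := hκ.two_power_lt (max_lt hχ'κ (cont_lt hκ h0))
  obtain ⟨ν', hν1, hν2, hν3⟩ := exists_cofinal hκ hc
  set ν : ℕ → Cardinal.{u} := fun n => max θ (ν' n) with hν
  have hνm : Monotone ν := fun m n h => max_le_max le_rfl (hν1 h)
  have hνκ : ∀ n, ν n < κ := fun n => max_lt hθκ (hν2 n)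
  have hνc : ∀ c < κ, ∃ n, c < ν n := fun c hc' => by
    obtain ⟨n, hn⟩ := hν3 c hc'
    exact ⟨n, hn.trans_le (le_max_right _ _)⟩
  set μ : ℕ → Cardinal.{u} := fun n => 2 ^ ν n with hμ
  have hμκ : ∀ n, μ n < κ := fun n => hκ.two_power_lt (hνκ n)
  have hμ0 : ℵ₀ ≤ μ 0 := by
    refine le_trans ?_ (Cardinal.cantor _).le
    refine le_trans ?_ (le_max_left _ _)
    refine le_trans ?_ (Cardinal.cantor _).le
    exact hχ'0.trans (le_max_left _ _)
  have hU : ∀ n, ∃ U : SU (Set (μ (n + 1)).out), U.Fine χ' := by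
    intro n
    obtain ⟨U, h1, h2, h3⟩ := hf (μ (n + 1)).out (by rw [Cardinal.mk_out]; exact hμκ _)
    exact ⟨⟨U, h1⟩, h2, h3.mono fun s hs => hs.trans_le (le_max_left _ _)⟩
  choose U hU using hU
  obtain ⟨M, hM1, hM2, hM3⟩ := exists_start (μ 0) hμ0
  have hMκ : #M.T < κ := hM2.trans_lt (hκ.two_power_lt (max_lt (hμκ 0) (cont_lt hκ h0)))
  have hJ : ∀ n, #(Set (μ (n + 1)).out) < κ := fun n => by
    rw [Cardinal.mk_set, Cardinal.mk_out]
    exact hκ.two_power_lt (hμκ _)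
  obtain ⟨L, _, k, hL⟩ := exists_limit (iterUP M U) (iterMap M U) (fun n => UP.const_inj)
  have hnuc : IsNuclear L := limit_nuclear hL (iter_nuclear M hM1 U)
    (fun m n φ hφ => up_ext (U m) (iterUP M U m).T φ hφ)
    (fun m n ψ hψ => up_lift (U m) (iterUP M U m).T ψ hψ)
  have hemb : ∀ (N : Type u) [NonUnitalCStarAlgebra N], IsNuclear N →
      (∃ D : Set N, Dense D ∧ #D ≤ κ) → ∃ f : N →⋆ₙₐ[ℂ] L, Function.Injective f := by
    intro N _ hN hd
    exact embed_limit hχ'0 ν hνm hνc (fun n => le_max_left _ _) μ (fun n => rfl) U hU M hM3 L k hL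
      N hN hd
  refine ⟨L, inferInstance, hnuc, ⟨_, hL.dense, ?_⟩, ?_, ?_⟩
  · have h1 := Cardinal.mk_iUnion_le_sum_mk_lift (f := fun n => Set.range (k n))
    rw [Cardinal.lift_uzero] at h1
    refine h1.trans ?_
    refine (Cardinal.sum_le_sum _ (fun _ => κ) fun n => ?_).trans ?_
    · exact Cardinal.mk_range_le.trans (iter_card hκ h0 M hMκ hJ U n).le
    · rw [Cardinal.sum_const, Cardinal.mk_nat, Cardinal.lift_aleph0, Cardinal.lift_uzero,
        Cardinal.mul_eq_right h0.le h0.le Cardinal.aleph0_ne_zero]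
  · intro D hD
    obtain ⟨B, hB1, hB2, p, hp⟩ := exists_exact κ h0.le
    obtain ⟨f, hf'⟩ := hemb B.T hB1 hB2
    exact dens_lower f hf' p hp D hD
  · intro N _ hN hd
    exact hemb N hN hd

/-- **Non-existence.** -/
theorem not_exists_universal {κ χ : Cardinal.{u}} (hχ0 : ℵ₀ < χ) (hχ : χ ≤ κ)
    (h2 : ∀ ν < χ, 2 ^ ν ≤ κ) (hf : ∀ I : Type u, #I ≤ κ → HasFine χ I)
    (hc : ℵ₀ < κ.ord.cof) : ¬ ExistsUniversalNuclear κ := by
  rintro ⟨A, _, hA, hd, -, hA2⟩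
  obtain ⟨B, _, hB1, -, hB2, hB3⟩ := Pool.Agent.MP_162c54_lc.misses_of_power κ
    (hχ0.le.trans hχ) (solovay_pow hχ0 hχ h2 hf hc) A hA hd
  exact hB3 (hA2 B hB1 hB2)

/-- **The dichotomy.** -/
theorem dichotomy {κ χ : Cardinal.{u}} (hχ0 : ℵ₀ < χ) (hf : ∀ I : Type u, #I ≤ κ → HasFine χ I)
    (hχ : χ ≤ κ) (h2 : ∀ ν < χ, 2 ^ ν ≤ κ)
    (hκ : (κ.IsStrongLimit ∧ χ < κ) ∨ ℵ₀ < κ.ord.cof) :
    ExistsUniversalNuclear κ ↔ κ.ord.cof = ℵ₀ := by
  have hκ0 : ℵ₀ < κ := hχ0.trans_le hχ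
  constructor
  · intro h
    by_contra hne
    have h3 : ℵ₀ ≤ κ.ord.cof := by
      rw [Ordinal.aleph0_le_cof_iff, Ordinal.one_lt_cof_iff]
      exact Cardinal.isSuccLimit_ord hκ0.le
    exact not_exists_universal hχ0 hχ h2 hf (lt_of_le_of_ne h3 (Ne.symm hne)) h
  · intro h
    rcases hκ with ⟨h3, h4⟩ | h3
    · exact exists_universal h3 hκ0 h h4 (fun I hI => hf I hI.le)
    · exact absurd h h3.ne'

end Pool.Agent.UNA
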