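import Pool.Agent.UNA.D0

set_option autoImplicit false
open Cardinal

namespace Pool.Agent.UNA

universe u

/-- The elements generated from `X` by the functions `f i`. -/
inductive L1Gen {A X0 ι : Type u} (f : ι → (X0 → A) → A) (X : Set A) : A → Prop
  | base (x : A) (h : x ∈ X) : L1Gen f X x
  | app (i : ι) (v : X0 → A) (h : ∀ x, L1Gen f X (v x)) : L1Gen f X (f i v)

/-- The arities of the trees. -/
def l1Ar {A : Type u} (X0 ι : Type u) (X : Set A) : (X ⊕ ι) → Type u :=
  Sum.elim (fun _ => PEmpty) (fun _ => X0)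

/-- One step of the evaluation of trees. -/
def l1Step {A X0 ι : Type u} (f : ι → (X0 → A) → A) (X : Set A) :
    (Σ a : X ⊕ ι, l1Ar X0 ι X a → A) → A
  | ⟨Sum.inl x, _⟩ => x.1
  | ⟨Sum.inr i, v⟩ => f i v

theorem l1_gen_sub {A X0 ι : Type u} (f : ι → (X0 → A) → A) (X : Set A) :
    {a | L1Gen f X a} ⊆ Set.range (WType.elim A (l1Step f X)) := by
  intro a ha
  induction ha with
  | base x h => exact ⟨WType.mk (Sum.inl ⟨x, h⟩) (fun e => PEmpty.elim e), rfl⟩
  | app i v _ ih =>
    choose t ht using ih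
    refine ⟨WType.mk (Sum.inr i) t, ?_⟩
    show f i (fun x => WType.elim A (l1Step f X) (t x)) = f i v
    congr 1
    funext x
    exact ht x

/-- Closing off under functions of a fixed infinite arity.

Proof. `Cl X` = the set of values of well-founded trees: let `α := X ⊕ ι`,
`β : α → Type u := fun a => Sum.elim (fun _ => PEmpty) (fun _ => X0) a` and
`ev : WType β → A := WType.elim A (fun p => match p with | ⟨Sum.inl x, _⟩ => x.1 | ⟨Sum.inr i, v⟩ => f i v)`,
`Cl X := Set.range ev`.  Monotone: by induction on the tree (or define `Cl X` as an inductive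
predicate `Gen f X : A → Prop` with constructors `base : x ∈ X → Gen x`,
`app : (∀ x, Gen (v x)) → Gen (f i v)`, and show `Gen ⊆ range ev`; this makes monotonicity a one line
induction; only the cardinality uses the trees).  Cardinality: `Cardinal.mk_range_le` and
`WType.cardinalMk_le_of_le'` with
`sum (fun a => μ ^ lift #(β a)) = #X * μ ^ 0 + #ι * μ ^ #X0 ≤ μ + μ * μ ≤ μ` (`ℵ₀ ≤ μ`). -/
theorem exists_closure {A X0 ι : Type u} (f : ι → (X0 → A) → A) :
    ∃ Cl : Set A → Set A, (∀ X Y, X ⊆ Y → Cl X ⊆ Cl Y) ∧ (∀ X, X ⊆ Cl X) ∧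
      (∀ X i (v : X0 → A), (∀ x, v x ∈ Cl X) → f i v ∈ Cl X) ∧
      ∀ (X : Set A) (μ : Cardinal.{u}), ℵ₀ ≤ μ → #X ≤ μ → #ι ≤ μ → μ ^ #X0 ≤ μ →
        #(Cl X) ≤ μ := by
  refine ⟨fun X => {a | L1Gen f X a}, ?_, ?_, ?_, ?_⟩
  · intro X Y hXY a ha
    induction ha with
    | base x h => exact L1Gen.base x (hXY h)
    | app i v _ ih => exact L1Gen.app i v ih
  · intro X x hx
    exact L1Gen.base x hx
  · intro X i v hv
    exact L1Gen.app i v hv
  · intro X μ h1 h2 h3 h4
    have h5 : #({a | L1Gen f X a} : Set A) ≤ #(Set.range (WType.elim A (l1Step f X))) :=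
      Cardinal.mk_le_mk_of_subset (l1_gen_sub f X)
    refine h5.trans (Cardinal.mk_range_le.trans ?_)
    refine WType.cardinalMk_le_of_le' ?_
    have h6 : #(X ⊕ ι) ≤ μ := by
      rw [Cardinal.mk_sum, Cardinal.lift_id, Cardinal.lift_id]
      exact (_root_.add_le_add h2 h3).trans (Cardinal.add_eq_self h1).le
    refine (Cardinal.sum_le_mk_mul_iSup _).trans ?_
    refine (mul_le_mul' h6 (ciSup_le' fun a => ?_)).trans (Cardinal.mul_eq_self h1).le
    rw [Cardinal.lift_id]
    rcases a with x | i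
    · have h7 : #(l1Ar X0 ι X (Sum.inl x)) = 0 := Cardinal.mk_pempty
      rw [h7, Cardinal.power_zero]
      exact Cardinal.one_le_aleph0.trans h1
    · exact h4

end Pool.Agent.UNA
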