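import Pool.Agent.UNA.U1

/-! The `c₀`-direct sum of a family of C*-algebras. -/

set_option autoImplicit false
open scoped ComplexOrder ENNReal
open Cardinal Filter

namespace Pool.Agent.UNA

universe u

variable {K : Type u} (A : K → CA.{u})

/-- the bounded sections -/
abbrev LP : Type u := lp (fun k => (A k).T) ∞

noncomputable instance : NonUnitalCStarAlgebra (LP A) where

lemma lp_ext {x y : LP A} (h : ∀ k, (x : ∀ k, (A k).T) k = (y : ∀ k, (A k).T) k) : x = y :=
  lp.ext (funext h)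

open Classical in
/-- the `k`-th copy -/
noncomputable def inj0 (k : K) : (A k).T →⋆ₙₐ[ℂ] LP A where
  toFun a := ⟨Pi.single k a, memℓp_infty ⟨‖a‖, by
    rintro _ ⟨l, rfl⟩
    show ‖(Pi.single k a : ∀ k, (A k).T) l‖ ≤ ‖a‖
    by_cases h : l = k
    · subst h
      rw [Pi.single_eq_same]
    · rw [Pi.single_eq_of_ne h, norm_zero]
      exact norm_nonneg _⟩⟩
  map_smul' c a := lp_ext A fun l => by
    show (Pi.single k (c • a) : ∀ k, (A k).T) l = c • (Pi.single k a : ∀ k, (A k).T) l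
    by_cases h : l = k
    · subst h
      rw [Pi.single_eq_same, Pi.single_eq_same]
    · rw [Pi.single_eq_of_ne h, Pi.single_eq_of_ne h, smul_zero]
  map_zero' := lp_ext A fun l => by
    show (Pi.single k 0 : ∀ k, (A k).T) l = 0
    rw [Pi.single_zero, Pi.zero_apply]
  map_add' a b := lp_ext A fun l => by
    show (Pi.single k (a + b) : ∀ k, (A k).T) l
      = (Pi.single k a : ∀ k, (A k).T) l + (Pi.single k b : ∀ k, (A k).T) l
    rw [Pi.single_add, Pi.add_apply]
  map_mul' a b := lp_ext A fun l => by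
    show (Pi.single k (a * b) : ∀ k, (A k).T) l
      = (Pi.single k a : ∀ k, (A k).T) l * (Pi.single k b : ∀ k, (A k).T) l
    by_cases h : l = k
    · subst h
      rw [Pi.single_eq_same, Pi.single_eq_same, Pi.single_eq_same]
    · rw [Pi.single_eq_of_ne h, Pi.single_eq_of_ne h, zero_mul]
  map_star' a := lp_ext A fun l => by
    show (Pi.single k (star a) : ∀ k, (A k).T) l = star ((Pi.single k a : ∀ k, (A k).T) l)
    by_cases h : l = k
    · subst h
      rw [Pi.single_eq_same, Pi.single_eq_same]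
    · rw [Pi.single_eq_of_ne h, Pi.single_eq_of_ne h, star_zero]

lemma inj0_same (k : K) (a : (A k).T) : (inj0 A k a : ∀ k, (A k).T) k = a := by
  classical
  show (Pi.single k a : ∀ k, (A k).T) k = a
  rw [Pi.single_eq_same]

lemma inj0_ne {k l : K} (h : l ≠ k) (a : (A k).T) : (inj0 A k a : ∀ k, (A k).T) l = 0 := by
  classical
  show (Pi.single k a : ∀ k, (A k).T) l = 0
  rw [Pi.single_eq_of_ne h]

/-- the finitely supported sections -/
noncomputable def fin0 : NonUnitalStarSubalgebra ℂ (LP A) where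
  carrier := {x | ∃ S : Finset K, ∀ k, k ∉ S → (x : ∀ k, (A k).T) k = 0}
  add_mem' := by
    classical
    rintro x y ⟨S, hS⟩ ⟨S', hS'⟩
    refine ⟨S ∪ S', fun k hk => ?_⟩
    rw [Finset.notMem_union] at hk
    rw [lp.coeFn_add, Pi.add_apply, hS k hk.1, hS' k hk.2, add_zero]
  zero_mem' := ⟨∅, fun _ _ => rfl⟩
  mul_mem' := by
    rintro x y ⟨S, hS⟩ -
    refine ⟨S, fun k hk => ?_⟩
    rw [lp.infty_coeFn_mul, Pi.mul_apply, hS k hk, zero_mul]
  smul_mem' := by
    rintro c x ⟨S, hS⟩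
    refine ⟨S, fun k hk => ?_⟩
    rw [lp.coeFn_smul, Pi.smul_apply, hS k hk, smul_zero]
  star_mem' := by
    rintro x ⟨S, hS⟩
    refine ⟨S, fun k hk => ?_⟩
    rw [lp.coeFn_star, Pi.star_apply, hS k hk, star_zero]

/-- the `c₀`-sum as a closed *-subalgebra -/
noncomputable def c0S : CSub (LP A) := ⟨(fin0 A).topologicalClosure,
  (fin0 A).isClosed_topologicalClosure⟩

/-- the `c₀`-sum -/
noncomputable def c0 : CA.{u} := ⟨(c0S A).T, inferInstance⟩

/-- an element of the `c₀`-sum as a bounded section -/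
noncomputable def c0.val {A : K → CA.{u}} (x : (c0 A).T) : LP A := CSub.val (S := c0S A) x

lemma c0.val_mem {A : K → CA.{u}} (x : (c0 A).T) : c0.val x ∈ (c0S A).S :=
  CSub.val_mem (S := c0S A) x

/-- coordinates -/
noncomputable def ev0 (k : K) : (c0 A).T →⋆ₙₐ[ℂ] (A k).T where
  toFun x := (c0.val x : ∀ k, (A k).T) k
  map_smul' _ _ := rfl
  map_zero' := rfl
  map_add' _ _ := rfl
  map_mul' x y := by
    show ((c0.val x * c0.val y : LP A) : ∀ k, (A k).T) k = _
    rw [lp.infty_coeFn_mul, Pi.mul_apply]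
  map_star' _ := rfl

/-- the copies in the `c₀`-sum -/
noncomputable def in0 (k : K) : (A k).T →⋆ₙₐ[ℂ] (c0 A).T where
  toFun a := (c0S A).mk' (inj0 A k a) ((fin0 A).le_topologicalClosure
    ⟨{k}, fun _ hl => inj0_ne A (fun h => hl (Finset.mem_singleton.2 h)) a⟩)
  map_smul' c a := CSub.val_inj (S := c0S A) (map_smul (inj0 A k) c a)
  map_zero' := CSub.val_inj (S := c0S A) (map_zero (inj0 A k))
  map_add' a b := CSub.val_inj (S := c0S A) (map_add (inj0 A k) a b)
  map_mul' a b := CSub.val_inj (S := c0S A) (map_mul (inj0 A k) a b)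
  map_star' a := CSub.val_inj (S := c0S A) (map_star (inj0 A k) a)

variable {A}

lemma c0_ext {x y : (c0 A).T} (h : ∀ k, ev0 A k x = ev0 A k y) : x = y :=
  CSub.val_inj (S := c0S A) (lp_ext A h)

lemma ev0_in0_same (k : K) (a : (A k).T) : ev0 A k (in0 A k a) = a := inj0_same A k a

lemma ev0_in0_ne {k l : K} (h : l ≠ k) (a : (A k).T) : ev0 A l (in0 A k a) = 0 := inj0_ne A h a

lemma in0_inj (k : K) : Function.Injective (in0 A k) := fun a b h => by
  rw [← ev0_in0_same k a, h, ev0_in0_same]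

lemma norm_ev0_le (k : K) (x : (c0 A).T) : ‖ev0 A k x‖ ≤ ‖x‖ :=
  lp.norm_apply_le_norm ENNReal.top_ne_zero (c0.val x) k

lemma c0_norm_le {x : (c0 A).T} {C : ℝ} (hC : 0 ≤ C) (h : ∀ k, ‖ev0 A k x‖ ≤ C) : ‖x‖ ≤ C :=
  lp.norm_le_of_forall_le (f := c0.val x) hC h

end Pool.Agent.UNA
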