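import Pool.Agent.UNA.D0

set_option autoImplicit false
open scoped ComplexOrder
open Cardinal Filter

namespace Pool.Agent.UNA

open Pool.Agent.MP_162c54_lc (IsNuclear)

universe u w

/-- Nuclearity with arbitrary finite index types. -/
theorem isNuclear_of_fintype {A : Type*} [NonUnitalCStarAlgebra A]
    (H : ∀ (F : Finset A) (ε : ℝ), 0 < ε → ∃ (J : Type w) (_ : Fintype J) (_ : DecidableEq J)
      (φ : A →ₗ[ℂ] Matrix J J ℂ) (ψ : Matrix J J ℂ →ₗ[ℂ] A), CPC1 φ ∧ CPC2 ψ ∧
      ∀ a ∈ F, ‖ψ (φ a) - a‖ < ε) : IsNuclear A := by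
  rw [isNuclear_iff]
  intro F ε hε
  obtain ⟨J, _, _, φ, ψ, hφ, hψ, happ⟩ := H F ε hε
  set e : Fin (Fintype.card J) ≃ J := (Fintype.equivFin J).symm with he
  have hsub : ∀ M N : Matrix J J ℂ, (star M * N).submatrix e e
      = star (M.submatrix e e) * N.submatrix e e := by
    intro M N
    rw [← Matrix.submatrix_mul_equiv _ _ _ e]
    rfl
  have hsub' : ∀ M N : Matrix (Fin (Fintype.card J)) (Fin (Fintype.card J)) ℂ,
      (star M * N).submatrix e.symm e.symm
      = star (M.submatrix e.symm e.symm) * N.submatrix e.symm e.symm := by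
    intro M N
    rw [← Matrix.submatrix_mul_equiv _ _ _ e.symm]
    rfl
  refine ⟨Fintype.card J,
    { toFun := fun a => (φ a).submatrix e e
      map_add' := fun a b => by rw [map_add]; rfl
      map_smul' := fun c a => by rw [map_smul]; rfl },
    { toFun := fun M => ψ (M.submatrix e.symm e.symm)
      map_add' := fun a b => by rw [← map_add]; rfl
      map_smul' := fun c a => by rw [← map_smul]; rfl }, ⟨?_, ?_⟩, ⟨?_, ?_⟩, ?_⟩
  · intro m x
    have h1 := (hφ.pos m x).submatrix (Prod.map id e : Fin m × Fin (Fintype.card J) → Fin m × J)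
    exact h1
  · intro a ha
    show (1 - star ((φ a).submatrix e e) * (φ a).submatrix e e).PosSemidef
    rw [← hsub]
    have h1 : (1 : Matrix (Fin (Fintype.card J)) (Fin (Fintype.card J)) ℂ)
        = (1 : Matrix J J ℂ).submatrix e e := by simp
    rw [h1]
    exact (hφ.contr a ha).submatrix e
  · intro m Y y
    obtain ⟨s, hs⟩ := hψ.pos m (fun i => (Y i).submatrix e.symm e.symm) y
    refine ⟨s, ?_⟩
    rw [← hs]
    refine Finset.sum_congr rfl fun i _ => Finset.sum_congr rfl fun j _ => ?_
    show star (y i) * ψ ((star (Y i) * Y j).submatrix e.symm e.symm) * y j = _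
    rw [hsub']
  · intro M hM
    show ‖ψ (M.submatrix e.symm e.symm)‖ ≤ 1
    apply hψ.contr
    rw [← hsub']
    have h1 : (1 : Matrix J J ℂ)
        = (1 : Matrix (Fin (Fintype.card J)) (Fin (Fintype.card J)) ℂ).submatrix e.symm e.symm := by
      simp
    rw [h1]
    exact hM.submatrix e.symm
  · intro a ha
    show ‖ψ (((φ a).submatrix e e).submatrix e.symm e.symm) - a‖ < ε
    have h1 : ((φ a).submatrix e e).submatrix e.symm e.symm = φ a := by
      ext i j
      simp
    rw [h1]
    exact happ a ha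

end Pool.Agent.UNA
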