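import Pool.Agent.UNA.S0

set_option autoImplicit false
open scoped ComplexOrder
open Cardinal Filter

namespace Pool.Agent.UNA

universe u

variable {K : Type u} {A : K → CA.{u}}

/-- Orthogonality of the copies (`c0_ext`, `ev0_in0_same`, `ev0_in0_ne`). -/
theorem in0_mul_in0 {k l : K} (h : k ≠ l) (a : (A k).T) (b : (A l).T) :
    in0 A k a * in0 A l b = 0 := by
  apply c0_ext
  intro m
  rw [map_mul, map_zero]
  by_cases hm : m = k
  · subst hm
    rw [ev0_in0_ne h, mul_zero]
  · rw [ev0_in0_ne hm, zero_mul]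

/-- coordinates of a finite sum of copies -/
theorem ev0_sum (S : Finset K) (x : ∀ k, (A k).T) (l : K) :
    ev0 A l (∑ k ∈ S, in0 A k (x k)) = by classical exact if l ∈ S then x l else 0 := by
  classical
  rw [map_sum]
  split_ifs with h
  · rw [Finset.sum_eq_single l]
    · exact ev0_in0_same l (x l)
    · intro k _ hk
      exact ev0_in0_ne (Ne.symm hk) (x k)
    · intro hl
      exact absurd h hl
  · apply Finset.sum_eq_zero
    intro k hk
    have hne : l ≠ k := fun e => h (e.symm ▸ hk)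
    exact ev0_in0_ne hne (x k)

/-- Truncation: for finitely many elements of the `c₀`-sum one finite set of coordinates suffices.

Proof. `c0.val x` is in the closure of `fin0 A`: take `y ∈ fin0 A` with `‖c0.val x - y‖ < ε / 2` and a finite
`S` outside which `y` vanishes; then `‖ev0 l x‖ = ‖(c0.val x - y) l‖ < ε / 2` for `l ∉ S`
(`lp.norm_apply_le_norm`).  Union over `x ∈ F`.  The difference `∑ k ∈ S, in0 k (ev0 k x) - x` has
coordinates `0` on `S` and `-ev0 l x` off `S` (`ev0_sum`), so `c0_norm_le` with `C = ε / 2`. -/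
theorem exists_trunc (F : Finset (c0 A).T) {ε : ℝ} (hε : 0 < ε) :
    ∃ S : Finset K, ∀ x ∈ F, ‖(∑ k ∈ S, in0 A k (ev0 A k x)) - x‖ < ε := by
  classical
  have key : ∀ x : (c0 A).T, ∃ S : Finset K, ∀ l, l ∉ S → ‖ev0 A l x‖ ≤ ε / 2 := by
    intro x
    have hx : c0.val x ∈ closure ((fin0 A : Set (LP A))) := c0.val_mem x
    obtain ⟨y, hy, hxy⟩ := Metric.mem_closure_iff.1 hx (ε / 2) (half_pos hε)
    obtain ⟨S, hS⟩ := hy
    refine ⟨S, fun l hl => ?_⟩
    have h1 : ‖((c0.val x - y : LP A) : ∀ k, (A k).T) l‖ ≤ ‖c0.val x - y‖ :=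
      lp.norm_apply_le_norm ENNReal.top_ne_zero (c0.val x - y) l
    have h2 : ((c0.val x - y : LP A) : ∀ k, (A k).T) l = ev0 A l x := by
      rw [lp.coeFn_sub, Pi.sub_apply, hS l hl, sub_zero]
      rfl
    rw [h2, ← dist_eq_norm] at h1
    exact h1.trans hxy.le
  choose S hS using key
  refine ⟨F.biUnion S, fun x hx => ?_⟩
  have h3 : ‖(∑ k ∈ F.biUnion S, in0 A k (ev0 A k x)) - x‖ ≤ ε / 2 := by
    apply c0_norm_le (half_pos hε).le
    intro l
    rw [map_sub, ev0_sum (F.biUnion S) (fun k => ev0 A k x) l]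
    split_ifs with h
    · rw [sub_self, norm_zero]
      exact (half_pos hε).le
    · rw [zero_sub, norm_neg]
      exact hS x l (fun hl => h (Finset.mem_biUnion.2 ⟨x, hx, hl⟩))
  exact h3.trans_lt (half_lt_self hε)

/-- The norm of a finite sum of copies. -/
theorem norm_sum_in0_le (S : Finset K) (x : ∀ k, (A k).T) {C : ℝ} (hC : 0 ≤ C)
    (h : ∀ k ∈ S, ‖x k‖ ≤ C) : ‖∑ k ∈ S, in0 A k (x k)‖ ≤ C := by
  classical
  apply c0_norm_le hC
  intro l
  rw [ev0_sum S x l]
  split_ifs with hl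
  · exact h l hl
  · rw [norm_zero]
    exact hC

end Pool.Agent.UNA
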