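import Pool.Agent.UNA.H1

set_option autoImplicit false
open scoped ComplexOrder Matrix.Norms.L2Operator
open Cardinal Filter

namespace Pool.Agent.UNA

universe u

section

variable {A : Type*} [NonUnitalCStarAlgebra A] {S : Type*} [Fintype S] [DecidableEq S]
  {n : S → ℕ} {B : S → Type*} [∀ k, NonUnitalCStarAlgebra (B k)]

/-- Block diagonal sum of completely positive contractions.

Proof. `φ a := Matrix.blockDiagonal' fun k => φ k (e k a)` (linear: `Matrix.blockDiagonal'_add`,
`Matrix.blockDiagonal'_smul`).  `CPC1.pos`: for `x : Fin m → A` the matrix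
`T (p, ⟨k, i⟩) (q, ⟨l, j⟩) = [k = l] φ k (star (e k (x p)) * e k (x q)) i j`; use
`Matrix.PosSemidef` by the quadratic form: Hermitian, and `star v ⬝ᵥ (T *ᵥ v) = ∑ k, (the form of the
matrix of φ k at v restricted to the k-th block) ≥ 0`.  (Alternative: `T` is a `submatrix` of
`Matrix.blockDiagonal'` of the positive semidefinite matrices of the `φ k`, reindexed by
`(p, ⟨k, i⟩) ↦ ⟨k, (p, i)⟩`; positivity of `blockDiagonal'`: search `PosSemidef` `blockDiagonal'`, or use
`Matrix.posSemidef_iff_eq_conjTranspose_mul_self` blockwise and `blockDiagonal'_mul`,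
`blockDiagonal'_conjTranspose`.)  `CPC1.contr`:
`1 - star (φ a) * φ a = blockDiagonal' (fun k => 1 - star (φ k _) * φ k _)`, `‖e k a‖ ≤ ‖a‖ ≤ 1`
(`NonUnitalStarAlgHom.norm_apply_le`). -/
theorem cpc1_block (e : ∀ k, A →⋆ₙₐ[ℂ] B k)
    (φ : ∀ k, B k →ₗ[ℂ] Matrix (Fin (n k)) (Fin (n k)) ℂ) (h : ∀ k, CPC1 (φ k)) :
    ∃ Φ : A →ₗ[ℂ] Matrix (Σ k, Fin (n k)) (Σ k, Fin (n k)) ℂ, CPC1 Φ ∧
      ∀ a, Φ a = Matrix.blockDiagonal' fun k => φ k (e k a) := by
  have hbd : ∀ {m : S → Type} [∀ k, Fintype (m k)] [∀ k, DecidableEq (m k)]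
      (M : ∀ k, Matrix (m k) (m k) ℂ), (∀ k, (M k).PosSemidef) →
      (Matrix.blockDiagonal' M).PosSemidef := by
    intro m _ _ M hM
    have h1 : ∀ k, ∃ B : Matrix (m k) (m k) ℂ, M k = B.conjTranspose * B := by
      intro k
      open scoped MatrixOrder in
      have h0 : (0 : Matrix (m k) (m k) ℂ) ≤ M k := (hM k).nonneg
      open scoped MatrixOrder in
      obtain ⟨B, hB⟩ := CStarAlgebra.nonneg_iff_eq_star_mul_self.mp h0
      exact ⟨B, hB⟩
    choose R hR using h1
    have h2 : Matrix.blockDiagonal' M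
        = (Matrix.blockDiagonal' R).conjTranspose * Matrix.blockDiagonal' R := by
      rw [Matrix.blockDiagonal'_conjTranspose, ← Matrix.blockDiagonal'_mul]
      apply congrArg
      funext k
      exact hR k
    rw [h2]
    exact Matrix.posSemidef_conjTranspose_mul_self _
  refine ⟨{ toFun := fun a => Matrix.blockDiagonal' fun k => φ k (e k a)
            map_add' := ?_
            map_smul' := ?_ }, ⟨?_, ?_⟩, fun a => rfl⟩
  · intro a b
    rw [← Matrix.blockDiagonal'_add]
    apply congrArg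
    funext k
    simp
  · intro c a
    rw [← Matrix.blockDiagonal'_smul]
    apply congrArg
    funext k
    simp
  · intro m x
    have h1 := hbd (fun k => Matrix.of (fun p q : Fin m × Fin (n k) =>
      φ k (star (e k (x p.1)) * e k (x q.1)) p.2 q.2)) (fun k => (h k).pos m (fun p => e k (x p)))
    have h2 := h1.submatrix (fun p : Fin m × (Σ k, Fin (n k)) =>
      (⟨p.2.1, (p.1, p.2.2)⟩ : Σ k, Fin m × Fin (n k)))
    have h3 : (Matrix.of (fun p q : Fin m × (Σ k, Fin (n k)) =>
        (Matrix.blockDiagonal' fun k => φ k (e k (star (x p.1) * x q.1))) p.2 q.2))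
        = (Matrix.blockDiagonal' fun k => Matrix.of (fun p q : Fin m × Fin (n k) =>
          φ k (star (e k (x p.1)) * e k (x q.1)) p.2 q.2)).submatrix
          (fun p : Fin m × (Σ k, Fin (n k)) =>
            (⟨p.2.1, (p.1, p.2.2)⟩ : Σ k, Fin m × Fin (n k)))
          (fun p : Fin m × (Σ k, Fin (n k)) =>
            (⟨p.2.1, (p.1, p.2.2)⟩ : Σ k, Fin m × Fin (n k))) := by
      ext p q
      obtain ⟨p, k, i⟩ := p
      obtain ⟨q, l, j⟩ := q
      rw [Matrix.of_apply, Matrix.submatrix_apply]
      by_cases hkl : k = l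
      · subst hkl
        show Matrix.blockDiagonal' _ _ _ = Matrix.blockDiagonal' _ _ _
        rw [Matrix.blockDiagonal'_apply_eq, Matrix.blockDiagonal'_apply_eq, Matrix.of_apply,
          map_mul, map_star]
      · show Matrix.blockDiagonal' _ _ _ = Matrix.blockDiagonal' _ _ _
        rw [Matrix.blockDiagonal'_apply_ne _ _ _ hkl, Matrix.blockDiagonal'_apply_ne _ _ _ hkl]
    show (Matrix.of (fun p q : Fin m × (Σ k, Fin (n k)) =>
        (Matrix.blockDiagonal' fun k => φ k (e k (star (x p.1) * x q.1))) p.2 q.2)).PosSemidef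
    rw [h3]
    exact h2
  · intro a ha
    have h1 : ∀ k, (1 - star (φ k (e k a)) * φ k (e k a)).PosSemidef := by
      intro k
      exact (h k).contr (e k a) ((NonUnitalStarAlgHom.norm_apply_le (e k) a).trans ha)
    have h2 := hbd (fun k => 1 - star (φ k (e k a)) * φ k (e k a)) h1
    have h3 : (Matrix.blockDiagonal' fun k => (1 - star (φ k (e k a)) * φ k (e k a)))
        = 1 - star (Matrix.blockDiagonal' fun k => φ k (e k a))
          * (Matrix.blockDiagonal' fun k => φ k (e k a)) := by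
      rw [Matrix.star_eq_conjTranspose, Matrix.blockDiagonal'_conjTranspose,
        ← Matrix.blockDiagonal'_mul, ← Matrix.blockDiagonal'_one, ← Matrix.blockDiagonal'_sub]
      rfl
    rw [h3] at h2
    exact h2

end

end Pool.Agent.UNA
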