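import Pool.Agent.UNA.H1

set_option autoImplicit false
open scoped ComplexOrder Matrix.Norms.L2Operator
open Cardinal Filter

namespace Pool.Agent.UNA

universe u

section

variable {A : Type*} [NonUnitalCStarAlgebra A] {S : Type*} [Fintype S] [DecidableEq S]
  {n : S → ℕ} {B : S → Type*} [∀ k, NonUnitalCStarAlgebra (B k)]

/-- the corner of a matrix at a block -/
def s3b_corner {S : Type*} (n : S → ℕ) (k : S) :
    Matrix (Σ k, Fin (n k)) (Σ k, Fin (n k)) ℂ →ₗ[ℂ] Matrix (Fin (n k)) (Fin (n k)) ℂ where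
  toFun T := T.submatrix (fun a => (⟨k, a⟩ : Σ k, Fin (n k))) (fun a => (⟨k, a⟩ : Σ k, Fin (n k)))
  map_add' _ _ := rfl
  map_smul' _ _ := rfl

lemma s3b_corner_apply {S : Type*} (n : S → ℕ) (k : S)
    (T : Matrix (Σ k, Fin (n k)) (Σ k, Fin (n k)) ℂ) (a b : Fin (n k)) :
    s3b_corner n k T a b = T ⟨k, a⟩ ⟨k, b⟩ := rfl

lemma s3b_corner_norm {S : Type*} [Fintype S] [DecidableEq S] (n : S → ℕ) (k : S)
    (T : Matrix (Σ k, Fin (n k)) (Σ k, Fin (n k)) ℂ) : ‖s3b_corner n k T‖ ≤ ‖T‖ := by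
  classical
  set I : Matrix (Σ k, Fin (n k)) (Fin (n k)) ℂ :=
    Matrix.of fun c a => if c = ⟨k, a⟩ then 1 else 0 with hI
  have h1 : Matrix.conjTranspose I * I = 1 := by
    ext a b
    rw [Matrix.mul_apply]
    simp only [hI, Matrix.conjTranspose_apply, Matrix.of_apply]
    by_cases hab : a = b
    · subst hab
      simp
    · rw [Matrix.one_apply_ne hab]
      refine Finset.sum_eq_zero fun c _ => ?_
      by_cases hc : c = ⟨k, a⟩
      · subst hc
        simp [hab]
      · simp [hc]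
  have h2 : s3b_corner n k T = Matrix.conjTranspose I * T * I := by
    ext a b
    rw [s3b_corner_apply, Matrix.mul_apply]
    simp only [Matrix.mul_apply, hI, Matrix.conjTranspose_apply, Matrix.of_apply]
    simp
  have h3 : ‖I‖ ≤ 1 := by
    rw [← MP_162c54_lc.posSemidef_one_sub_iff, h1, sub_self]
    exact Matrix.PosSemidef.zero
  have h4 : ‖Matrix.conjTranspose I‖ ≤ 1 := by rwa [Matrix.l2_opNorm_conjTranspose]
  rw [h2]
  calc ‖Matrix.conjTranspose I * T * I‖ ≤ ‖Matrix.conjTranspose I * T‖ * ‖I‖ :=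
        Matrix.l2_opNorm_mul _ _
    _ ≤ (‖Matrix.conjTranspose I‖ * ‖T‖) * ‖I‖ := by gcongr; exact Matrix.l2_opNorm_mul _ _
    _ ≤ (1 * ‖T‖) * 1 := by gcongr
    _ = ‖T‖ := by ring

/-- one row of a matrix, restricted to a block -/
def s3b_R {S : Type*} (n : S → ℕ) (k : S) (c : Σ k, Fin (n k))
    (Y : Matrix (Σ k, Fin (n k)) (Σ k, Fin (n k)) ℂ) : Matrix (Fin (n k)) (Fin (n k)) ℂ :=
  Matrix.of fun (i j : Fin (n k)) => if (i : ℕ) = 0 then Y c ⟨k, j⟩ else 0

lemma s3b_corner_star_mul {S : Type*} [Fintype S] [DecidableEq S] (n : S → ℕ) (k : S)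
    (Y Y' : Matrix (Σ k, Fin (n k)) (Σ k, Fin (n k)) ℂ) :
    s3b_corner n k (star Y * Y') =
      ∑ c : (Σ k, Fin (n k)), star (s3b_R n k c Y) * s3b_R n k c Y' := by
  ext a b
  rw [s3b_corner_apply, Matrix.mul_apply, Matrix.sum_apply]
  refine Finset.sum_congr rfl fun c _ => ?_
  rw [Matrix.mul_apply]
  have ha : 0 < n k := lt_of_le_of_lt (Nat.zero_le _) a.2
  rw [Finset.sum_eq_single (⟨0, ha⟩ : Fin (n k))]
  · simp [s3b_R, Matrix.star_apply]
  · intro i _ hi
    have hi' : (i : ℕ) ≠ 0 := fun h0 => hi (Fin.ext h0)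
    simp [s3b_R, Matrix.star_apply, hi']
  · intro h0
    exact absurd (Finset.mem_univ _) h0

/-- Sum of completely positive contractions on the diagonal blocks, with orthogonal ranges.

Proof. `Ψ T := ∑ k, g k (ψ k (T.submatrix (Sigma.mk k) (Sigma.mk k)))`.  `CPC2.contr`: the hypothesis
`hg` with `x k := ψ k (..)`, where the `k`-th corner of a matrix of operator norm `≤ 1` has operator norm
`≤ 1` (`subL_norm` in `Pool/Agent/MP_162c54_lc/NucG.lean` is this proof: corner `= Iᴴ * T * I`), so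
`‖ψ k _‖ ≤ 1` by `CPC2.norm_le`.  `CPC2.pos`: by `exists_star_mul_self_sum` (sums of elements
`star s * s` are of this form; `Model.lean`) it suffices to treat `T ↦ g k (ψ k (corner k T))` for one `k`.  Now
`corner k (star Y * Y') = ∑ c, star (R c Y) * R c Y'` over `c : Σ k, Fin (n k)` with
`R c Y := Matrix.of fun (i j : Fin (n k)) => if (i : ℕ) = 0 then Y c ⟨k, j⟩ else 0` (as
`subL_star_mul` in `NucG.lean`), so again by `exists_star_mul_self_sum` it suffices to find `s` with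
`∑ i, ∑ j, star (y i) * g k (ψ k (star (R c (Y i)) * R c (Y j))) * y j = star s * s` for
`y : Fin m → A`.  This needs the hypothesis `hp`: composition with the *-homomorphism `g k` keeps
`CPC2.pos`. -/
theorem cpc2_block (g : ∀ k, B k →⋆ₙₐ[ℂ] A)
    (ψ : ∀ k, Matrix (Fin (n k)) (Fin (n k)) ℂ →ₗ[ℂ] B k) (h : ∀ k, CPC2 (ψ k))
    (hp : ∀ (k : S) (m : ℕ) (Y : Fin m → Matrix (Fin (n k)) (Fin (n k)) ℂ) (y : Fin m → A),
      ∃ s : A, ∑ i, ∑ j, star (y i) * g k (ψ k (star (Y i) * Y j)) * y j = star s * s)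
    (hg : ∀ x : ∀ k, B k, (∀ k, ‖x k‖ ≤ 1) → ‖∑ k, g k (x k)‖ ≤ 1) :
    ∃ Ψ : Matrix (Σ k, Fin (n k)) (Σ k, Fin (n k)) ℂ →ₗ[ℂ] A, CPC2 Ψ ∧
      ∀ x : ∀ k, Matrix (Fin (n k)) (Fin (n k)) ℂ,
        Ψ (Matrix.blockDiagonal' x) = ∑ k, g k (ψ k (x k)) := by
  classical
  set Ψ : Matrix (Σ k, Fin (n k)) (Σ k, Fin (n k)) ℂ →ₗ[ℂ] A :=
    { toFun := fun T => ∑ k, g k (ψ k (s3b_corner n k T))
      map_add' := fun x y => by
        simp only [map_add]
        rw [Finset.sum_add_distrib]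
      map_smul' := fun c x => by
        simp only [map_smul, RingHom.id_apply]
        rw [Finset.smul_sum] } with hΨ
  have hΨa : ∀ T, Ψ T = ∑ k, g k (ψ k (s3b_corner n k T)) := fun _ => rfl
  refine ⟨Ψ, ⟨?_, ?_⟩, ?_⟩
  · have h1 : MP_162c54_lc.CP (fun T => ∑ k ∈ (Finset.univ : Finset S),
        g k (ψ k (s3b_corner n k T))) := by
      refine MP_162c54_lc.cp_sum Finset.univ
        (fun k T => g k (ψ k (s3b_corner n k T))) fun k _ => ?_
      intro m Y y
      have h2 : ∑ i, ∑ j, star (y i) * g k (ψ k (s3b_corner n k (star (Y i) * Y j))) * y j =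
          ∑ c : (Σ k, Fin (n k)), ∑ i, ∑ j,
            star (y i) * g k (ψ k (star (s3b_R n k c (Y i)) * s3b_R n k c (Y j))) * y j := by
        symm
        rw [Finset.sum_comm]
        refine Finset.sum_congr rfl fun i _ => ?_
        rw [Finset.sum_comm]
        refine Finset.sum_congr rfl fun j _ => ?_
        rw [s3b_corner_star_mul, map_sum, map_sum, Finset.mul_sum, Finset.sum_mul]
      show ∃ t : A, ∑ i, ∑ j, star (y i) * g k (ψ k (s3b_corner n k (star (Y i) * Y j))) * y j =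
        star t * t
      rw [h2]
      exact MP_162c54_lc.exists_star_mul_self_sum Finset.univ _ fun c _ =>
        hp k m (fun i => s3b_R n k c (Y i)) y
    exact h1
  · intro M hM
    rw [Matrix.star_eq_conjTranspose, MP_162c54_lc.posSemidef_one_sub_iff] at hM
    rw [hΨa]
    refine hg _ fun k => ?_
    exact ((h k).norm_le _).trans ((s3b_corner_norm n k M).trans hM)
  · intro x
    rw [hΨa]
    refine Finset.sum_congr rfl fun k _ => ?_
    congr 2
    ext i j
    exact Matrix.blockDiagonal'_apply_eq x k i j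

end

end Pool.Agent.UNA
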