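import Pool.Agent.UNA.S1
import Pool.Agent.UNA.S2
import Pool.Agent.UNA.S3
import Pool.Agent.UNA.S3b

set_option autoImplicit false
open scoped ComplexOrder
open Cardinal Filter

namespace Pool.Agent.UNA

open Pool.Agent.MP_162c54_lc (IsNuclear)

universe u

variable {K : Type u} {A : K → CA.{u}}

theorem s4_norm (S : Finset K) (x : ∀ k : {k // k ∈ S}, (A k.1).T) {C : ℝ} (hC : 0 ≤ C)
    (h : ∀ k, ‖x k‖ ≤ C) : ‖∑ k : {k // k ∈ S}, in0 A k.1 (x k)‖ ≤ C := by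
  classical
  set x' : ∀ k, (A k).T := fun k => if h : k ∈ S then x ⟨k, h⟩ else 0 with hx'
  have h1 : ∑ k : {k // k ∈ S}, in0 A k.1 (x k) = ∑ k ∈ S, in0 A k (x' k) := by
    rw [← Finset.sum_coe_sort S (fun k => in0 A k (x' k))]
    refine Finset.sum_congr rfl fun k _ => ?_
    have h2 : x' k.1 = x k := by
      rw [hx']
      exact dif_pos k.2
    rw [h2]
  rw [h1]
  refine norm_sum_in0_le S x' hC fun k hk => ?_
  have h2 : x' k = x ⟨k, hk⟩ := by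
    rw [hx']
    exact dif_pos hk
  rw [h2]
  exact h _

theorem s4_mul (k : K) (y z : (c0 A).T) (b : (A k).T) :
    star y * in0 A k b * z = in0 A k (star (ev0 A k y) * b * ev0 A k z) := by
  refine c0_ext fun l => ?_
  rw [map_mul, map_mul, map_star]
  by_cases h : l = k
  · subst h
    rw [ev0_in0_same, ev0_in0_same]
  · rw [ev0_in0_ne h, ev0_in0_ne h, mul_zero, zero_mul]

/-- The `c₀`-sum of nuclear algebras is nuclear.

Proof (`isNuclear_of_fintype`). Given `F`, `ε`: `S` from `exists_trunc F (ε / 2)`.  For `k ∈ S` (type `S`,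
`Fintype`, classical `DecidableEq`) nuclearity of `A k` for `F.image (ev0 A k)` and `ε / 4` gives
`n k, φ k, ψ k`.  `Φ` from `cpc1_block` with `e k := ev0 A k`, `Ψ` from `cpc2_block` with `g k := in0 A k`.
Its hypothesis `hp`: `star (y i) * in0 k b * y j = in0 k (star (ev0 k (y i)) * b * ev0 k (y j))`
(`c0_ext`, coordinates), so the sum is `in0 k (star s * s)` with `s` from `CPC2.pos (ψ k)` for
`ev0 k ∘ y`.  `hg`: `norm_sum_in0_le`.
`Ψ (Φ x) = ∑ k : S, in0 k (ψ k (φ k (ev0 k x)))`, so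
`‖Ψ (Φ x) - x‖ ≤ ‖∑ in0 k (ψ k (φ k (ev0 k x)) - ev0 k x)‖ + ‖∑ in0 k (ev0 k x) - x‖ < ε / 4 + ε / 2`
(`norm_sum_in0_le`; convert `∑ k : S` to `∑ k ∈ S` with `Finset.sum_coe_sort`-type lemmas or
`Finset.sum_attach`). -/
theorem c0_nuclear (hA : ∀ k, IsNuclear (A k).T) : IsNuclear (c0 A).T := by
  classical
  refine isNuclear_of_fintype fun F ε hε => ?_
  obtain ⟨S, hS⟩ := exists_trunc F (half_pos hε)
  have hA' : ∀ k : {k // k ∈ S}, ∃ (n : ℕ) (φ : (A k.1).T →ₗ[ℂ] Matrix (Fin n) (Fin n) ℂ)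
      (ψ : Matrix (Fin n) (Fin n) ℂ →ₗ[ℂ] (A k.1).T),
      CPC1 φ ∧ CPC2 ψ ∧ ∀ a ∈ F.image (ev0 A k.1), ‖ψ (φ a) - a‖ < ε / 4 := fun k =>
    (isNuclear_iff _).1 (hA k.1) _ _ (by positivity)
  choose n φ ψ hφ hψ happ using hA'
  obtain ⟨Φ, hΦ, hΦa⟩ := cpc1_block (S := {k // k ∈ S}) (B := fun k => (A k.1).T)
    (fun k => ev0 A k.1) φ hφ
  obtain ⟨Ψ, hΨ, hΨa⟩ := cpc2_block (S := {k // k ∈ S}) (B := fun k => (A k.1).T)
    (fun k => in0 A k.1) ψ hψ (by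
      intro k m Y y
      obtain ⟨s, hs⟩ := (hψ k).pos m Y (fun i => ev0 A k.1 (y i))
      refine ⟨in0 A k.1 s, ?_⟩
      rw [← map_star, ← map_mul, ← hs, map_sum]
      refine Finset.sum_congr rfl fun i _ => ?_
      rw [map_sum]
      refine Finset.sum_congr rfl fun j _ => ?_
      exact s4_mul k.1 (y i) (y j) _) (by
      intro x hx
      exact s4_norm S x zero_le_one hx)
  refine ⟨_, inferInstance, inferInstance, Φ, Ψ, hΦ, hΨ, fun a ha => ?_⟩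
  rw [hΦa, hΨa]
  have h1 : (∑ k : {k // k ∈ S}, in0 A k.1 (ψ k (φ k (ev0 A k.1 a)))) - a =
      (∑ k : {k // k ∈ S}, in0 A k.1 (ψ k (φ k (ev0 A k.1 a)) - ev0 A k.1 a)) +
        ((∑ k ∈ S, in0 A k (ev0 A k a)) - a) := by
    rw [← Finset.sum_coe_sort S (fun k => in0 A k (ev0 A k a))]
    simp only [map_sub]
    rw [Finset.sum_sub_distrib]
    abel
  rw [h1]
  have h2 : ‖∑ k : {k // k ∈ S}, in0 A k.1 (ψ k (φ k (ev0 A k.1 a)) - ev0 A k.1 a)‖ ≤ ε / 4 := by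
    refine s4_norm S (fun k => ψ k (φ k (ev0 A k.1 a)) - ev0 A k.1 a) (by positivity) fun k => ?_
    exact (happ k _ (Finset.mem_image_of_mem _ ha)).le
  have h3 := hS a ha
  have h4 := norm_add_le (∑ k : {k // k ∈ S}, in0 A k.1 (ψ k (φ k (ev0 A k.1 a)) - ev0 A k.1 a))
    ((∑ k ∈ S, in0 A k (ev0 A k a)) - a)
  linarith

end Pool.Agent.UNA
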