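import Pool.Agent.UNA.U1
import Pool.Agent.UNA.H1

set_option autoImplicit false
open scoped ComplexOrder Matrix.Norms.L2Operator
open Cardinal Filter

namespace Pool.Agent.UNA

universe u

/-- A family of completely positive contractions `φ j : M → M_n` (same `n`) induces one on the
ultrapower: `Φ [f]` is the almost everywhere constant value of `φ j (f j)`.

Proof. `ev_const` (file U1) applied to `j ↦ φ j (f j)` (values in `Matrix (Fin n) (Fin n) ℂ`, second
countable and T0 for the product topology; open scoped norms are only used for the estimates, the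
topology is the same up to defeq: if there is a clash, apply `ev_const` to each entry
`j ↦ φ j (f j) a b` in `ℂ` and intersect finitely many sets) gives for each class `x` a matrix `v x` with:
for every `f` with `mk U f = x`, `∀ᶠ j in U.F, φ j (f j) = v x` (two representatives agree a.e. by
`UP.mk_eq`).  `v` is linear: evaluate at one `j` in the intersection of the finitely many sets involved
(`Filter.Eventually.exists`).  `CPC1.pos`: for `x : Fin m → UP U M` choose representatives `f i`; for
a.e. `j` all of `φ j (star (f p j) * f q j) = v (star (x p) * x q)` (finitely many: `eventually_all`)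
and `CPC1 (φ j)` hold, so the matrix is the one of `φ j`, hence positive semidefinite.
`CPC1.contr`: for `‖x‖ ≤ 1`, a.e. `‖f j‖ = ‖x‖ ≤ 1` (`UP.norm_mk`). -/
theorem up_phi {J : Type u} {U : SU J} {M : Type u} [NonUnitalCStarAlgebra M] {n : ℕ}
    (φ : J → (M →ₗ[ℂ] Matrix (Fin n) (Fin n) ℂ)) (h : ∀ᶠ j in U.F, CPC1 (φ j)) :
    ∃ Φ : UP U M →ₗ[ℂ] Matrix (Fin n) (Fin n) ℂ, CPC1 Φ ∧
      ∀ f : J → M, ∀ᶠ j in U.F, Φ (UP.mk U f) = φ j (f j) := by
  have key : ∀ f : J → M, ∃ v : Matrix (Fin n) (Fin n) ℂ, ∀ᶠ j in U.F, φ j (f j) = v := by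
    intro f
    choose v hv using fun a b : Fin n => ev_const U (fun j => φ j (f j) a b)
    refine ⟨Matrix.of v, ?_⟩
    have h1 : ∀ᶠ j in U.F, ∀ a b : Fin n, φ j (f j) a b = v a b := by
      rw [eventually_all]
      intro a
      rw [eventually_all]
      exact hv a
    filter_upwards [h1] with j hj
    ext a b
    exact hj a b
  choose V hV using key
  choose R hR using fun x : UP U M => UP.mk_surj x
  have hVc : ∀ f g : J → M, UP.mk U f = UP.mk U g → V f = V g := by
    intro f g hfg
    obtain ⟨j, h1, h2, h3⟩ := ((UP.mk_eq.1 hfg).and ((hV f).and (hV g))).exists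
    rw [← h2, ← h3, h1]
  have hVa : ∀ f g : J → M, V (fun j => f j + g j) = V f + V g := by
    intro f g
    obtain ⟨j, h1, h2, h3⟩ := ((hV fun j => f j + g j).and ((hV f).and (hV g))).exists
    rw [← h1, ← h2, ← h3, map_add]
  have hVs : ∀ (c : ℂ) (f : J → M), V (fun j => c • f j) = c • V f := by
    intro c f
    obtain ⟨j, h1, h2⟩ := ((hV fun j => c • f j).and (hV f)).exists
    rw [← h1, ← h2, map_smul]
  refine ⟨{ toFun := fun x => V (R x), map_add' := fun x y => ?_, map_smul' := fun c x => ?_ },
    ⟨fun m x => ?_, fun a ha => ?_⟩, fun f => ?_⟩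
  · rw [← hVa]
    refine hVc _ _ ?_
    rw [hR, ← UP.mk_add, hR, hR]
  · rw [RingHom.id_apply, ← hVs]
    refine hVc _ _ ?_
    rw [hR, ← UP.mk_smul, hR]
  · have h1 : ∀ᶠ j in U.F, ∀ p q : Fin m, φ j (star (R (x p) j) * R (x q) j) =
        V (fun j => star (R (x p) j) * R (x q) j) := by
      rw [eventually_all]
      intro p
      rw [eventually_all]
      intro q
      exact hV _
    obtain ⟨j, h2, h3⟩ := (h1.and h).exists
    have h4 := h3.pos m (fun p => R (x p) j)
    have e : (Matrix.of (fun p q : Fin m × Fin n => V (R (star (x p.1) * x q.1)) p.2 q.2)) =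
        Matrix.of (fun p q : Fin m × Fin n =>
          φ j (star (R (x p.1) j) * R (x q.1) j) p.2 q.2) := by
      ext p q
      rw [Matrix.of_apply, Matrix.of_apply, h2]
      have h5 : V (R (star (x p.1) * x q.1)) = V (fun j => star (R (x p.1) j) * R (x q.1) j) := by
        refine hVc _ _ ?_
        rw [hR, ← UP.mk_mul, ← UP.mk_star, hR, hR]
      rw [h5]
    show (Matrix.of (fun p q : Fin m × Fin n => V (R (star (x p.1) * x q.1)) p.2 q.2)).PosSemidef
    rw [e]
    exact h4
  · obtain ⟨j, h1, h2, h3⟩ := ((UP.norm_mk (U := U) (R a)).and ((hV (R a)).and h)).exists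
    show (1 - star (V (R a)) * V (R a)).PosSemidef
    rw [← h2]
    refine h3.contr _ ?_
    rw [h1, hR]
    exact ha
  · filter_upwards [hV f] with j hj
    rw [hj]
    exact hVc _ _ (hR _)

end Pool.Agent.UNA
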