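import Pool.Agent.UNA.U2
import Pool.Agent.UNA.U3

set_option autoImplicit false
open scoped ComplexOrder
open Cardinal Filter

namespace Pool.Agent.UNA

open Pool.Agent.MP_162c54_lc (IsNuclear)

universe u

/-- The ultrapower of a nuclear algebra is nuclear.

Proof (`isNuclear_iff`). Given a finite `F ⊆ UP U M` and `ε > 0` choose a representative `r a : J → M` of
each `a ∈ F` (`UP.mk_surj`).  For each `j` apply nuclearity of `M` to `F.image (fun a => r a j)`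
and `ε / 2`: `n j, φ j, ψ j`.  `n j` is a.e. constant `= n` (`ev_const` with `X = ℕ`).  Put
`φ' j := if h : n j = n then h ▸ φ j else 0` (or: for `n j = n` choose maps in dimension `n`; simplest:
for a.e. `j` there EXIST `φ' j : M →ₗ M_n`, `ψ' j` with `CPC1 ∧ CPC2 ∧ approximation`, because
`n j = n` and `subst`; then `choose!`-like definition by `if`).  `up_phi`, `up_psi` give `Φ, Ψ`;
`Ψ (Φ a) = mk U (fun j => ψ' j (Φ a))` and a.e. `Φ a = φ' j (r a j)`, so a.e.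
`‖ψ' j (Φ a) - r a j‖ < ε / 2`, hence `‖Ψ (Φ a) - a‖ < ε / 2 < ε` by `UP.norm_mk`. -/
theorem up_nuclear {J : Type u} (U : SU J) (M : Type u) [NonUnitalCStarAlgebra M]
    (hM : IsNuclear M) : IsNuclear (UP U M) := by
  classical
  rw [isNuclear_iff] at hM ⊢
  intro F ε hε
  choose r hr using fun a : UP U M => UP.mk_surj a
  have h1 : ∀ j : J, ∃ (n : ℕ) (φ : M →ₗ[ℂ] Matrix (Fin n) (Fin n) ℂ)
      (ψ : Matrix (Fin n) (Fin n) ℂ →ₗ[ℂ] M),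
      CPC1 φ ∧ CPC2 ψ ∧ ∀ a ∈ F, ‖ψ (φ (r a j)) - r a j‖ < ε / 2 := by
    intro j
    obtain ⟨n, φ, ψ, h1, h2, h3⟩ := hM (F.image (fun a => r a j)) (ε / 2) (half_pos hε)
    exact ⟨n, φ, ψ, h1, h2, fun a ha => h3 _ (Finset.mem_image_of_mem _ ha)⟩
  choose N hN using h1
  obtain ⟨n, hn⟩ := ev_const U N
  have h2 : ∀ j : J, ∃ (φ : M →ₗ[ℂ] Matrix (Fin n) (Fin n) ℂ)
      (ψ : Matrix (Fin n) (Fin n) ℂ →ₗ[ℂ] M),
      N j = n → CPC1 φ ∧ CPC2 ψ ∧ ∀ a ∈ F, ‖ψ (φ (r a j)) - r a j‖ < ε / 2 := by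
    intro j
    by_cases h : N j = n
    · have h3 := hN j
      rw [h] at h3
      obtain ⟨φ, ψ, hh⟩ := h3
      exact ⟨φ, ψ, fun _ => hh⟩
    · exact ⟨0, 0, fun h' => absurd h' h⟩
  choose φ ψ hφψ using h2
  obtain ⟨Φ, hΦ1, hΦ2⟩ := up_phi (U := U) φ (hn.mono fun j hj => (hφψ j hj).1)
  obtain ⟨Ψ, hΨ1, hΨ2⟩ := up_psi (U := U) ψ (hn.mono fun j hj => (hφψ j hj).2.1)
  refine ⟨n, Φ, Ψ, hΦ1, hΨ1, fun a ha => ?_⟩
  have e : Ψ (Φ a) - a = UP.mk U (fun j => ψ j (Φ a) - r a j) := by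
    rw [hΨ2, ← UP.mk_sub, hr a]
  rw [e]
  obtain ⟨j, h1, h2, h3⟩ := ((UP.norm_mk (U := U) (fun j => ψ j (Φ a) - r a j)).and
    (hn.and (hΦ2 (r a)))).exists
  rw [hr a] at h3
  have h4 : ‖ψ j (Φ a) - r a j‖ < ε := by
    rw [h3]
    exact ((hφψ j h2).2.2 a ha).trans (half_lt_self hε)
  exact lt_of_eq_of_lt h1.symm h4

end Pool.Agent.UNA
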