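import Pool.Agent.UNA.D0

set_option autoImplicit false
open Cardinal Filter Set

namespace Pool.Agent.UNA

open Pool.Agent.MP_162c54_lc (KK)

universe u

/-- A least unbounded function modulo a fine ultrafilter.

Proof. The relation `R g h := ∀ᶠ s in U.F, g s < h s` on `Set (KK μ) → KK μ` is well-founded: otherwise
(`RelEmbedding.wellFounded_iff_isEmpty` or `wellFounded_iff_isEmpty_descending_chain`) there is a sequence
`f n` with `f (n + 1) s < f n s` a.e. for every `n`; by countable completeness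
(`eventually_countable_forall`) and `Eventually.exists` there is one `s` with
`f (n + 1) s < f n s` for all `n`, contradicting the well-foundedness of `KK μ`.  The set of functions
`h` with `∀ β, ∀ᶠ s in U.F, β < h s` is nonempty: for `#s < χ ≤ μ` let `h s` be a strict upper bound
of `s` (`bound_K` in `MP_162c54_lc/GuessK.lean`, `ι := s`), otherwise arbitrary; for `β`: a.e. `β ∈ s`.
Take `h` minimal (`WellFounded.min`).  If `g < h` a.e., then `g` is not in the set: some `β` with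
`¬ ∀ᶠ s, β < g s`, i.e. (`Ultrafilter.eventually_not`) `∀ᶠ s, g s ≤ β`. -/
theorem exists_min_unbounded {μ χ : Cardinal.{u}} (hμ : μ.IsRegular) (hχμ : χ ≤ μ)
    (U : SU (Set (KK μ))) (hU : U.Fine χ) :
    ∃ h : Set (KK μ) → KK μ, (∀ β, ∀ᶠ s in U.F, β < h s) ∧
      ∀ g : Set (KK μ) → KK μ, (∀ᶠ s in U.F, g s < h s) → ∃ β, ∀ᶠ s in U.F, g s ≤ β := by
  classical
  have hwf : WellFounded (fun g h : Set (KK μ) → KK μ => ∀ᶠ s in U.F, g s < h s) := by
    rw [wellFounded_iff_isEmpty_descending_chain]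
    refine ⟨fun F => ?_⟩
    obtain ⟨f, hf⟩ := F
    have h1 : ∀ᶠ s in U.F, ∀ n, f (n + 1) s < f n s := eventually_countable_forall.2 hf
    obtain ⟨s, hs⟩ := h1.exists
    exact (wellFounded_iff_isEmpty_descending_chain.1
      (wellFounded_lt : WellFounded ((· < ·) : KK μ → KK μ → Prop))).false ⟨fun n => f n s, hs⟩
  obtain ⟨b0, -⟩ := Pool.Agent.MP_162c54_lc.bound_K (κ := μ) hμ (ι := PEmpty.{u + 1})
    (fun i => i.elim) (by
      rw [Cardinal.lift_id, Cardinal.lift_id, Cardinal.mk_pempty]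
      exact Cardinal.aleph0_pos.trans_le hμ.aleph0_le)
  have hex : ∀ s : Set (KK μ), ∃ b : KK μ, #s < χ → ∀ i ∈ s, i < b := by
    intro s
    by_cases hs : #s < χ
    · obtain ⟨b, hb⟩ := Pool.Agent.MP_162c54_lc.bound_K (κ := μ) hμ (fun i : s => i.1) (by
        rw [Cardinal.lift_id, Cardinal.lift_id]
        exact hs.trans_le hχμ)
      exact ⟨b, fun _ i hi => hb ⟨i, hi⟩⟩
    · exact ⟨b0, fun h => absurd h hs⟩
  choose h0 hh0 using hex
  have hne : {h : Set (KK μ) → KK μ | ∀ β, ∀ᶠ s in U.F, β < h s}.Nonempty := by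
    refine ⟨h0, fun β => ?_⟩
    filter_upwards [hU.fine β, hU.small] with s hβ hs
    exact hh0 s hs β hβ
  refine ⟨hwf.min _ hne, hwf.min_mem _ hne, fun g hg => ?_⟩
  by_contra hcon
  have hgm : g ∈ {h : Set (KK μ) → KK μ | ∀ β, ∀ᶠ s in U.F, β < h s} := by
    intro β
    by_contra hβ
    exact hcon ⟨β, (Ultrafilter.eventually_not.2 hβ).mono fun s hs => not_lt.1 hs⟩
  exact hwf.not_lt_min _ hgm hg

/-- For such `h`, almost every `s` is cofinal below `h s`.

Proof. Otherwise (`Ultrafilter.eventually_not`) for a.e. `s` there is `g s < h s` with no `y ∈ s`,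
`g s ≤ y < h s` (choose, `g s := ` arbitrary elsewhere); `h2` gives `β` with `g s ≤ β` a.e., but a.e.
`β ∈ s` and `β < h s`: contradiction at one `s`. -/
theorem ev_cofinal {μ χ : Cardinal.{u}} (U : SU (Set (KK μ))) (hU : U.Fine χ)
    (h : Set (KK μ) → KK μ) (h1 : ∀ β, ∀ᶠ s in U.F, β < h s)
    (h2 : ∀ g : Set (KK μ) → KK μ, (∀ᶠ s in U.F, g s < h s) → ∃ β, ∀ᶠ s in U.F, g s ≤ β) :
    ∀ᶠ s in U.F, ∀ x < h s, ∃ y ∈ s, x ≤ y ∧ y < h s := by
  classical
  by_contra hcon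
  have h3 := Ultrafilter.eventually_not.2 hcon
  have hex : ∀ s : Set (KK μ), ∃ x : KK μ, (¬ ∀ x < h s, ∃ y ∈ s, x ≤ y ∧ y < h s) →
      x < h s ∧ ∀ y ∈ s, x ≤ y → ¬ y < h s := by
    intro s
    by_cases hs : ∀ x < h s, ∃ y ∈ s, x ≤ y ∧ y < h s
    · exact ⟨h s, fun h => absurd hs h⟩
    · have hs' := hs
      push Not at hs'
      obtain ⟨x, hx, hx2⟩ := hs'
      exact ⟨x, fun _ => ⟨hx, fun y hy hxy => not_lt.2 (hx2 y hy hxy)⟩⟩
  choose g hg using hex
  have h4 : ∀ᶠ s in U.F, g s < h s := h3.mono fun s hs => (hg s hs).1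
  obtain ⟨β, hβ⟩ := h2 g h4
  obtain ⟨s, hs1, hs2, hs3, hs4⟩ := (h3.and ((hU.fine β).and ((h1 β).and hβ))).exists
  exact (hg s hs1).2 β hs2 hs4 hs3

end Pool.Agent.UNA
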