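import Pool.Agent.UNA.V1

set_option autoImplicit false
open Cardinal Filter Set

namespace Pool.Agent.UNA

open Pool.Agent.MP_162c54_lc (KK)

universe u

/-- Solovay: countable subsets of a regular `μ ≥ χ` are covered by `μ` many sets of size `< χ`.

Proof. `h` from `exists_min_unbounded`, `ev_cofinal`.  For `α : KK μ` let `c α : Set (KK μ)` be a subset of
`Iio α` with `#(c α) < χ` and `∀ x < α, ∃ y ∈ c α, x ≤ y`, if there is one, else `∅` (note `0 < χ`: from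
`hU.small` and `Eventually.exists`).  For a.e. `s` (with `#s < χ` and cofinal) the set `s ∩ Iio (h s)`
witnesses this for `α = h s`, so a.e. `#(c (h s)) < χ`, `c (h s) ⊆ Iio (h s)` and `c (h s)` is cofinal in
`Iio (h s)`.
Step function: for every `η` there is `F η` with `∀ᶠ s, ∃ y ∈ c (h s), η ≤ y ∧ y < F η`: let `g s` be
a chosen `y ∈ c (h s)` with `η ≤ y` (exists a.e. since a.e. `η < h s`), `g s < h s` a.e., so `g s ≤ β` a.e.;
take `F η > β` (`bound_K` for one element).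
Recursion along the well-order `KK μ`: `η γ :=` a strict upper bound of `{F (η γ') | γ' < γ}` (it exists by
`bound_K`, since `#(Iio γ) < μ`: `Cardinal.mk_Iio_lt`, as in `mk_Iic_K` of `GuessK.lean`; use
`WellFounded.fix` or `WellFoundedLT.fix` with `if`/`choose`), so
`F (η γ') < η γ` for `γ' < γ` and the intervals `[η γ, F (η γ))` are disjoint.
`A α := {γ | ∃ y ∈ c α, η γ ≤ y ∧ y < F (η γ)}`; choosing such `y` is an injection `A α → c α`, so
`#(A α) < χ`.  For `a : ℕ → KK μ`: for a.e. `s` all `a n ∈ A (h s)` (`eventually_countable_forall`);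
take one such `s` and `α := h s`. -/
theorem exists_cover {μ χ : Cardinal.{u}} (hμ : μ.IsRegular) (hχμ : χ ≤ μ)
    (U : SU (Set (KK μ))) (hU : U.Fine χ) :
    ∃ A : KK μ → Set (KK μ), (∀ α, #(A α) < χ) ∧ ∀ a : ℕ → KK μ, ∃ α, ∀ n, a n ∈ A α := by
  classical
  obtain ⟨h, h1, h2⟩ := exists_min_unbounded hμ hχμ U hU
  have hcof := ev_cofinal U hU h h1 h2
  have hχ0 : 0 < χ := by
    obtain ⟨s, hs⟩ := hU.small.exists
    exact lt_of_le_of_lt bot_le hs
  obtain ⟨P, hPdef⟩ : ∃ P : KK μ → Set (KK μ) → Prop, ∀ α c, P α c ↔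
      (c ⊆ Iio α ∧ #c < χ ∧ ∀ x < α, ∃ y ∈ c, x ≤ y) :=
    ⟨fun α c => (c ⊆ Iio α ∧ #c < χ ∧ ∀ x < α, ∃ y ∈ c, x ≤ y), fun _ _ => Iff.rfl⟩
  have hc : ∀ α, ∃ c : Set (KK μ), #c < χ ∧ ((∃ c', P α c') → P α c) := by
    intro α
    by_cases hα : ∃ c', P α c'
    · obtain ⟨c', hc'⟩ := hα
      exact ⟨c', ((hPdef α c').1 hc').2.1, fun _ => hc'⟩
    · refine ⟨∅, ?_, fun h' => absurd h' hα⟩
      rw [Cardinal.mk_eq_zero (∅ : Set (KK μ))]
      exact hχ0
  choose c hcχ hcP' using hc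
  have hcP : ∀ᶠ s in U.F, P (h s) (c (h s)) := by
    filter_upwards [hU.small, hcof] with s hs hco
    apply hcP'
    refine ⟨s ∩ Iio (h s), (hPdef _ _).2 ⟨inter_subset_right,
      lt_of_le_of_lt (Cardinal.mk_le_mk_of_subset inter_subset_left) hs, fun x hx => ?_⟩⟩
    obtain ⟨y, hy, hxy, hyh⟩ := hco x hx
    exact ⟨y, ⟨hy, hyh⟩, hxy⟩
  have hstep : ∀ η : KK μ, ∃ β : KK μ, ∀ᶠ s in U.F, ∃ y ∈ c (h s), η ≤ y ∧ y < β := by
    intro η
    have hex : ∀ᶠ s in U.F, ∃ y ∈ c (h s), η ≤ y ∧ y < h s := by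
      filter_upwards [h1 η, hcP] with s hs hP
      have hP2 := (hPdef _ _).1 hP
      obtain ⟨y, hy, hηy⟩ := hP2.2.2 η hs
      exact ⟨y, hy, hηy, hP2.1 hy⟩
    have hg' : ∀ s, ∃ y : KK μ, (∃ y ∈ c (h s), η ≤ y ∧ y < h s) →
        (y ∈ c (h s) ∧ η ≤ y ∧ y < h s) := by
      intro s
      by_cases hs : ∃ y ∈ c (h s), η ≤ y ∧ y < h s
      · obtain ⟨y, hy⟩ := hs
        exact ⟨y, fun _ => hy⟩
      · exact ⟨η, fun h' => absurd h' hs⟩
    choose g hg0 using hg'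
    have hg : ∀ᶠ s in U.F, g s ∈ c (h s) ∧ η ≤ g s ∧ g s < h s := by
      filter_upwards [hex] with s hs
      exact hg0 s hs
    obtain ⟨β, hβ⟩ := h2 g (hg.mono fun s hs => hs.2.2)
    obtain ⟨β', hβ'⟩ := Pool.Agent.MP_162c54_lc.bound_K (ι := Unit) hμ (fun _ => β) (by
      rw [Cardinal.mk_unit, Cardinal.lift_one, Cardinal.lift_uzero]
      exact Cardinal.one_lt_aleph0.trans_le hμ.aleph0_le)
    refine ⟨β', ?_⟩
    filter_upwards [hg, hβ] with s hs hb
    exact ⟨g s, hs.1, hs.2.1, lt_of_le_of_lt hb (hβ' ())⟩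
  choose F hF using hstep
  have hbd : ∀ (γ : KK μ) (f : Iio γ → KK μ), ∃ b, ∀ i, F (f i) < b := by
    intro γ f
    apply Pool.Agent.MP_162c54_lc.bound_K hμ (fun i => F (f i))
    rw [Cardinal.lift_id, Cardinal.lift_id]
    exact lt_of_le_of_lt (Cardinal.mk_le_mk_of_subset Iio_subset_Iic_self)
      (Pool.Agent.MP_162c54_lc.mk_Iic_K hμ γ)
  choose B hB using hbd
  obtain ⟨η, hηeq⟩ : ∃ η : KK μ → KK μ, ∀ γ, η γ = B γ (fun i => η i.1) := by
    refine ⟨WellFounded.fix (C := fun _ => KK μ) (wellFounded_lt (α := KK μ))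
      (fun γ ih => B γ (fun i => ih i.1 i.2)), fun γ => ?_⟩
    rw [WellFounded.fix_eq]
  have hη : ∀ γ γ', γ' < γ → F (η γ') < η γ := by
    intro γ γ' hlt
    rw [hηeq γ]
    exact hB γ (fun i => η i.1) ⟨γ', hlt⟩
  refine ⟨fun α => {γ | ∃ y ∈ c α, η γ ≤ y ∧ y < F (η γ)}, ?_, ?_⟩
  · intro α
    refine lt_of_le_of_lt ?_ (hcχ α)
    have hch : ∀ γ : {γ | ∃ y ∈ c α, η γ ≤ y ∧ y < F (η γ)},
        ∃ y : c α, η γ.1 ≤ y.1 ∧ y.1 < F (η γ.1) := by
      rintro ⟨γ, y, hy, hy2⟩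
      exact ⟨⟨y, hy⟩, hy2⟩
    choose e he using hch
    apply Cardinal.mk_le_of_injective (f := e)
    intro γ γ' hee
    apply Subtype.ext
    by_contra hne
    rcases lt_or_gt_of_ne hne with hlt | hlt
    · have h3 := hη _ _ hlt
      have a1 := (he γ).2
      have a2 := (he γ').1
      rw [hee] at a1
      exact absurd (a1.trans (h3.trans_le a2)) (lt_irrefl _)
    · have h3 := hη _ _ hlt
      have a1 := (he γ').2
      have a2 := (he γ).1
      rw [← hee] at a1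
      exact absurd (a1.trans (h3.trans_le a2)) (lt_irrefl _)
  · intro a
    have hev : ∀ᶠ s in U.F, ∀ n, ∃ y ∈ c (h s), η (a n) ≤ y ∧ y < F (η (a n)) := by
      rw [eventually_countable_forall]
      intro n
      exact hF (η (a n))
    obtain ⟨s, hs⟩ := hev.exists
    exact ⟨h s, hs⟩

end Pool.Agent.UNA
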